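import Pool.Agent.Lib.H93B.Defs

/-!
# H93B, Ball: elementary facts on balls
-/

set_option autoImplicit false

open Finset
open scoped Classical

namespace Pool.Agent.Lib.H93B

variable {V : Type} [Fintype V] {G : SimpleGraph V}

theorem mem_nb {u v : V} : u ∈ nb G v ↔ G.Adj v u := by simp [nb]

theorem mem_nb_comm {u v : V} : u ∈ nb G v ↔ v ∈ nb G u := by
  rw [mem_nb, mem_nb, G.adj_comm]

theorem mem_co {u w x : V} : x ∈ co G u w ↔ G.Adj u x ∧ G.Adj w x := by
  simp [co, mem_nb]

theorem co_comm (u w : V) : co G u w = co G w u := by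
  unfold co; rw [inter_comm]

theorem cd_comm (u w : V) : cd G u w = cd G w u := by
  unfold cd; rw [co_comm]

theorem mem_ball_zero {u v : V} : u ∈ ball G 0 v ↔ u = v := by simp [ball]

theorem mem_ball_succ {n : ℕ} {u v : V} :
    u ∈ ball G (n + 1) v ↔ ∃ w ∈ ball G n v, u = w ∨ G.Adj w u := by
  simp [ball, mem_nb]

theorem self_mem_ball (n : ℕ) (v : V) : v ∈ ball G n v := by
  induction n with
  | zero => exact mem_ball_zero.2 rfl
  | succ n ih => exact mem_ball_succ.2 ⟨v, ih, Or.inl rfl⟩

theorem ball_succ_subset (n : ℕ) (v : V) : ball G n v ⊆ ball G (n + 1) v := fun u hu =>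
  mem_ball_succ.2 ⟨u, hu, Or.inl rfl⟩

theorem ball_mono {m n : ℕ} (h : m ≤ n) (v : V) : ball G m v ⊆ ball G n v := by
  induction h with
  | refl => exact Subset.refl _
  | step _ ih => exact ih.trans (ball_succ_subset _ _)

theorem ball_triangle {m n : ℕ} {u v w : V} (h1 : v ∈ ball G m u) (h2 : w ∈ ball G n v) :
    w ∈ ball G (m + n) u := by
  induction n generalizing w with
  | zero => rw [mem_ball_zero.1 h2]; exact h1
  | succ n ih =>
    obtain ⟨z, hz, hw⟩ := mem_ball_succ.1 h2
    exact mem_ball_succ.2 ⟨z, ih hz, hw⟩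

theorem mem_ball_one_of_adj {u v : V} (h : G.Adj u v) : v ∈ ball G 1 u :=
  mem_ball_succ.2 ⟨u, mem_ball_zero.2 rfl, Or.inr h⟩

theorem mem_ball_comm {n : ℕ} {u v : V} : u ∈ ball G n v ↔ v ∈ ball G n u := by
  have key : ∀ (n : ℕ) (u v : V), u ∈ ball G n v → v ∈ ball G n u := by
    intro n
    induction n with
    | zero => intro u v h; exact mem_ball_zero.2 (mem_ball_zero.1 h).symm
    | succ n ih =>
      intro u v h
      obtain ⟨w, hw, h1⟩ := mem_ball_succ.1 h
      have h2 := ih w v hw
      have h3 : w ∈ ball G 1 u := by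
        rcases h1 with h1 | h1
        · rw [h1]; exact self_mem_ball 1 w
        · exact mem_ball_one_of_adj h1.symm
      have := ball_triangle h3 h2
      rwa [add_comm] at this
  exact ⟨key n u v, key n v u⟩

theorem card_ball_le (D : ℕ) (hdeg : ∀ v, (nb G v).card ≤ D) (n : ℕ) (v : V) :
    (ball G n v).card ≤ (D + 1) ^ n := by
  induction n with
  | zero => simp [ball]
  | succ n ih =>
    have h1 : (ball G (n + 1) v).card ≤ (ball G n v).card * (D + 1) := by
      refine card_biUnion_le_card_mul _ _ _ fun u _ => ?_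
      exact (card_insert_le _ _).trans (by have := hdeg u; omega)
    calc (ball G (n + 1) v).card ≤ (ball G n v).card * (D + 1) := h1
      _ ≤ (D + 1) ^ n * (D + 1) := Nat.mul_le_mul_right _ ih
      _ = (D + 1) ^ (n + 1) := (pow_succ _ _).symm

end Pool.Agent.Lib.H93B
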