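import Pool.Agent.Lib.H93B.Defs

/-!
# H93B, DC1: the constants

See `PROOF.md`.
-/

set_option autoImplicit false

open Finset
open scoped Classical

namespace Pool.Agent.Lib.H93B

theorem dc1_log (ε : ℝ) (hε : 0 < ε) (hε1 : ε ≤ 1) :
    0 ≤ Real.log (1 / (ε ^ 6 / 10 ^ 20)) ∧ Real.log (1 / (ε ^ 6 / 10 ^ 20)) ≤ 2 * 10 ^ 10 / ε ^ 3 := by
  have h6 : ε ^ 6 ≤ 1 := pow_le_one₀ hε.le hε1
  constructor
  · apply Real.log_nonneg
    rw [one_div_div, le_div_iff₀ (by positivity)]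
    linarith
  · have h1 : (1 : ℝ) / (ε ^ 6 / 10 ^ 20) = (10 ^ 10 / ε ^ 3) ^ 2 := by
      field_simp
    rw [h1, Real.log_pow]
    have h2 : (0 : ℝ) < 10 ^ 10 / ε ^ 3 := by positivity
    have h3 := Real.log_le_sub_one_of_pos h2
    push_cast
    have h4 : (2 : ℝ) * 10 ^ 10 / ε ^ 3 = 2 * (10 ^ 10 / ε ^ 3) := by ring
    rw [h4]
    linarith

/-- THE CONSTANTS (`PROOF.md`, section 9). `K0 = 64/ε`, `K2 = 64 K0/ε`, `γ = ε^6/10^20`,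
`C1m = 2048 log(1/γ)/ε + 4`, `ρ0 = ε^2/(10^5 C1m)`, `C3m = C1m/ρ0`, `j0 = ⌈64 C1m K0/ε⌉₊`,
`Λ = 640 C3m/(γ ε)`. (`log(1/γ) ≤ 2/√γ = 2 * 10^10/ε^3`, so `γ C1m ≤ 4096 √γ/ε + 4 γ ≤ ε^2/204800`, and
`2 γ K0 C1m ≤ ε/1600`; `ρ0 C1m = ε^2/10^5`; `γ^2 3200/ε` is tiny.)
Given `a0`: `a = min a0 (ε/(300 sig))`; `2000 sig^3 a^2 = 2000 sig (sig a)^2 ≤ 2000 sig ε^2/90000 ≤
ε lam` with `lam = sig/32`. `R = ⌈16 log(1/γ)/(ε lam a)⌉₊`: `(1 - κ)^R ≤ exp(-κ R) ≤ γ` for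
`κ = ε lam a/16 ≤ 1`; `R * 4 sig a ≤ (16 log(1/γ)/(ε lam a) + 1) * 4 sig a = 2048 log(1/γ)/ε +
4 sig a ≤ C1m`; the last claim is this divided by `ρ0`. -/
theorem consts (ε : ℝ) (hε : 0 < ε) (hε1 : ε ≤ 1) :
    ∃ c : Cst, c.ε = ε ∧ 1 ≤ c.K ∧ 1 ≤ c.Λ ∧ 1 ≤ c.j0 ∧ 0 < c.γ ∧ 0 < c.ρ0 ∧ 0 < c.K0 ∧
      0 < c.C1m ∧ c.C1m * (c.ρ0 + 2 * c.γ * c.K0) ≤ ε / 800 ∧
      (2 * c.γ) ^ 2 * (800 / ε) + c.ρ0 ≤ ε ^ 2 / 12800 ∧
      ∀ a0 : ℝ, 0 < a0 → ∃ a : ℝ, 0 < a ∧ a ≤ a0 ∧ CstHyp { c with a := a } ∧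
        ∃ R : ℕ, (1 - ε * c.lam * a / 16) ^ R ≤ c.γ ∧ (R : ℝ) * (4 * c.sig * a) ≤ c.C1m ∧
          (R : ℝ) * (4 * c.sig * a / c.ρ0) ≤ c.C3m := by
  obtain ⟨hl0, hl1⟩ := dc1_log ε hε hε1
  set γ : ℝ := ε ^ 6 / 10 ^ 20 with hγ
  set lg : ℝ := Real.log (1 / γ) with hlg
  set C1 : ℝ := 2048 * lg / ε + 4 with hC1
  set K0 : ℝ := 64 / ε with hK0
  set K2 : ℝ := 64 * K0 / ε with hK2
  set ρ0 : ℝ := ε ^ 2 / (10 ^ 5 * C1) with hρ0
  set C3 : ℝ := C1 / ρ0 with hC3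
  set j0 : ℕ := ⌈64 * C1 * K0 / ε⌉₊ with hj0
  set Λ : ℝ := 640 * C3 / (γ * ε) with hΛ
  have hγ0 : 0 < γ := by positivity
  have h6 : ε ^ 6 ≤ 1 := pow_le_one₀ hε.le hε1
  have h2 : ε ^ 2 ≤ 1 := pow_le_one₀ hε.le hε1
  have h2' : ε ^ 2 ≤ ε := by nlinarith
  have hγ1 : γ ≤ 1 := by
    rw [hγ, div_le_one (by positivity)]
    linarith
  have hC4 : 4 ≤ C1 := by
    have : 0 ≤ 2048 * lg / ε := by positivity
    linarith
  have hC0 : 0 < C1 := by linarith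
  have hK00 : 0 < K0 := by positivity
  have hK01 : 64 ≤ K0 := by
    rw [hK0, le_div_iff₀ hε]
    linarith
  have hK20 : 0 < K2 := by positivity
  have hρ00 : 0 < ρ0 := by positivity
  have hρC : ρ0 * C1 = ε ^ 2 / 10 ^ 5 := by
    rw [hρ0]
    field_simp
  have hρ4 : ρ0 ≤ ε ^ 2 / (4 * 10 ^ 5) := by
    rw [hρ0]
    refine div_le_div_of_nonneg_left (by positivity) (by positivity) ?_
    nlinarith
  have hρ1 : ρ0 ≤ 1 := by
    refine hρ4.trans ?_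
    rw [div_le_one (by positivity)]
    linarith
  have hC31 : 1 ≤ C3 := by
    rw [hC3, le_div_iff₀ hρ00]
    linarith
  have hC30 : 0 < C3 := by linarith
  have hγε : 0 < γ * ε := mul_pos hγ0 hε
  have hγε1 : γ * ε ≤ 1 := by nlinarith
  have hΛ1 : 1 ≤ Λ := by
    rw [hΛ, le_div_iff₀ hγε]
    linarith
  have hj1 : 1 ≤ j0 := by
    have h : 0 < 64 * C1 * K0 / ε := by positivity
    exact Nat.ceil_pos.2 h
  have hI : 1 ≤ Iof j0 := by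
    unfold Iof
    have : (0 : ℝ) ≤ (j0 : ℝ) ^ 2 := by positivity
    linarith
  -- the bound for `γ C1`
  have hγC : γ * C1 ≤ ε ^ 2 / 204800 := by
    have e1 : 2048 * lg / ε ≤ 2048 * (2 * 10 ^ 10 / ε ^ 3) / ε :=
      div_le_div_of_nonneg_right (mul_le_mul_of_nonneg_left hl1 (by norm_num)) hε.le
    have e2 : γ * C1 ≤ γ * (2048 * (2 * 10 ^ 10 / ε ^ 3) / ε + 4) :=
      mul_le_mul_of_nonneg_left (by linarith) hγ0.le
    have e3 : γ * (2048 * (2 * 10 ^ 10 / ε ^ 3) / ε + 4) =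
        4096 * 10 ^ 10 / 10 ^ 20 * ε ^ 2 + 4 / 10 ^ 20 * ε ^ 6 := by
      rw [hγ]
      field_simp
      ring
    have e4 : ε ^ 6 ≤ ε ^ 2 := pow_le_pow_of_le_one hε.le hε1 (by norm_num)
    rw [e3] at e2
    have e5 : 0 < ε ^ 2 := by positivity
    nlinarith
  refine ⟨⟨ε, γ, K0, K2, ρ0, j0, C1, C3, Λ, 1⟩, rfl, ?_, hΛ1, hj1, hγ0, hρ00, hK00, hC0, ?_, ?_, ?_⟩
  · show 1 ≤ 3 + 1 / K0 + C1 * K0 + K2 + K0
    have e1 : 0 < 1 / K0 := by positivity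
    have e2 : 0 < C1 * K0 := by positivity
    linarith
  · show C1 * (ρ0 + 2 * γ * K0) ≤ ε / 800
    have e1 : C1 * (ρ0 + 2 * γ * K0) = ρ0 * C1 + 128 * (γ * C1) / ε := by
      rw [hK0]
      field_simp
      ring
    have e2 : 128 * (γ * C1) / ε ≤ 128 * (ε ^ 2 / 204800) / ε :=
      div_le_div_of_nonneg_right (by linarith) hε.le
    have e3 : 128 * (ε ^ 2 / 204800) / ε = ε / 1600 := by
      field_simp
      norm_num
    rw [e1, hρC]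
    rw [e3] at e2
    linarith
  · show (2 * γ) ^ 2 * (800 / ε) + ρ0 ≤ ε ^ 2 / 12800
    have e1 : (2 * γ) ^ 2 * (800 / ε) = 3200 / 10 ^ 40 * ε ^ 11 := by
      rw [hγ]
      field_simp
      norm_num
    have e2 : ε ^ 11 ≤ ε ^ 2 := pow_le_pow_of_le_one hε.le hε1 (by norm_num)
    have e3 : 0 < ε ^ 2 := by positivity
    rw [e1]
    have e4 : ε ^ 2 / (4 * 10 ^ 5) = ε ^ 2 * (1 / (4 * 10 ^ 5)) := by ring
    rw [e4] at hρ4
    nlinarith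
  · intro a0 ha0
    have hlam : ∀ aa : ℝ, Cst.lam ⟨ε, γ, K0, K2, ρ0, j0, C1, C3, Λ, aa⟩ = Iof j0 * Λ / 8 := fun _ => rfl
    have hsig : ∀ aa : ℝ, Cst.sig ⟨ε, γ, K0, K2, ρ0, j0, C1, C3, Λ, aa⟩ = 4 * Iof j0 * Λ := fun _ => rfl
    set S : ℝ := 4 * Iof j0 * Λ with hS
    have hS0 : 0 < S := by positivity
    have hLS : Iof j0 * Λ / 8 = S / 32 := by
      rw [hS]
      ring
    set a : ℝ := min a0 (ε / (300 * S)) with ha
    have ha1 : 0 < a := lt_min ha0 (by positivity)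
    have haS : S * a ≤ ε / 300 := by
      have e1 : a ≤ ε / (300 * S) := min_le_right _ _
      calc S * a ≤ S * (ε / (300 * S)) := mul_le_mul_of_nonneg_left e1 hS0.le
        _ = ε / 300 := by field_simp
    have haS0 : 0 < S * a := mul_pos hS0 ha1
    refine ⟨a, ha1, min_le_left _ _, ?_, ?_⟩
    · refine ⟨hε, hε1, hγ0, hγ1, rfl, rfl, hρ00, hρ1, by show 1 ≤ C1; linarith, hC31, ?_, ?_, hΛ1, ?_, ha1, ?_, ?_⟩
      · show ρ0 * C1 ≤ ε / 64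
        rw [hρC]
        linarith
      · show 64 * C1 * K0 / ε ≤ (j0 : ℝ)
        exact Nat.le_ceil _
      · show 640 * C3 ≤ γ * ε * Λ
        rw [hΛ]
        exact le_of_eq (mul_div_cancel₀ _ hγε.ne').symm
      · show Cst.sig ⟨ε, γ, K0, K2, ρ0, j0, C1, C3, Λ, a⟩ * a ≤ 1
        rw [hsig]
        linarith
      · show 2000 * Cst.sig ⟨ε, γ, K0, K2, ρ0, j0, C1, C3, Λ, a⟩ ^ 3 * a ^ 2 ≤
          ε * Cst.lam ⟨ε, γ, K0, K2, ρ0, j0, C1, C3, Λ, a⟩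
        rw [hsig, hlam, hLS]
        have e1 : 2000 * S ^ 3 * a ^ 2 = 2000 * S * (S * a) ^ 2 := by ring
        have e2 : (S * a) ^ 2 ≤ (ε / 300) ^ 2 := pow_le_pow_left₀ haS0.le haS 2
        rw [e1]
        calc 2000 * S * (S * a) ^ 2 ≤ 2000 * S * (ε / 300) ^ 2 :=
              mul_le_mul_of_nonneg_left e2 (by positivity)
          _ = S * (ε ^ 2 / 45) := by ring
          _ ≤ S * (ε / 32) := mul_le_mul_of_nonneg_left (by linarith) hS0.le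
          _ = ε * (S / 32) := by ring
    · show ∃ R : ℕ, (1 - ε * Cst.lam ⟨ε, γ, K0, K2, ρ0, j0, C1, C3, Λ, 1⟩ * a / 16) ^ R ≤ γ ∧
        (R : ℝ) * (4 * Cst.sig ⟨ε, γ, K0, K2, ρ0, j0, C1, C3, Λ, 1⟩ * a) ≤ C1 ∧
        (R : ℝ) * (4 * Cst.sig ⟨ε, γ, K0, K2, ρ0, j0, C1, C3, Λ, 1⟩ * a / ρ0) ≤ C3
      rw [hlam, hsig, hLS]
      set κ : ℝ := ε * (S / 32) * a / 16 with hκ
      have hκ0 : 0 < κ := by positivity
      have hκ1 : κ ≤ 1 := by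
        have e1 : κ = ε * (S * a) / 512 := by rw [hκ]; ring
        rw [e1, div_le_one (by norm_num)]
        nlinarith
      have hRc : (⌈lg / κ⌉₊ : ℝ) * (4 * S * a) ≤ C1 := by
        have e1 : (⌈lg / κ⌉₊ : ℝ) < lg / κ + 1 := Nat.ceil_lt_add_one (by positivity)
        have e2 : (⌈lg / κ⌉₊ : ℝ) * (4 * S * a) ≤ (lg / κ + 1) * (4 * S * a) :=
          mul_le_mul_of_nonneg_right e1.le (by positivity)
        have e3 : (lg / κ + 1) * (4 * S * a) = 2048 * lg / ε + 4 * (S * a) := by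
          rw [hκ]
          field_simp
          ring
        rw [e3] at e2
        have e4 : 4 * (S * a) ≤ 4 := by linarith
        linarith
      refine ⟨⌈lg / κ⌉₊, ?_, hRc, ?_⟩
      · have e1 : 1 - κ ≤ Real.exp (-κ) := by
          have := Real.add_one_le_exp (-κ)
          linarith
        have e2 : (1 - κ) ^ ⌈lg / κ⌉₊ ≤ Real.exp (-κ) ^ ⌈lg / κ⌉₊ :=
          pow_le_pow_left₀ (by linarith) e1 _
        rw [← Real.exp_nat_mul] at e2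
        refine e2.trans ?_
        have e3 : lg / κ ≤ (⌈lg / κ⌉₊ : ℝ) := Nat.le_ceil _
        rw [div_le_iff₀ hκ0] at e3
        have e4 : γ = Real.exp (-lg) := by
          rw [hlg, Real.log_div one_ne_zero hγ0.ne', Real.log_one, zero_sub, neg_neg, Real.exp_log hγ0]
        conv_rhs => rw [e4]
        apply Real.exp_le_exp.2
        linarith
      · have e1 : (⌈lg / κ⌉₊ : ℝ) * (4 * S * a / ρ0) = (⌈lg / κ⌉₊ : ℝ) * (4 * S * a) / ρ0 := by ring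
        rw [e1, hC3]
        exact div_le_div_of_nonneg_right hRc hρ00.le

end Pool.Agent.Lib.H93B
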