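import Pool.Agent.Lib.H93B.Defs

/-!
# H93B, DW2: functionals whose supports are given by sites

See `PROOF.md`.
-/

set_option autoImplicit false

open Finset
open scoped Classical

namespace Pool.Agent.Lib.H93B

/-- Let `ρ t` be the set of the sites `site t i`, `i ∈ S` (distinct if `w t ≠ 0`). Every token with
`w t ≠ 0` and `B ⊆ ρ t` contributes `w t * p^(|S| - |B|) ≤ p^(|S| - |B|)`, and there is a map
`g : B → S` (injective) with `site t (g x) = x` for `x ∈ B`. There are at most `|S|^|B|` maps from `B`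
to `S` (extend each to a function `X → I` by an arbitrary constant, `I` is nonempty), and for each of
them at most `Nb` tokens. (If no token has `B ⊆ ρ t`, the left-hand side is zero.) -/
theorem tf_le_of_sites {X T I : Type} [Fintype T] [Fintype I] [Nonempty I] (w : T → ℝ)
    (ρ : T → Finset X) (site : T → I → X) (S : Finset I) (hw0 : ∀ t, 0 ≤ w t)
    (hw1 : ∀ t, w t ≤ 1) (hρ : ∀ t, ρ t = S.image (site t))
    (hinj : ∀ t, w t ≠ 0 → Set.InjOn (site t) S) (p : ℝ) (hp : 0 ≤ p) (B : Finset X) (Nb : ℝ)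
    (hNb : 0 ≤ Nb)
    (hN : ∀ g : X → I, (∀ x ∈ B, g x ∈ S) → Set.InjOn g B →
      ((univ.filter fun t => w t ≠ 0 ∧ ∀ x ∈ B, site t (g x) = x).card : ℝ) ≤ Nb) :
    tf w ρ (fun _ => p) B ≤ (S.card : ℝ) ^ B.card * Nb * p ^ (S.card - B.card) := by
  have hE : ∀ t, w t ≠ 0 → B ⊆ ρ t → (ρ t \ B).card = S.card - B.card := by
    intro t ht hB
    rw [card_sdiff_of_subset hB, hρ t, card_image_of_injOn (hinj t ht)]
  have hterm : ∀ t, (if B ⊆ ρ t then w t * ∏ x ∈ ρ t \ B, (fun _ : X => p) x else 0)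
      ≤ if w t ≠ 0 ∧ B ⊆ ρ t then p ^ (S.card - B.card) else 0 := by
    intro t
    by_cases ht : w t = 0
    · simp [ht]
    · by_cases hB : B ⊆ ρ t
      · rw [if_pos hB, if_pos ⟨ht, hB⟩, prod_const, hE t ht hB]
        exact mul_le_of_le_one_left (pow_nonneg hp _) (hw1 t)
      · rw [if_neg hB, if_neg fun h => hB h.2]
  have h1 : tf w ρ (fun _ => p) B ≤ ((univ.filter fun t => w t ≠ 0 ∧ B ⊆ ρ t).card : ℝ) * p ^ (S.card - B.card) := by
    unfold tf
    refine (sum_le_sum fun t _ => hterm t).trans ?_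
    rw [← sum_filter, sum_const, nsmul_eq_mul]
  let E : (↥B → ↥S) → X → I := fun h x => if hx : x ∈ B then (h ⟨x, hx⟩ : I) else Classical.arbitrary I
  have hsub : (univ.filter fun t => w t ≠ 0 ∧ B ⊆ ρ t) ⊆
      (univ.filter fun h : ↥B → ↥S => Function.Injective h).biUnion
        fun h => univ.filter fun t => w t ≠ 0 ∧ ∀ x ∈ B, site t (E h x) = x := by
    intro t ht
    obtain ⟨_, ht0, htB⟩ := mem_filter.1 ht
    have hex : ∀ x : ↥B, ∃ i ∈ S, site t i = x := by
      intro x
      have := htB x.2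
      rw [hρ t, mem_image] at this
      exact this
    choose i hi1 hi2 using hex
    refine mem_biUnion.2 ⟨fun x => ⟨i x, hi1 x⟩, mem_filter.2 ⟨mem_univ _, ?_⟩, mem_filter.2 ⟨mem_univ _, ht0, ?_⟩⟩
    · intro x y hxy
      have hxy' : i x = i y := congrArg Subtype.val hxy
      apply Subtype.ext
      rw [← hi2 x, ← hi2 y, hxy']
    · intro x hx
      simp only [E, dif_pos hx]
      exact hi2 ⟨x, hx⟩
  have h2 : ((univ.filter fun t => w t ≠ 0 ∧ B ⊆ ρ t).card : ℝ) ≤ (S.card : ℝ) ^ B.card * Nb := by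
    have h3 : ((univ.filter fun t => w t ≠ 0 ∧ B ⊆ ρ t).card : ℝ)
        ≤ ∑ h ∈ univ.filter (fun h : ↥B → ↥S => Function.Injective h),
          ((univ.filter fun t => w t ≠ 0 ∧ ∀ x ∈ B, site t (E h x) = x).card : ℝ) := by
      have h4 := (card_le_card hsub).trans card_biUnion_le
      exact_mod_cast h4
    refine h3.trans ?_
    have h5 : ∀ h ∈ univ.filter (fun h : ↥B → ↥S => Function.Injective h),
        ((univ.filter fun t => w t ≠ 0 ∧ ∀ x ∈ B, site t (E h x) = x).card : ℝ) ≤ Nb := by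
      intro h hh
      have hinjh := (mem_filter.1 hh).2
      refine hN (E h) ?_ ?_
      · intro x hx
        simp only [E, dif_pos hx]
        exact (h ⟨x, hx⟩).2
      · intro x hx y hy hxy
        have hx' : x ∈ B := hx
        have hy' : y ∈ B := hy
        simp only [E, dif_pos hx', dif_pos hy'] at hxy
        have := hinjh (Subtype.ext hxy)
        exact congrArg Subtype.val this
    refine (sum_le_sum h5).trans ?_
    rw [sum_const, nsmul_eq_mul]
    refine mul_le_mul_of_nonneg_right ?_ hNb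
    have h6 : (univ.filter (fun h : ↥B → ↥S => Function.Injective h)).card ≤ S.card ^ B.card := by
      refine (card_filter_le _ _).trans ?_
      rw [card_univ, Fintype.card_fun, Fintype.card_coe, Fintype.card_coe]
    exact_mod_cast h6
  exact h1.trans (mul_le_mul_of_nonneg_right h2 (pow_nonneg hp _))

end Pool.Agent.Lib.H93B
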