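import Pool.Agent.Lib.H93B.DW1
import Pool.Agent.Lib.H93B.DW2

/-!
# H93B, DE1: the functional E at the start

See `PROOF.md`.
-/

set_option autoImplicit false

open Finset
open scoped Classical

namespace Pool.Agent.Lib.H93B

theorem de1_cnt {V : Type} [Fintype V] (G : SimpleGraph V) (D k : ℕ) (hdeg : ∀ v, (nb G v).card ≤ D) {n : ℕ}
    (i0 : Fin n) (S : Finset (Fin n)) (h0 : i0 ∉ S) (u : V) (B : Finset (V × Fin k)) (hB : B.Nonempty)
    (g : V × Fin k → Fin n) (hg : ∀ x ∈ B, g x ∈ S) (hinj : Set.InjOn g B) :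
    (univ.filter fun t : (Fin n → V) × Fin k => (t.1 i0 = u ∧ IsWalk G t.1) ∧ ∀ x ∈ B, siteE t (g x) = x).card ≤
      D ^ (n - (1 + B.card)) := by
  obtain ⟨x0, hx0⟩ := hB
  have hi0 : i0 ∉ B.image g := by
    intro h
    obtain ⟨x, hx, hx'⟩ := mem_image.1 h
    exact h0 (hx' ▸ hg x hx)
  have hP : (insert i0 (B.image g)).card = 1 + B.card := by
    rw [card_insert_of_notMem hi0, card_image_of_injOn hinj, add_comm]
  have hw := walk_count G D hdeg n (insert i0 (B.image g)) ⟨i0, mem_insert_self _ _⟩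
    (fun i => if h : ∃ x ∈ B, g x = i then h.choose.1 else u)
  rw [hP] at hw
  refine le_trans (card_le_card_of_injOn (fun t => t.1) ?_ ?_) hw
  · intro t ht
    obtain ⟨-, ⟨h1, h2⟩, h3⟩ := mem_filter.1 (mem_coe.1 ht)
    refine mem_coe.2 (mem_filter.2 ⟨mem_univ _, h2, ?_⟩)
    intro i hi
    rcases mem_insert.1 hi with rfl | hi
    · rw [dif_neg]
      · exact h1
      · rintro ⟨x, hx, hx'⟩
        exact h0 (hx' ▸ hg x hx)
    · obtain ⟨x, hx, rfl⟩ := mem_image.1 hi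
      have hex : ∃ y ∈ B, g y = g x := ⟨x, hx, rfl⟩
      rw [dif_pos hex]
      have h4 : hex.choose = x := hinj hex.choose_spec.1 hx hex.choose_spec.2
      rw [h4]
      exact congrArg Prod.fst (h3 x hx)
  · intro t ht t' ht' htt
    obtain ⟨-, -, h3⟩ := mem_filter.1 (mem_coe.1 ht)
    obtain ⟨-, -, h3'⟩ := mem_filter.1 (mem_coe.1 ht')
    have h4 : t.2 = x0.2 := congrArg Prod.snd (h3 x0 hx0)
    have h5 : t'.2 = x0.2 := congrArg Prod.snd (h3' x0 hx0)
    exact Prod.ext htt (h4.trans h5.symm)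

theorem de1_cnt0 {V : Type} [Fintype V] (G : SimpleGraph V) (D k : ℕ) (hdeg : ∀ v, (nb G v).card ≤ D) {n : ℕ}
    (i0 : Fin n) (u : V) :
    (univ.filter fun t : (Fin n → V) × Fin k => t.1 i0 = u ∧ IsWalk G t.1).card ≤ D ^ (n - 1) * k := by
  have hw := walk_count G D hdeg n {i0} ⟨i0, mem_singleton_self _⟩ (fun _ => u)
  rw [card_singleton] at hw
  have h1 : (univ.filter fun t : (Fin n → V) × Fin k => t.1 i0 = u ∧ IsWalk G t.1) ⊆
      (univ.filter fun v : Fin n → V => IsWalk G v ∧ ∀ i ∈ ({i0} : Finset (Fin n)), v i = u) ×ˢ (univ : Finset (Fin k)) := by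
    intro t ht
    obtain ⟨-, h1, h2⟩ := mem_filter.1 ht
    refine mem_product.2 ⟨mem_filter.2 ⟨mem_univ _, h2, ?_⟩, mem_univ _⟩
    intro i hi
    rw [mem_singleton.1 hi]
    exact h1
  refine (card_le_card h1).trans ?_
  rw [card_product, card_univ, Fintype.card_fin]
  exact Nat.mul_le_mul_right _ hw

theorem de1_num {D k : ℕ} {r : ℝ} (hr : 1 ≤ r) (hD : r ^ 3 = D) (m b : ℕ) (hb : 1 ≤ b) (hb3 : b ≤ 3) :
    (3 : ℝ) ^ b * (D : ℝ) ^ (m + 5 - (1 + b)) * (1 / r ^ 4) ^ (3 - b) ≤ 27 * r ^ (3 * m + 4) := by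
  have hr0 : 0 < r := by linarith
  have hR : 0 < r ^ (3 * m) := by positivity
  rw [← hD, pow_add]
  have h1 : 1 ≤ r ^ 3 := one_le_pow₀ hr
  have h2 : r ≤ r ^ 4 := by
    calc r = r ^ 1 := (pow_one r).symm
      _ ≤ r ^ 4 := pow_le_pow_right₀ hr (by norm_num)
  have h3 : r ^ 2 ≤ r ^ 4 := pow_le_pow_right₀ hr (by norm_num)
  have h4 : r ^ 3 ≤ r ^ 4 := pow_le_pow_right₀ hr (by norm_num)
  interval_cases b
  · have e : (3 : ℝ) ^ 1 * (r ^ 3) ^ (m + 5 - (1 + 1)) * (1 / r ^ 4) ^ (3 - 1) = 3 * (r ^ (3 * m) * r) := by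
      have e1 : (r ^ 3) ^ (m + 5 - (1 + 1)) = r ^ (3 * m) * r ^ 9 := by
        rw [show m + 5 - (1 + 1) = m + 3 by omega]
        ring
      rw [e1, show (3 - 1 : ℕ) = 2 from rfl]
      field_simp
    rw [e]
    nlinarith [mul_le_mul_of_nonneg_left h2 hR.le, mul_pos hR hr0]
  · have e : (3 : ℝ) ^ 2 * (r ^ 3) ^ (m + 5 - (1 + 2)) * (1 / r ^ 4) ^ (3 - 2) = 9 * (r ^ (3 * m) * r ^ 2) := by
      have e1 : (r ^ 3) ^ (m + 5 - (1 + 2)) = r ^ (3 * m) * r ^ 6 := by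
        rw [show m + 5 - (1 + 2) = m + 2 by omega]
        ring
      rw [e1, show (3 - 2 : ℕ) = 1 from rfl]
      field_simp
      norm_num
    rw [e]
    nlinarith [mul_le_mul_of_nonneg_left h3 hR.le, mul_pos hR (pow_pos hr0 2)]
  · have e : (3 : ℝ) ^ 3 * (r ^ 3) ^ (m + 5 - (1 + 3)) * (1 / r ^ 4) ^ (3 - 3) = 27 * (r ^ (3 * m) * r ^ 3) := by
      have e1 : (r ^ 3) ^ (m + 5 - (1 + 3)) = r ^ (3 * m) * r ^ 3 := by
        rw [show m + 5 - (1 + 3) = m + 1 by omega]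
        ring
      rw [e1]
      norm_num
    rw [e]
    nlinarith [mul_le_mul_of_nonneg_left h4 hR.le, mul_pos hR (pow_pos hr0 3)]

/-- weights of the tokens: walks with `u` at the position `i0` -/
noncomputable def de1_w {V : Type} (G : SimpleGraph V) {k n : ℕ} (i0 : Fin n) (u : V) (t : (Fin n → V) × Fin k) : ℝ :=
  if t.1 i0 = u ∧ IsWalk G t.1 ∧ Alt t.1 then 1 else 0

theorem de1_ne {V : Type} (G : SimpleGraph V) {k n : ℕ} {i0 : Fin n} {u : V} {t : (Fin n → V) × Fin k}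
    (h : de1_w G i0 u t ≠ 0) : t.1 i0 = u ∧ IsWalk G t.1 ∧ Alt t.1 := by
  by_contra h'
  exact h (if_neg h')

theorem de1_w01 {V : Type} (G : SimpleGraph V) {k n : ℕ} (i0 : Fin n) (u : V) (t : (Fin n → V) × Fin k) :
    0 ≤ de1_w G i0 u t ∧ de1_w G i0 u t ≤ 1 := by
  unfold de1_w
  split_ifs
  · exact ⟨zero_le_one, le_rfl⟩
  · exact ⟨le_rfl, zero_le_one⟩

theorem de1_key {V : Type} [Fintype V] (G : SimpleGraph V) {k n : ℕ} {r : ℝ} (i0 : Fin n) (S : Finset (Fin n))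
    (hpar : ∀ i ∈ S, ∀ j ∈ S, (i : ℕ) % 2 = (j : ℕ) % 2) (u : V) (B : Finset (V × Fin k)) (Nb : ℝ) (hNb : 0 ≤ Nb)
    (hN : ∀ g : V × Fin k → Fin n, (∀ x ∈ B, g x ∈ S) → Set.InjOn g B →
      ((univ.filter fun t : (Fin n → V) × Fin k => de1_w G i0 u t ≠ 0 ∧ ∀ x ∈ B, siteE t (g x) = x).card : ℝ) ≤ Nb) :
    tf (de1_w G i0 u) (fun t => S.image (siteE t)) (fun _ => 1 / r ^ 4) B ≤
      (S.card : ℝ) ^ B.card * Nb * (1 / r ^ 4) ^ (S.card - B.card) := by
  haveI : Nonempty (Fin n) := ⟨i0⟩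
  refine tf_le_of_sites (de1_w G i0 u) (fun t => S.image (siteE t)) siteE S (fun t => (de1_w01 G i0 u t).1)
    (fun t => (de1_w01 G i0 u t).2) (fun _ => by congr; exact Subsingleton.elim _ _) ?_ (1 / r ^ 4) (by positivity) B Nb hNb
    (fun g hg hi => by convert hN g hg hi)
  intro t ht i hi j hj hij
  obtain ⟨-, -, h3⟩ := de1_ne G ht
  by_contra hne
  exact h3 i j hne (hpar i hi j hj) (congrArg Prod.fst hij)

theorem de1_gen {V : Type} [Fintype V] (G : SimpleGraph V) (D k : ℕ) (r : ℝ)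
    (hdeg : ∀ v, (nb G v).card ≤ D) (hr : 1 ≤ r) (hD : r ^ 3 = D) (hk : (k : ℝ) ≤ r ^ 4) (m n : ℕ) (hn : n = m + 5)
    (i0 : Fin n) (S : Finset (Fin n)) (h0 : i0 ∉ S) (hS : S.card = 3)
    (hpar : ∀ i ∈ S, ∀ j ∈ S, (i : ℕ) % 2 = (j : ℕ) % 2)
    (u : V) (B : Finset (V × Fin k)) :
    tf (de1_w G i0 u) (fun t => S.image (siteE t)) (fun _ => 1 / r ^ 4) B ≤ 27 * r ^ (3 * m + 4) := by
  have hr0 : 0 < r := by linarith
  have key := de1_key (r := r) G i0 S hpar u B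
  rw [hS] at key
  rcases B.eq_empty_or_nonempty with rfl | hB
  · refine (key ((D : ℝ) ^ (n - 1) * k) (by positivity) ?_).trans ?_
    · intro g _ _
      have h1 := de1_cnt0 G D k hdeg i0 u
      have h2 : (univ.filter fun t : (Fin n → V) × Fin k => de1_w G i0 u t ≠ 0 ∧
            ∀ x ∈ (∅ : Finset (V × Fin k)), siteE t (g x) = x).card ≤ D ^ (n - 1) * k := by
        refine (card_le_card fun t ht => ?_).trans h1
        obtain ⟨-, h3, -⟩ := mem_filter.1 ht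
        exact mem_filter.2 ⟨mem_univ _, (de1_ne G h3).1, (de1_ne G h3).2.1⟩
      have h3 : ((univ.filter fun t : (Fin n → V) × Fin k => de1_w G i0 u t ≠ 0 ∧
            ∀ x ∈ (∅ : Finset (V × Fin k)), siteE t (g x) = x).card : ℝ) ≤ ((D ^ (n - 1) * k : ℕ) : ℝ) := Nat.cast_le.2 h2
      rw [Nat.cast_mul, Nat.cast_pow] at h3
      exact h3
    · rw [card_empty, pow_zero, one_mul, Nat.sub_zero, ← hD, hn]
      have e1 : (r ^ 3) ^ (m + 5 - 1) = r ^ (3 * m) * r ^ 12 := by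
        rw [show m + 5 - 1 = m + 4 by omega]
        ring
      rw [e1, pow_add]
      have hR : 0 < r ^ (3 * m) := by positivity
      have e2 : r ^ (3 * m) * r ^ 12 * k * (1 / r ^ 4) ^ 3 = r ^ (3 * m) * k := by
        field_simp
      rw [e2]
      nlinarith [mul_le_mul_of_nonneg_left hk hR.le, mul_pos hR (pow_pos hr0 4)]
  · by_cases hb : B.card ≤ 3
    · refine (key ((D : ℝ) ^ (n - (1 + B.card))) (by positivity) ?_).trans ?_
      · intro g hg hinj
        have h1 := de1_cnt G D k hdeg i0 S h0 u B hB g hg hinj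
        have h2 : (univ.filter fun t : (Fin n → V) × Fin k => de1_w G i0 u t ≠ 0 ∧
              ∀ x ∈ B, siteE t (g x) = x).card ≤ D ^ (n - (1 + B.card)) := by
          refine (card_le_card fun t ht => ?_).trans h1
          obtain ⟨-, h3, h4⟩ := mem_filter.1 ht
          exact mem_filter.2 ⟨mem_univ _, ⟨(de1_ne G h3).1, (de1_ne G h3).2.1⟩, h4⟩
        have h3 : ((univ.filter fun t : (Fin n → V) × Fin k => de1_w G i0 u t ≠ 0 ∧
              ∀ x ∈ B, siteE t (g x) = x).card : ℝ) ≤ ((D ^ (n - (1 + B.card)) : ℕ) : ℝ) := Nat.cast_le.2 h2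
        rw [Nat.cast_pow] at h3
        exact h3
      · rw [hn]
        exact de1_num (k := k) hr hD m B.card hB.card_pos hb
    · refine (key 0 le_rfl ?_).trans ?_
      · intro g hg hinj
        exfalso
        apply hb
        rw [← hS, ← card_image_of_injOn hinj]
        refine card_le_card fun y hy => ?_
        obtain ⟨x, hx, rfl⟩ := mem_image.1 hy
        exact hg x hx
      · rw [mul_zero, zero_mul]
        positivity

/-- `B = ∅`: at most `D^5` walks start in `u` (`walk_count`, `P = {0}`), `k` colours, all supports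
have 3 elements: `tf ∅ ≤ r^15 * r^4 / r^12 = r^7`. `B ≠ ∅`, `|B| ≤ 3`: `tf_le_of_sites` with the odd
positions, `site = siteE`; the colour is prescribed, and the walk has prescribed vertices at
`P = insert 0 (B.image g)`, `|P| = 1 + |B|` (`0` is not odd): `Nb = D^(5 - |B|)`,
`tf B ≤ 3^|B| * r^(15 - 3|B|) / r^(12 - 4|B|) = 3^|B| * r^(3 + |B|) ≤ 27 r^6`. `|B| > 3`: zero. -/
theorem E_start {V : Type} [Fintype V] (G : SimpleGraph V) (D k : ℕ) (r : ℝ)
    (hdeg : ∀ v, (nb G v).card ≤ D) (hr : 1 ≤ r) (hD : r ^ 3 = D) (hk : (k : ℝ) ≤ r ^ 4)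
    (u : V) (B : Finset (V × Fin k)) :
    tf (wE G u) ρE (fun _ => 1 / r ^ 4) B ≤ 27 * r ^ 7 := by
  have h := de1_gen G D k r hdeg hr hD hk 1 6 rfl 0 (univ.filter fun i : Fin 6 => (i : ℕ) % 2 = 1) ?_ ?_ ?_ u B
  · exact h
  · simp
  · decide
  · intro i hi j hj
    rw [(mem_filter.1 hi).2, (mem_filter.1 hj).2]

end Pool.Agent.Lib.H93B
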