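import Pool.Agent.Lib.H93B.DW1
import Pool.Agent.Lib.H93B.DW2

/-!
# H93B, DE2: the functional Q at the start

See `PROOF.md`.
-/

set_option autoImplicit false

open Finset
open scoped Classical

namespace Pool.Agent.Lib.H93B

theorem de2_S : (univ.filter fun i : Fin 5 => (i : ℕ) % 2 = 0).card = 3 := by decide

theorem de2_w {V : Type} [Fintype V] (G : SimpleGraph V) {k : ℕ} (u : V)
    (t : (Fin 5 → V) × Fin k) (h : wQ G u t ≠ 0) : t.1 1 = u ∧ IsWalk G t.1 ∧ Alt t.1 := by
  by_contra h1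
  exact h (by unfold wQ; rw [if_neg h1])

theorem de2_count0 {V : Type} [Fintype V] (G : SimpleGraph V) (D k : ℕ)
    (hdeg : ∀ v, (nb G v).card ≤ D) (u : V) :
    (univ.filter fun t : (Fin 5 → V) × Fin k => wQ G u t ≠ 0).card ≤ D ^ 4 * k := by
  have h1 : (univ.filter fun t : (Fin 5 → V) × Fin k => wQ G u t ≠ 0) ⊆
      (univ.filter fun v : Fin 5 → V => IsWalk G v ∧ ∀ i ∈ ({1} : Finset (Fin 5)),
        v i = (fun _ => u) i) ×ˢ (univ : Finset (Fin k)) := by
    intro t ht
    rw [mem_filter] at ht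
    obtain ⟨h2, h3, _⟩ := de2_w G u t ht.2
    rw [mem_product, mem_filter]
    refine ⟨⟨mem_univ _, h3, ?_⟩, mem_univ _⟩
    intro i hi
    rw [mem_singleton] at hi
    rw [hi, h2]
  refine (card_le_card h1).trans ?_
  rw [card_product, card_univ, Fintype.card_fin]
  refine Nat.mul_le_mul_right k ?_
  have h2 := walk_count G D hdeg 5 {1} (singleton_nonempty 1) (fun _ => u)
  rw [card_singleton] at h2
  exact h2

theorem de2_count {V : Type} [Fintype V] (G : SimpleGraph V) (D k : ℕ)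
    (hdeg : ∀ v, (nb G v).card ≤ D) (u : V) (B : Finset (V × Fin k)) (hB : B.Nonempty)
    (g : V × Fin k → Fin 5) (hg : ∀ x ∈ B, (g x : ℕ) % 2 = 0) (hgi : Set.InjOn g B) :
    (univ.filter fun t : (Fin 5 → V) × Fin k => wQ G u t ≠ 0 ∧
      ∀ x ∈ B, siteE t (g x) = x).card ≤ D ^ (4 - B.card) := by
  obtain ⟨x0, hx0⟩ := hB
  let b : Fin 5 → V := fun i => if h : ∃ x ∈ B, g x = i then h.choose.1 else u
  have hb : ∀ x ∈ B, b (g x) = x.1 := by
    intro x hx
    have h : ∃ x' ∈ B, g x' = g x := ⟨x, hx, rfl⟩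
    simp only [b]
    rw [dif_pos h]
    exact congrArg Prod.fst (hgi h.choose_spec.1 hx h.choose_spec.2)
  have h1g : ∀ x ∈ B, g x ≠ 1 := by
    intro x hx h
    have h2 := hg x hx
    rw [h] at h2
    exact absurd h2 (by decide)
  have hb1 : b 1 = u := by
    simp only [b]
    rw [dif_neg]
    rintro ⟨x, hx, h⟩
    exact h1g x hx h
  have h1 : (1 : Fin 5) ∉ B.image g := by
    intro h
    obtain ⟨x, hx, h2⟩ := mem_image.1 h
    exact h1g x hx h2
  have h2 := walk_count G D hdeg 5 (insert 1 (B.image g)) (insert_nonempty _ _) b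
  rw [card_insert_of_notMem h1, card_image_of_injOn hgi] at h2
  have h3 : 5 - (B.card + 1) = 4 - B.card := by omega
  rw [h3] at h2
  refine le_trans (card_le_card_of_injOn Prod.fst ?_ ?_) h2
  · intro t ht
    rw [mem_coe, mem_filter] at ht
    obtain ⟨_, h4, h5⟩ := ht
    obtain ⟨h6, h7, _⟩ := de2_w G u t h4
    rw [mem_coe, mem_filter]
    refine ⟨mem_univ _, h7, ?_⟩
    intro i hi
    rw [mem_insert] at hi
    rcases hi with hi | hi
    · rw [hi, hb1, h6]
    · obtain ⟨x, hx, rfl⟩ := mem_image.1 hi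
      rw [hb x hx]
      exact congrArg Prod.fst (h5 x hx)
  · intro t ht t' ht' htt
    rw [mem_coe, mem_filter] at ht ht'
    refine Prod.ext htt ?_
    have h4 := congrArg Prod.snd (ht.2.2 x0 hx0)
    have h5 := congrArg Prod.snd (ht'.2.2 x0 hx0)
    exact h4.trans h5.symm

/-- As `E_start` with walks with 5 vertices, `u` at position 1, sites at the positions 0, 2, 4:
`B = ∅`: `D^4 * k / r^12 ≤ r^4`; `B ≠ ∅`, `|B| ≤ 3`: `P = insert 1 (B.image g)`,
`Nb = D^(4 - |B|)`, `tf B ≤ 3^|B| * r^(12 - 3|B|) / r^(12 - 4|B|) = 3^|B| * r^|B| ≤ 27 r^3`. -/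
theorem Q_start {V : Type} [Fintype V] (G : SimpleGraph V) (D k : ℕ) (r : ℝ)
    (hdeg : ∀ v, (nb G v).card ≤ D) (hr : 1 ≤ r) (hD : r ^ 3 = D) (hk : (k : ℝ) ≤ r ^ 4)
    (u : V) (B : Finset (V × Fin k)) :
    tf (wQ G u) ρQ (fun _ => 1 / r ^ 4) B ≤ 27 * r ^ 4 := by
  have hr0 : 0 < r := zero_lt_one.trans_le hr
  have hw0 : ∀ t : (Fin 5 → V) × Fin k, 0 ≤ wQ G u t := by
    intro t
    unfold wQ
    split_ifs <;> norm_num
  have hw1 : ∀ t : (Fin 5 → V) × Fin k, wQ G u t ≤ 1 := by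
    intro t
    unfold wQ
    split_ifs <;> norm_num
  by_cases hBc : B.card ≤ 3
  swap
  · have h0 : tf (wQ G u) ρQ (fun _ => 1 / r ^ 4) B = 0 := by
      unfold tf
      refine sum_eq_zero fun t _ => ?_
      rw [if_neg]
      intro h
      apply hBc
      refine (card_le_card h).trans ?_
      unfold ρQ
      refine card_image_le.trans ?_
      rw [de2_S]
    rw [h0]
    positivity
  have key := fun (Nb : ℝ) (hNb : 0 ≤ Nb) => tf_le_of_sites (wQ G u) ρQ siteE
    (univ.filter fun i : Fin 5 => (i : ℕ) % 2 = 0) hw0 hw1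
    (fun t => by unfold ρQ; ext x; simp only [mem_image])
    (fun t ht => by
      obtain ⟨_, _, h⟩ := de2_w G u t ht
      intro i hi j hj hij
      by_contra hne
      rw [mem_coe, mem_filter] at hi hj
      exact h i j hne (hi.2.trans hj.2.symm) (congrArg Prod.fst hij))
    (1 / r ^ 4) (by positivity) B Nb hNb
  rw [de2_S] at key
  rcases B.eq_empty_or_nonempty with hB | hB
  · have h1 := key (D ^ 4 * k) (by positivity) (by
      intro g _ _
      have h3 := de2_count0 G D k hdeg u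
      have h2 : (univ.filter fun t : (Fin 5 → V) × Fin k => wQ G u t ≠ 0 ∧
          ∀ x ∈ B, siteE t (g x) = x).card ≤
          (univ.filter fun t : (Fin 5 → V) × Fin k => wQ G u t ≠ 0).card := by
        refine card_le_card ?_
        intro t ht
        rw [mem_filter] at ht ⊢
        exact ⟨ht.1, ht.2.1⟩
      exact_mod_cast h2.trans h3)
    rw [hB, card_empty] at h1
    rw [hB]
    refine h1.trans ?_
    rw [← hD]
    have h2 : ((3 : ℕ) : ℝ) ^ 0 * ((r ^ 3) ^ 4 * (k : ℝ)) * (1 / r ^ 4) ^ (3 - 0) = k := by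
      norm_num
      field_simp
    rw [h2]
    have h3 : 0 < r ^ 4 := by positivity
    linarith
  · have h1 := key (D ^ (4 - B.card)) (by positivity) (by
      intro g hg hgi
      have h2 := de2_count G D k hdeg u B hB g (fun x hx => (mem_filter.1 (hg x hx)).2) hgi
      exact_mod_cast h2)
    refine h1.trans ?_
    rw [← hD]
    have hB1 : 1 ≤ B.card := card_pos.2 hB
    have h34 : r ^ 3 ≤ r ^ 4 := pow_le_pow_right₀ hr (by norm_num)
    have h14 : r ≤ r ^ 4 := by
      calc r = r ^ 1 := (pow_one r).symm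
        _ ≤ r ^ 4 := pow_le_pow_right₀ hr (by norm_num)
    have h24 : r ^ 2 ≤ r ^ 4 := pow_le_pow_right₀ hr (by norm_num)
    have h4 : B.card = 1 ∨ B.card = 2 ∨ B.card = 3 := by omega
    rcases h4 with h4 | h4 | h4
    · rw [h4]
      have h5 : ((3 : ℕ) : ℝ) ^ 1 * (r ^ 3) ^ (4 - 1) * (1 / r ^ 4) ^ (3 - 1) = 3 * r := by
        norm_num
        field_simp
      rw [h5]
      linarith
    · rw [h4]
      have h5 : ((3 : ℕ) : ℝ) ^ 2 * (r ^ 3) ^ (4 - 2) * (1 / r ^ 4) ^ (3 - 2) = 9 * r ^ 2 := by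
        norm_num
        field_simp
      rw [h5]
      linarith
    · rw [h4]
      have h5 : ((3 : ℕ) : ℝ) ^ 3 * (r ^ 3) ^ (4 - 3) * (1 / r ^ 4) ^ (3 - 3) = 27 * r ^ 3 := by
        norm_num
      rw [h5]
      linarith

end Pool.Agent.Lib.H93B
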