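import Pool.Agent.Lib.H93B.DF
import Pool.Agent.Lib.H93B.Ball

/-!
# H93B, DE3: the degree functionals

See `PROOF.md`.
-/

set_option autoImplicit false

open Finset
open scoped Classical

namespace Pool.Agent.Lib.H93B

/-- the functional of singletons at `∅`, any type -/
theorem de3_empty {X T : Type} [Fintype T] (w : T → ℝ) (g : T → X) (om : X → ℝ) :
    tf w (fun t => {g t}) om ∅ = ∑ t, w t * om (g t) := by
  unfold tf
  refine Finset.sum_congr rfl fun t _ => ?_
  rw [if_pos (Finset.empty_subset _), Finset.sdiff_empty, Finset.prod_singleton]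

/-- the functional of singletons at a nonempty set, any type -/
theorem de3_ne {X T : Type} [Fintype T] (w : T → ℝ) (g : T → X) (om : X → ℝ) (B : Finset X)
    (z : X) (hz : z ∈ B) (t0 : T) (h0 : ∀ t, g t = z → t = t0) (hw0 : 0 ≤ w t0) :
    tf w (fun t => {g t}) om B ≤ w t0 := by
  unfold tf
  have h1 : ∀ t : T, t ≠ t0 → ¬ B ⊆ {g t} := by
    intro t ht h
    exact ht (h0 t (Finset.mem_singleton.1 (h hz)).symm)
  rw [Finset.sum_eq_single t0 (fun t _ ht => if_neg (h1 t ht)) (fun h => absurd (Finset.mem_univ _) h)]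
  split_ifs with h2
  · rw [Finset.prod_eq_one, mul_one]
    intro x hx
    exfalso
    obtain ⟨h4, h5⟩ := Finset.mem_sdiff.1 hx
    apply h5
    have h6 := Finset.mem_singleton.1 (h2 hz)
    rw [Finset.mem_singleton.1 h4, ← h6]
    exact hz
  · exact hw0

/-- The functional of `(v, col)`: tokens `u`, weight 1 if `u ∈ nb G v`, support `{(u, col)}`.
`B = ∅`: `∑_{u ∈ nb G v} 1 / r^4 ≤ D / r^4 ≤ 1`; `B = {(u0, col)}`: the weight of `u0`; other `B`: 0. -/
theorem N_start {V : Type} [Fintype V] (G : SimpleGraph V) (D k : ℕ) (r : ℝ)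
    (hdeg : ∀ v, (nb G v).card ≤ D) (hr : 1 ≤ r) (hD : r ^ 3 = D) (v : V) (col : Fin k)
    (B : Finset (V × Fin k)) :
    tf (fun u : V => if u ∈ nb G v then (1 : ℝ) else 0) (fun u => {(u, col)})
      (fun _ => 1 / r ^ 4) B ≤ 1 := by
  have hr0 : 0 < r := by linarith
  rcases B.eq_empty_or_nonempty with hB | ⟨z, hz⟩
  · rw [hB, de3_empty (fun u : V => if u ∈ nb G v then (1 : ℝ) else 0) (fun u => (u, col))
      (fun _ => 1 / r ^ 4)]
    have h1 : (∑ u : V, (if u ∈ nb G v then (1 : ℝ) else 0) * (1 / r ^ 4)) =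
        ((nb G v).card : ℝ) * (1 / r ^ 4) := by
      rw [← Finset.sum_mul, Finset.sum_boole]
      have h3 : (univ.filter fun u => u ∈ nb G v) = nb G v := by
        ext u
        simp
      rw [h3]
    rw [h1]
    have h2 : ((nb G v).card : ℝ) ≤ r ^ 3 := by
      rw [hD]
      exact_mod_cast hdeg v
    calc ((nb G v).card : ℝ) * (1 / r ^ 4) ≤ r ^ 3 * (1 / r ^ 4) :=
          mul_le_mul_of_nonneg_right h2 (by positivity)
      _ = 1 / r := by field_simp
      _ ≤ 1 := by
        rw [div_le_one hr0]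
        exact hr
  · refine (de3_ne (fun u : V => if u ∈ nb G v then (1 : ℝ) else 0) (fun u => (u, col))
      (fun _ => 1 / r ^ 4) B z hz z.1 (fun t ht => ?_) ?_).trans ?_
    · rw [← ht]
    · split_ifs
      · exact zero_le_one
      · exact le_refl _
    · split_ifs
      · exact le_refl _
      · exact zero_le_one

/-- the value at `B = ∅` -/
theorem N_empty {V : Type} [Fintype V] (G : SimpleGraph V) (k : ℕ) (v : V) (col : Fin k)
    (om : V × Fin k → ℝ) :
    tf (fun u : V => if u ∈ nb G v then (1 : ℝ) else 0) (fun u => {(u, col)}) om ∅ =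
      ∑ u ∈ nb G v, om (u, col) := by
  rw [de3_empty (fun u : V => if u ∈ nb G v then (1 : ℝ) else 0) (fun u => (u, col)) om]
  have h1 : ∀ u : V, (if u ∈ nb G v then (1 : ℝ) else 0) * om (u, col) =
      if u ∈ nb G v then om (u, col) else 0 := by
    intro u
    rw [ite_mul, one_mul, zero_mul]
  rw [Finset.sum_congr rfl fun u _ => h1 u, ← Finset.sum_filter]
  refine Finset.sum_congr ?_ fun _ _ => rfl
  ext u
  simp

end Pool.Agent.Lib.H93B
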