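import Pool.Agent.Lib.H93B.Defs

/-!
# H93B, DF: the family of functionals (`PROOF.md`, section 7)

P6 (paths with 6 vertices, all sites, alternately coloured), E2 (walks `u w1 u2 w2 u3 w3`, sites the
`wi`, one colour), E5 (walks `w1 u w2 u3 w3`, sites the `wi`), degrees.
-/

set_option autoImplicit false

open Finset
open scoped Classical

namespace Pool.Agent.Lib.H93B

section

variable {V : Type} [Fintype V] (G : SimpleGraph V) {k : ℕ}

/-- walks -/
def IsWalk {n : ℕ} (v : Fin n → V) : Prop := ∀ i j : Fin n, (j : ℕ) = i + 1 → G.Adj (v i) (v j)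

/-- entries at different positions of the same parity are different -/
def Alt {n : ℕ} (v : Fin n → V) : Prop := ∀ i j : Fin n, i ≠ j → (i : ℕ) % 2 = (j : ℕ) % 2 → v i ≠ v j

/-- the sites of a P6 token -/
def siteP (t : (Fin 6 → V) × (Fin k × Fin k)) (i : Fin 6) : V × Fin k :=
  (t.1 i, if (i : ℕ) % 2 = 0 then t.2.1 else t.2.2)

/-- weights of the P6 tokens for the test set `co G p.1 p.2` -/
noncomputable def wP (p : V × V) (t : (Fin 6 → V) × (Fin k × Fin k)) : ℝ :=
  if t.1 0 ∈ co G p.1 p.2 ∧ IsWalk G t.1 ∧ Alt t.1 ∧ t.2.1 ≠ t.2.2 then 1 else 0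

noncomputable def ρP (t : (Fin 6 → V) × (Fin k × Fin k)) : Finset (V × Fin k) :=
  univ.image (siteP t)

/-- the sites of a one-coloured token with `n` vertices -/
def siteE {n : ℕ} (t : (Fin n → V) × Fin k) (i : Fin n) : V × Fin k := (t.1 i, t.2)

/-- walks with 6 vertices which start in `u`; sites at the odd positions -/
noncomputable def wE (u : V) (t : (Fin 6 → V) × Fin k) : ℝ :=
  if t.1 0 = u ∧ IsWalk G t.1 ∧ Alt t.1 then 1 else 0

noncomputable def ρE (t : (Fin 6 → V) × Fin k) : Finset (V × Fin k) :=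
  (univ.filter fun i : Fin 6 => (i : ℕ) % 2 = 1).image (siteE t)

/-- walks with 5 vertices with `u` at position 1; sites at the even positions -/
noncomputable def wQ (u : V) (t : (Fin 5 → V) × Fin k) : ℝ :=
  if t.1 1 = u ∧ IsWalk G t.1 ∧ Alt t.1 then 1 else 0

noncomputable def ρQ (t : (Fin 5 → V) × Fin k) : Finset (V × Fin k) :=
  (univ.filter fun i : Fin 5 => (i : ℕ) % 2 = 0).image (siteE t)

end

/-- the indices -/
abbrev FIdx (V : Type) [Fintype V] (G : SimpleGraph V) (k : ℕ) (h : ℝ) : Type :=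
  {p : V × V // p.1 ≠ p.2 ∧ h ≤ cd G p.1 p.2} ⊕ (V ⊕ (V ⊕ (V × Fin k)))

/-- token types -/
abbrev FTok (V : Type) [Fintype V] (G : SimpleGraph V) (k : ℕ) (h : ℝ) : FIdx V G k h → Type
  | Sum.inl _ => (Fin 6 → V) × (Fin k × Fin k)
  | Sum.inr (Sum.inl _) => (Fin 6 → V) × Fin k
  | Sum.inr (Sum.inr (Sum.inl _)) => (Fin 5 → V) × Fin k
  | Sum.inr (Sum.inr (Sum.inr _)) => V

noncomputable instance instFTok (V : Type) [Fintype V] (G : SimpleGraph V) (k : ℕ) (h : ℝ)
    (f : FIdx V G k h) : Fintype (FTok V G k h f) := by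
  rcases f with f | f | f | f <;> (unfold FTok; infer_instance)

/-- the family -/
noncomputable def fam (V : Type) [Fintype V] (G : SimpleGraph V) (k : ℕ) (ρ0 r : ℝ) : Fam V k where
  Φ := FIdx V G k (ρ0 * r ^ 2)
  T := FTok V G k (ρ0 * r ^ 2)
  w := fun f => match f with
    | Sum.inl p => fun t => wP G p.1 t
    | Sum.inr (Sum.inl u) => fun t => wE G u t
    | Sum.inr (Sum.inr (Sum.inl u)) => fun t => wQ G u t
    | Sum.inr (Sum.inr (Sum.inr p)) => fun u => if u ∈ nb G p.1 then 1 else 0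
  ρ := fun f => match f with
    | Sum.inl _ => fun t => ρP t
    | Sum.inr (Sum.inl _) => fun t => ρE t
    | Sum.inr (Sum.inr (Sum.inl _)) => fun t => ρQ t
    | Sum.inr (Sum.inr (Sum.inr p)) => fun u => {(u, p.2)}
  β := fun f => match f with
    | Sum.inl p => 46656 * cd G p.1.1 p.1.2 / (ρ0 * r)
    | Sum.inr (Sum.inl _) => 27 * r ^ 7
    | Sum.inr (Sum.inr (Sum.inl _)) => 27 * r ^ 4
    | Sum.inr (Sum.inr (Sum.inr _)) => 1
  anc := fun f => match f with
    | Sum.inl p => p.1.1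
    | Sum.inr (Sum.inl u) => u
    | Sum.inr (Sum.inr (Sum.inl u)) => u
    | Sum.inr (Sum.inr (Sum.inr p)) => p.1

end Pool.Agent.Lib.H93B
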