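import Pool.Agent.Lib.H93B.DP1
import Pool.Agent.Lib.H93B.DW2

/-!
# H93B, DP2: the P6 functional at the start

See `PROOF.md`.
-/

set_option autoImplicit false

open Finset
open scoped Classical

namespace Pool.Agent.Lib.H93B

theorem dp2_w0 {V : Type} [Fintype V] (G : SimpleGraph V) {k : ℕ} (p : V × V) (t : (Fin 6 → V) × (Fin k × Fin k)) :
    0 ≤ wP G p t := by
  unfold wP
  split_ifs <;> norm_num

theorem dp2_w1 {V : Type} [Fintype V] (G : SimpleGraph V) {k : ℕ} (p : V × V) (t : (Fin 6 → V) × (Fin k × Fin k)) :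
    wP G p t ≤ 1 := by
  unfold wP
  split_ifs <;> norm_num

theorem dp2_ne {V : Type} [Fintype V] {G : SimpleGraph V} {k : ℕ} {p : V × V} {t : (Fin 6 → V) × (Fin k × Fin k)}
    (h : wP G p t ≠ 0) : t.1 0 ∈ co G p.1 p.2 ∧ IsWalk G t.1 ∧ Alt t.1 ∧ t.2.1 ≠ t.2.2 := by
  by_contra hh
  exact h (by rw [wP, if_neg hh])

theorem dp2_inj {V : Type} [Fintype V] {G : SimpleGraph V} {k : ℕ} {p : V × V} {t : (Fin 6 → V) × (Fin k × Fin k)}
    (h : wP G p t ≠ 0) : Set.InjOn (siteP t) (univ : Finset (Fin 6)) := by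
  obtain ⟨-, -, h3, h4⟩ := dp2_ne h
  intro i _ j _ hij
  by_contra hne
  simp only [siteP, Prod.mk.injEq] at hij
  obtain ⟨e1, e2⟩ := hij
  by_cases hp : (i : ℕ) % 2 = (j : ℕ) % 2
  · exact h3 i j hne hp e1
  · by_cases hi : (i : ℕ) % 2 = 0
    · rw [if_pos hi, if_neg (by omega)] at e2
      exact h4 e2
    · rw [if_neg hi, if_pos (by omega)] at e2
      exact h4 e2.symm

theorem dp2_card {V : Type} [Fintype V] {G : SimpleGraph V} {k : ℕ} {p : V × V} {t : (Fin 6 → V) × (Fin k × Fin k)}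
    (h : wP G p t ≠ 0) : (ρP t).card = 6 := by
  unfold ρP
  rw [card_image_of_injOn (dp2_inj h), card_univ, Fintype.card_fin]

theorem dp2_empty {X T : Type} [Fintype T] (w : T → ℝ) (ρ : T → Finset X) (p : ℝ) :
    tf w ρ (fun _ => p) ∅ = ∑ t, w t * p ^ (ρ t).card := by
  unfold tf
  refine sum_congr rfl fun t _ => ?_
  rw [if_pos (empty_subset _), sdiff_empty, prod_const]

theorem dp2_image {X I : Type} (i1 i2 : DecidableEq X) (S : Finset I) (f : I → X) : @Finset.image I X i1 f S = @Finset.image I X i2 f S := by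
  rw [Subsingleton.elim i1 i2]

theorem dp2_filter {T : Type} [Fintype T] {P Q : T → Prop} (iP : DecidablePred P) (iQ : DecidablePred Q) (h : ∀ t, P t → Q t) :
    (@Finset.filter T P iP univ).card ≤ (@Finset.filter T Q iQ univ).card := by
  refine card_le_card fun t ht => ?_
  rw [mem_filter] at ht ⊢
  exact ⟨ht.1, h t ht.2⟩

theorem dp2_count {V : Type} [Fintype V] (G : SimpleGraph V) (D k : ℕ) (hdeg : ∀ v, (nb G v).card ≤ D) (p : V × V) :
    (univ.filter fun t : (Fin 6 → V) × (Fin k × Fin k) => wP G p t ≠ 0).card ≤ (co G p.1 p.2).card * D ^ 5 * (k * k) := by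
  have hsub : (univ.filter fun t : (Fin 6 → V) × (Fin k × Fin k) => wP G p t ≠ 0) ⊆
      ((co G p.1 p.2).biUnion fun x => univ.filter fun v : Fin 6 → V => IsWalk G v ∧ ∀ i ∈ ({0} : Finset (Fin 6)), v i = x) ×ˢ
        (univ : Finset (Fin k × Fin k)) := by
    intro t ht
    obtain ⟨h1, h2, -, -⟩ := dp2_ne (mem_filter.1 ht).2
    rw [mem_product]
    refine ⟨?_, mem_univ _⟩
    rw [mem_biUnion]
    refine ⟨t.1 0, h1, ?_⟩
    rw [mem_filter]
    refine ⟨mem_univ _, h2, fun i hi => ?_⟩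
    rw [mem_singleton.1 hi]
  refine (card_le_card hsub).trans ?_
  rw [card_product, card_univ, Fintype.card_prod, Fintype.card_fin]
  refine Nat.mul_le_mul_right _ ?_
  refine card_biUnion_le_card_mul _ _ _ fun x _ => ?_
  have h := walk_count G D hdeg 6 {0} (singleton_nonempty _) (fun _ => x)
  rw [card_singleton] at h
  exact h

/-- `B = ∅`: the number of tokens is at most `|co| * D^5 * k^2` (`walk_count` with `P = {0}` for every
first vertex in `co G p.1 p.2`), all supports have 6 elements (`Alt`, `a ≠ b`), so `tf ∅ ≤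
cd * r^15 * r^8 / r^24 = cd / r`. `B ≠ ∅`, `|B| ≤ 6`: `tf_le_of_sites` (`S = univ`, `site = siteP`,
`Nb` from `P_count`): `tf B ≤ 6^|B| * r^(4 [|B| ≤ 3]) * r^(3 (6 - |B|)) / r^(4 (6 - |B|)) ≤ 6^6 * r`
(the exponents of `r` are `-1, 0, 1, -2, -1, 0` for `|B| = 1, .., 6`), and `cd ≥ ρ0 r^2`, `ρ0 ≤ 1`.
`|B| > 6`: `tf B = 0` (no token contains `B`). -/
theorem P_start {V : Type} [Fintype V] (G : SimpleGraph V) (D k : ℕ) (r ρ0 : ℝ)
    (hdeg : ∀ v, (nb G v).card ≤ D) (hr : 1 ≤ r) (hD : r ^ 3 = D) (hk : (k : ℝ) ≤ r ^ 4)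
    (h0 : 0 < ρ0) (h1 : ρ0 ≤ 1) (p : V × V) (hp : ρ0 * r ^ 2 ≤ cd G p.1 p.2)
    (B : Finset (V × Fin k)) :
    tf (wP G p) ρP (fun _ => 1 / r ^ 4) B ≤ 46656 * cd G p.1 p.2 / (ρ0 * r) := by
  have hr0 : 0 < r := by linarith
  have hcd : 0 ≤ cd G p.1 p.2 := Nat.cast_nonneg _
  rcases B.eq_empty_or_nonempty with rfl | hBn
  · -- `B = ∅`
    have h2 : tf (wP G p) ρP (fun _ => 1 / r ^ 4) (∅ : Finset (V × Fin k)) ≤
        ((univ.filter fun t : (Fin 6 → V) × (Fin k × Fin k) => wP G p t ≠ 0).card : ℝ) * (1 / r ^ 4) ^ 6 := by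
      rw [dp2_empty, ← nsmul_eq_mul, ← sum_const, sum_filter]
      refine sum_le_sum fun t _ => ?_
      by_cases ht : wP G p t ≠ 0
      · rw [if_pos ht, dp2_card ht]
        have h3 := dp2_w1 G p t
        have h4 : (0 : ℝ) ≤ (1 / r ^ 4) ^ 6 := by positivity
        calc wP G p t * (1 / r ^ 4) ^ 6 ≤ 1 * (1 / r ^ 4) ^ 6 := mul_le_mul_of_nonneg_right h3 h4
          _ = _ := one_mul _
      · rw [if_neg ht]
        push Not at ht
        rw [ht, zero_mul]
    have h3 : ((univ.filter fun t : (Fin 6 → V) × (Fin k × Fin k) => wP G p t ≠ 0).card : ℝ) ≤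
        cd G p.1 p.2 * (r ^ 3) ^ 5 * (r ^ 4 * r ^ 4) := by
      have h4 : ((univ.filter fun t : (Fin 6 → V) × (Fin k × Fin k) => wP G p t ≠ 0).card : ℝ) ≤
          (((co G p.1 p.2).card * D ^ 5 * (k * k) : ℕ) : ℝ) := by
        exact_mod_cast dp2_count G D k hdeg p
      refine h4.trans ?_
      push_cast
      rw [← hD]
      refine mul_le_mul (le_refl _) (mul_le_mul hk hk (Nat.cast_nonneg _) (by positivity)) (by positivity) (by positivity)
    calc tf (wP G p) ρP (fun _ => 1 / r ^ 4) (∅ : Finset (V × Fin k)) ≤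
        cd G p.1 p.2 * (r ^ 3) ^ 5 * (r ^ 4 * r ^ 4) * (1 / r ^ 4) ^ 6 := h2.trans (mul_le_mul_of_nonneg_right h3 (by positivity))
      _ = cd G p.1 p.2 / r := by
        field_simp
      _ ≤ 46656 * cd G p.1 p.2 / (ρ0 * r) := by
        rw [div_le_div_iff₀ hr0 (by positivity)]
        have h5 : cd G p.1 p.2 * (ρ0 * r) ≤ cd G p.1 p.2 * (1 * r) :=
          mul_le_mul_of_nonneg_left (mul_le_mul_of_nonneg_right h1 hr0.le) hcd
        have h6 : 0 ≤ cd G p.1 p.2 * r := by positivity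
        nlinarith
  · by_cases hB6 : B.card ≤ 6
    · have : Nonempty (Fin 6) := ⟨0⟩
      have hNb : (0 : ℝ) ≤ (((if B.card ≤ 3 then k else 1) * D ^ (6 - B.card) : ℕ) : ℝ) := Nat.cast_nonneg _
      have h2 := tf_le_of_sites (wP G p) ρP siteP (univ : Finset (Fin 6)) (dp2_w0 G p) (dp2_w1 G p)
        (fun t => dp2_image _ _ _ _)
        (fun t ht => dp2_inj ht) (1 / r ^ 4) (by positivity) B _ hNb
        (fun g _ hg => Nat.cast_le.2 ((dp2_filter _ _ fun t ht => ht).trans (P_count G D k hdeg p B hBn g hg)))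
      refine h2.trans ?_
      rw [card_univ, Fintype.card_fin]
      have h3 : (((if B.card ≤ 3 then k else 1) * D ^ (6 - B.card) : ℕ) : ℝ) ≤
          (if B.card ≤ 3 then r ^ 4 else 1) * (r ^ 3) ^ (6 - B.card) := by
        push_cast
        rw [← hD]
        refine mul_le_mul_of_nonneg_right ?_ (by positivity)
        split_ifs
        · exact hk
        · exact le_refl _
      have h4 : (((6 : ℕ) : ℝ) ^ B.card * (((if B.card ≤ 3 then k else 1) * D ^ (6 - B.card) : ℕ) : ℝ)) * (1 / r ^ 4) ^ (6 - B.card) ≤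
          (46656 * ((if B.card ≤ 3 then r ^ 4 else 1) * (r ^ 3) ^ (6 - B.card))) * (1 / r ^ 4) ^ (6 - B.card) := by
        refine mul_le_mul_of_nonneg_right (mul_le_mul ?_ h3 hNb (by norm_num)) (by positivity)
        calc ((6 : ℕ) : ℝ) ^ B.card ≤ ((6 : ℕ) : ℝ) ^ 6 := pow_le_pow_right₀ (by norm_num) hB6
          _ = 46656 := by norm_num
      refine h4.trans ?_
      have h5 : (if B.card ≤ 3 then r ^ 4 else 1) * (r ^ 3) ^ (6 - B.card) * (1 / r ^ 4) ^ (6 - B.card) ≤ r := by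
        have hb1 : 1 ≤ B.card := card_pos.2 hBn
        generalize B.card = b at hB6 hb1
        have e : ∀ m : ℕ, (r ^ 3) ^ m * (1 / r ^ 4) ^ m = 1 / r ^ m := by
          intro m
          have e' : r ^ 3 * (1 / r ^ 4) = 1 / r := by field_simp
          rw [← mul_pow, e', one_div_pow]
        rw [mul_assoc, e]
        by_cases hb : b ≤ 3
        · rw [if_pos hb]
          have h6 : r ^ 3 ≤ r ^ (6 - b) := pow_le_pow_right₀ hr (by omega)
          rw [mul_one_div, div_le_iff₀ (by positivity)]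
          calc r ^ 4 = r * r ^ 3 := by ring
            _ ≤ r * r ^ (6 - b) := mul_le_mul_of_nonneg_left h6 hr0.le
        · rw [if_neg hb, one_mul]
          calc 1 / r ^ (6 - b) ≤ 1 := by
                rw [div_le_one (by positivity)]
                exact one_le_pow₀ hr
            _ ≤ r := hr
      calc (46656 * ((if B.card ≤ 3 then r ^ 4 else 1) * (r ^ 3) ^ (6 - B.card))) * (1 / r ^ 4) ^ (6 - B.card) =
          46656 * ((if B.card ≤ 3 then r ^ 4 else 1) * (r ^ 3) ^ (6 - B.card) * (1 / r ^ 4) ^ (6 - B.card)) := by ring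
        _ ≤ 46656 * r := mul_le_mul_of_nonneg_left h5 (by norm_num)
        _ ≤ 46656 * cd G p.1 p.2 / (ρ0 * r) := by
          rw [le_div_iff₀ (by positivity)]
          nlinarith
    · have h2 : tf (wP G p) ρP (fun _ => 1 / r ^ 4) B = 0 := by
        unfold tf
        refine sum_eq_zero fun t _ => ?_
        by_cases hB : B ⊆ ρP t
        · exfalso
          have h3 := card_le_card hB
          have h4 : (ρP t).card ≤ 6 := by
            unfold ρP
            exact card_image_le.trans (by rw [card_univ, Fintype.card_fin])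
          omega
        · rw [if_neg hB]
      rw [h2]
      positivity

end Pool.Agent.Lib.H93B
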