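import Pool.Agent.Lib.H93B.DW3
import Pool.Agent.Lib.H93B.DP2
import Pool.Agent.Lib.H93B.DE1
import Pool.Agent.Lib.H93B.DE2
import Pool.Agent.Lib.H93B.DE3

/-!
# H93B, DF1: the family is admissible

See `PROOF.md`.
-/

set_option autoImplicit false

open Finset
open scoped Classical

namespace Pool.Agent.Lib.H93B

/-- code of an index -/
def df1_enc {V : Type} [Fintype V] {G : SimpleGraph V} {k : ℕ} {h : ℝ} :
    FIdx V G k h → V ⊕ (Unit ⊕ (Unit ⊕ Fin k))
  | Sum.inl p => Sum.inl p.1.2
  | Sum.inr (Sum.inl _) => Sum.inr (Sum.inl ())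
  | Sum.inr (Sum.inr (Sum.inl _)) => Sum.inr (Sum.inr (Sum.inl ()))
  | Sum.inr (Sum.inr (Sum.inr p)) => Sum.inr (Sum.inr (Sum.inr p.2))

/-- vertices with positive codegree with `v` are neighbours of neighbours -/
theorem df1_mem {V : Type} [Fintype V] (G : SimpleGraph V) (v w : V) (h : 0 < cd G v w) :
    w ∈ (nb G v).biUnion (nb G) := by
  unfold cd at h
  have h1 : 0 < (co G v w).card := by exact_mod_cast h
  obtain ⟨x, hx⟩ := Finset.card_pos.1 h1
  obtain ⟨h2, h3⟩ := mem_co.1 hx
  exact Finset.mem_biUnion.2 ⟨x, mem_nb.2 h2, mem_nb.2 h3.symm⟩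

/-- Few indices have the anchor `v`: pairs `(v, w')` with `cd G v w' ≥ ρ0 r^2 > 0`, so `w'` is a
neighbour of a neighbour of `v`: at most `D^2 = r^6`; twice one; `k ≤ r^4`. Total
`r^6 + 2 + r^4 ≤ r^20` for `r ≥ 2`. -/
theorem fam_anc {V : Type} [Fintype V] (G : SimpleGraph V) (D k : ℕ) (r ρ0 : ℝ)
    (hdeg : ∀ v, (nb G v).card ≤ D) (hr : 2 ≤ r) (hD : r ^ 3 = D) (hk : (k : ℝ) ≤ r ^ 4)
    (h0 : 0 < ρ0) (v : V) :
    ((univ.filter fun f => (fam V G k ρ0 r).anc f = v).card : ℝ) ≤ r ^ 20 := by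
  have h1 : (univ.filter fun f => (fam V G k ρ0 r).anc f = v).card ≤
      (((nb G v).biUnion (nb G)).disjSum (univ : Finset (Unit ⊕ (Unit ⊕ Fin k)))).card := by
    refine Finset.card_le_card_of_injOn
      (fun f : FIdx V G k (ρ0 * r ^ 2) => df1_enc f) ?_ ?_
    · intro f hf
      have hf' : (fam V G k ρ0 r).anc f = v := (Finset.mem_filter.1 (Finset.mem_coe.1 hf)).2
      rcases f with p | u | u | p
      · have hf2 : p.1.1 = v := hf'
        refine Finset.mem_coe.2 (Finset.inl_mem_disjSum.2 ?_)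
        rw [← hf2]
        exact df1_mem G _ _ (lt_of_lt_of_le (by positivity) p.2.2)
      · exact Finset.mem_coe.2 (Finset.inr_mem_disjSum.2 (mem_univ _))
      · exact Finset.mem_coe.2 (Finset.inr_mem_disjSum.2 (mem_univ _))
      · exact Finset.mem_coe.2 (Finset.inr_mem_disjSum.2 (mem_univ _))
    · intro f hf g hg hfg
      have hf' : (fam V G k ρ0 r).anc f = v := (Finset.mem_filter.1 (Finset.mem_coe.1 hf)).2
      have hg' : (fam V G k ρ0 r).anc g = v := (Finset.mem_filter.1 (Finset.mem_coe.1 hg)).2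
      rcases f with p | u | u | p <;> rcases g with p' | u' | u' | p'
      · have a1 : p.1.1 = v := hf'
        have a2 : p'.1.1 = v := hg'
        have a3 : p.1.2 = p'.1.2 := Sum.inl.inj hfg
        congr 1
        exact Subtype.ext (Prod.ext (a1.trans a2.symm) a3)
      · exact absurd hfg (by simp [df1_enc])
      · exact absurd hfg (by simp [df1_enc])
      · exact absurd hfg (by simp [df1_enc])
      · exact absurd hfg (by simp [df1_enc])
      · have a1 : u = v := hf'
        have a2 : u' = v := hg'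
        rw [a1, a2]
      · exact absurd hfg (by simp [df1_enc])
      · exact absurd hfg (by simp [df1_enc])
      · exact absurd hfg (by simp [df1_enc])
      · exact absurd hfg (by simp [df1_enc])
      · have a1 : u = v := hf'
        have a2 : u' = v := hg'
        rw [a1, a2]
      · exact absurd hfg (by simp [df1_enc])
      · exact absurd hfg (by simp [df1_enc])
      · exact absurd hfg (by simp [df1_enc])
      · exact absurd hfg (by simp [df1_enc])
      · have a1 : p.1 = v := hf'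
        have a2 : p'.1 = v := hg'
        have a3 : p.2 = p'.2 := Sum.inr.inj (Sum.inr.inj (Sum.inr.inj hfg))
        have a4 : p = p' := Prod.ext (a1.trans a2.symm) a3
        rw [a4]
  have h2 : (((nb G v).biUnion (nb G)).disjSum (univ : Finset (Unit ⊕ (Unit ⊕ Fin k)))).card ≤
      D * D + (1 + (1 + k)) := by
    rw [Finset.card_disjSum, Finset.card_univ, Fintype.card_sum, Fintype.card_sum,
      Fintype.card_unit, Fintype.card_fin]
    refine Nat.add_le_add_right ?_ _
    exact (Finset.card_biUnion_le_card_mul _ _ D fun u _ => hdeg u).trans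
      (Nat.mul_le_mul_right _ (hdeg v))
  have h3 : ((univ.filter fun f => (fam V G k ρ0 r).anc f = v).card : ℝ) ≤
      (D : ℝ) * D + (1 + (1 + k)) := by
    exact_mod_cast h1.trans h2
  rw [← hD] at h3
  have h4 : (1 : ℝ) ≤ r ^ 2 := by nlinarith
  have h5 : r ^ 4 ≤ r ^ 6 := by
    have : 0 ≤ r ^ 4 := by positivity
    nlinarith
  have h6 : (2 : ℝ) ≤ r ^ 6 := by
    have : r ^ 6 = r ^ 2 * (r ^ 2 * r ^ 2) := by ring
    have h7 : (4 : ℝ) ≤ r ^ 2 := by nlinarith
    nlinarith [mul_le_mul h7 h7 (by norm_num) (by positivity)]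
  have h8 : (3 : ℝ) ≤ r ^ 14 := by
    have h9 : (2 : ℝ) ^ 14 ≤ r ^ 14 := pow_le_pow_left₀ (by norm_num) hr 14
    linarith [show (3 : ℝ) ≤ 2 ^ 14 by norm_num]
  have h10 : 3 * r ^ 6 ≤ r ^ 20 := by
    calc 3 * r ^ 6 ≤ r ^ 14 * r ^ 6 := mul_le_mul_of_nonneg_right h8 (by positivity)
      _ = r ^ 20 := by ring
  have h11 : r ^ 3 * r ^ 3 = r ^ 6 := by ring
  rw [h11] at h3
  linarith

/-- The elements of the supports are near the anchor: for P6 the first vertex is a common neighbour of
`p.1`, `p.2` and the others are within distance 5 of it (`walk_ball`, `ball_triangle`,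
`ball_mono`): distance at most 6. The others similarly. -/
theorem fam_near {V : Type} [Fintype V] (G : SimpleGraph V) (k : ℕ) (r ρ0 : ℝ)
    (f : (fam V G k ρ0 r).Φ) (τ : (fam V G k ρ0 r).T f) (hτ : (fam V G k ρ0 r).w f τ ≠ 0)
    (x : V × Fin k) (hx : x ∈ (fam V G k ρ0 r).ρ f τ) : x.1 ∈ ball G 10 ((fam V G k ρ0 r).anc f) := by
  rcases f with p | u | u | p
  · have h1 : wP G p.1 τ ≠ 0 := hτ
    have h2 : x ∈ ρP τ := hx
    have h3 : τ.1 0 ∈ co G p.1.1 p.1.2 ∧ IsWalk G τ.1 ∧ Alt τ.1 ∧ τ.2.1 ≠ τ.2.2 := by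
      by_contra hc
      exact h1 (if_neg hc)
    obtain ⟨i, -, hi⟩ := Finset.mem_image.1 h2
    have h4 : x.1 = τ.1 i := by rw [← hi]; rfl
    have h5 : τ.1 0 ∈ ball G 1 p.1.1 := mem_ball_one_of_adj (mem_co.1 h3.1).1
    have h6 : τ.1 i ∈ ball G 5 (τ.1 0) := walk_ball _ h3.2.1 0 i 5 (by simp) (by
      have := i.2
      simp only [Fin.val_zero]
      omega)
    rw [h4]
    exact ball_mono (by norm_num) _ (ball_triangle h5 h6)
  · have h1 : wE G u τ ≠ 0 := hτ
    have h2 : x ∈ ρE τ := hx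
    have h3 : τ.1 0 = u ∧ IsWalk G τ.1 ∧ Alt τ.1 := by
      by_contra hc
      exact h1 (if_neg hc)
    obtain ⟨i, -, hi⟩ := Finset.mem_image.1 h2
    have h4 : x.1 = τ.1 i := by rw [← hi]; rfl
    have h6 : τ.1 i ∈ ball G 5 (τ.1 0) := walk_ball _ h3.2.1 0 i 5 (by simp) (by
      have := i.2
      simp only [Fin.val_zero]
      omega)
    rw [h3.1] at h6
    rw [h4]
    exact ball_mono (by norm_num) _ h6
  · have h1 : wQ G u τ ≠ 0 := hτ
    have h2 : x ∈ ρQ τ := hx
    have h3 : τ.1 1 = u ∧ IsWalk G τ.1 ∧ Alt τ.1 := by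
      by_contra hc
      exact h1 (if_neg hc)
    obtain ⟨i, -, hi⟩ := Finset.mem_image.1 h2
    have h4 : x.1 = τ.1 i := by rw [← hi]; rfl
    have h6 : τ.1 i ∈ ball G 5 (τ.1 1) := walk_ball _ h3.2.1 1 i 5 (by simp) (by
      have := i.2
      omega)
    rw [h3.1] at h6
    rw [h4]
    exact ball_mono (by norm_num) _ h6
  · have h1 : (if τ ∈ nb G p.1 then (1 : ℝ) else 0) ≠ 0 := hτ
    have h2 : x = (τ, p.2) := Finset.mem_singleton.1 hx
    have h3 : τ ∈ nb G p.1 := by
      by_contra hc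
      exact h1 (if_neg hc)
    rw [h2]
    exact ball_mono (by norm_num) _ (mem_ball_one_of_adj (mem_nb.1 h3))

/-- THE FAMILY IS ADMISSIBLE: all fields by cases on the index; `start` is `P_start`, `E_start`,
`Q_start`, `N_start`; `ctrl` is `N_empty` (index `Sum.inr (Sum.inr (Sum.inr (v, col)))`, `B = ∅`,
`β = 1`); `card_le`: images of sets with at most 6 elements; `β_pos`: `cd ≥ ρ0 r^2 > 0`. -/
theorem fam_hyp {V : Type} [Fintype V] (G : SimpleGraph V) (D k : ℕ) (r ρ0 : ℝ)
    (hdeg : ∀ v, (nb G v).card ≤ D) (hr : 2 ≤ r) (hD : r ^ 3 = D) (hk : (k : ℝ) ≤ r ^ 4)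
    (h0 : 0 < ρ0) (h1 : ρ0 ≤ 1) : FamHyp r G (fam V G k ρ0 r) := by
  have hr1 : 1 ≤ r := by linarith
  have hr0 : 0 < r := by linarith
  refine ⟨?_, ?_, fun f t h x hx => fam_near G k r ρ0 f t h x hx, ?_,
    fun v => fam_anc G D k r ρ0 hdeg hr hD hk h0 v, ?_, ?_⟩
  · intro f t
    rcases f with p | u | u | p
    · show 0 ≤ wP G p.1 t
      unfold wP
      split_ifs
      · exact zero_le_one
      · exact le_refl _
    · show 0 ≤ wE G u t
      unfold wE
      split_ifs
      · exact zero_le_one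
      · exact le_refl _
    · show 0 ≤ wQ G u t
      unfold wQ
      split_ifs
      · exact zero_le_one
      · exact le_refl _
    · show 0 ≤ if t ∈ nb G p.1 then (1 : ℝ) else 0
      split_ifs
      · exact zero_le_one
      · exact le_refl _
  · intro f t
    rcases f with p | u | u | p
    · show (ρP t).card ≤ 6
      unfold ρP
      exact Finset.card_image_le.trans (by simp)
    · show (ρE t).card ≤ 6
      unfold ρE
      exact Finset.card_image_le.trans ((Finset.card_filter_le _ _).trans (by simp))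
    · show (ρQ t).card ≤ 6
      unfold ρQ
      exact Finset.card_image_le.trans ((Finset.card_filter_le _ _).trans (by simp))
    · have h2 : ∀ z : V × Fin k, ({z} : Finset (V × Fin k)).card ≤ 6 := by
        intro z
        rw [Finset.card_singleton]
        norm_num
      exact h2 _
  · intro f
    rcases f with p | u | u | p
    · show 0 < 46656 * cd G p.1.1 p.1.2 / (ρ0 * r)
      have h2 : 0 < cd G p.1.1 p.1.2 := lt_of_lt_of_le (by positivity) p.2.2
      positivity
    · show 0 < 27 * r ^ 7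
      positivity
    · show 0 < 27 * r ^ 4
      positivity
    · show (0 : ℝ) < 1
      exact zero_lt_one
  · intro f B
    rcases f with p | u | u | p
    · exact P_start G D k r ρ0 hdeg hr1 hD hk h0 h1 p.1 p.2.2 B
    · exact E_start G D k r hdeg hr1 hD hk u B
    · exact Q_start G D k r hdeg hr1 hD hk u B
    · exact N_start G D k r hdeg hr1 hD p.1 p.2 B
  · intro om L hom h v col
    have h2 := h (Sum.inr (Sum.inr (Sum.inr (v, col)))) ∅
    have h3 : tf (fun u : V => if u ∈ nb G v then (1 : ℝ) else 0)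
        (fun u => ({(u, col)} : Finset (V × Fin k))) om ∅ ≤ L * 1 := h2
    rw [N_empty G k v col om, mul_one] at h3
    exact h3

end Pool.Agent.Lib.H93B
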