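import Pool.Agent.Lib.H93B.Defs

/-!
# H93B, DM1: the numbers r, y, k

See `PROOF.md`.
-/

set_option autoImplicit false

open Finset
open scoped Classical

namespace Pool.Agent.Lib.H93B

/-- `r = D^(1/3)`, `y = r^(1/m1)`, `k = ⌊ε D^(4/3)/2⌋`. `B (y^R)^2 ≤ y^m1 = r` as soon as
`y^(m1 - 2R) ≥ B`, `m1 - 2 R ≥ 1`. -/
theorem numbers (ε r0 B : ℝ) (m1 R : ℕ) (hε : 0 < ε) (hm : 2 * R + 1 ≤ m1) :
    ∃ D0 : ℕ, ∀ D : ℕ, D0 ≤ D → ∃ r y : ℝ, r ^ 3 = D ∧ y ^ m1 = r ∧ 1 ≤ y ∧ 2 ≤ r ∧ r0 ≤ r ∧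
      ((⌊ε * (D : ℝ) ^ (4 / 3 : ℝ) / 2⌋₊ : ℕ) : ℝ) ≤ ε / 2 * r ^ 4 ∧
      2 / 5 * ε * r ^ 4 ≤ ((⌊ε * (D : ℝ) ^ (4 / 3 : ℝ) / 2⌋₊ : ℕ) : ℝ) ∧
      B * (y ^ R) ^ 2 ≤ r := by
  set T : ℝ := max (max 2 r0) (max (10 / ε) ((max B 1) ^ m1)) with hT
  have hT2 : 2 ≤ T := (le_max_left _ _).trans (le_max_left _ _)
  have hTr : r0 ≤ T := (le_max_right _ _).trans (le_max_left _ _)
  have hTε : 10 / ε ≤ T := (le_max_left _ _).trans (le_max_right _ _)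
  have hTB : (max B 1) ^ m1 ≤ T := (le_max_right _ _).trans (le_max_right _ _)
  have hT0 : 0 ≤ T := by linarith
  refine ⟨⌈T ^ 3⌉₊, fun D hD => ?_⟩
  have hD1 : T ^ 3 ≤ (D : ℝ) := (Nat.le_ceil _).trans (by exact_mod_cast hD)
  have hD0 : (0 : ℝ) ≤ D := Nat.cast_nonneg D
  have hm0 : m1 ≠ 0 := by omega
  have hm1 : (m1 : ℝ) ≠ 0 := by exact_mod_cast hm0
  set r : ℝ := (D : ℝ) ^ (1 / 3 : ℝ) with hr
  have hr3 : r ^ 3 = D := by
    rw [hr, ← Real.rpow_natCast, ← Real.rpow_mul hD0]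
    norm_num
  have hr0 : 0 ≤ r := Real.rpow_nonneg hD0 _
  have hTr' : T ≤ r := by
    by_contra h
    rw [not_le] at h
    have := pow_lt_pow_left₀ h hr0 (n := 3) (by norm_num)
    linarith
  have hr2 : 2 ≤ r := hT2.trans hTr'
  have hr1 : 1 ≤ r := by linarith
  have hr4 : (D : ℝ) ^ (4 / 3 : ℝ) = r ^ 4 := by
    rw [hr, ← Real.rpow_natCast, ← Real.rpow_mul hD0]
    norm_num
  set y : ℝ := r ^ (1 / (m1 : ℝ)) with hy
  have hym : y ^ m1 = r := by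
    rw [hy, ← Real.rpow_natCast, ← Real.rpow_mul hr0, one_div, inv_mul_cancel₀ hm1, Real.rpow_one]
  have hy1 : 1 ≤ y := Real.one_le_rpow hr1 (by positivity)
  have hyB : max B 1 ≤ y := by
    by_contra h
    rw [not_le] at h
    have := pow_lt_pow_left₀ h (by linarith) hm0
    rw [hym] at this
    linarith
  refine ⟨r, y, hr3, hym, hy1, hr2, hTr.trans hTr', ?_, ?_, ?_⟩
  · rw [hr4]
    have := Nat.floor_le (a := ε * r ^ 4 / 2) (by positivity)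
    linarith
  · rw [hr4]
    have h1 := Nat.lt_floor_add_one (ε * r ^ 4 / 2)
    have h2 : r ≤ r ^ 4 := by
      calc r = r ^ 1 := (pow_one r).symm
        _ ≤ r ^ 4 := pow_le_pow_right₀ hr1 (by norm_num)
    have h3 : 10 ≤ ε * r ^ 4 := by
      have h4 : 10 / ε ≤ r ^ 4 := hTε.trans (hTr'.trans h2)
      rw [div_le_iff₀ hε] at h4
      linarith
    linarith
  · rw [← hym]
    obtain ⟨n, hn⟩ : ∃ n, m1 = 2 * R + 1 + n := ⟨m1 - (2 * R + 1), by omega⟩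
    have hy0 : 0 ≤ y := by linarith
    have h1 : y ^ m1 = (y * y ^ n) * (y ^ R) ^ 2 := by
      rw [hn]
      ring
    rw [h1]
    refine mul_le_mul_of_nonneg_right ?_ (by positivity)
    have h2 : 1 ≤ y ^ n := one_le_pow₀ hy1
    have h3 : B ≤ y := (le_max_left _ _).trans hyB
    nlinarith

end Pool.Agent.Lib.H93B
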