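import Pool.Agent.Lib.H93B.DS1

/-!
# H93B, DS2: iteration of the rounds

See `PROOF.md`.
-/

set_option autoImplicit false

open Finset
open scoped Classical

namespace Pool.Agent.Lib.H93B

/-- THE ROUNDS. By induction on `j ≤ R` there is a state with the parameters
`max γ ((1 - κ)^j)`, `j * (4 sig a)`, `j * (4 sig a / ρ0)`, `y^j`, `κ = ε lam a / 16` (start:
`start_state`; step: `RoundFor` with `x = max γ ((1 - κ)^j) ∈ [γ, 1]`, `L = y^j ≤ y^m2`, then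
`IsState.mono`: `x (1 - κ) ≤ max γ ((1 - κ)^(j+1))` because `0 ≤ 1 - κ ≤ 1`). At `j = R`:
`(1 - κ)^R ≤ γ`, `R * (4 sig a) ≤ C1m`, `R * (4 sig a / ρ0) ≤ C3m`.
(`0 < κ ≤ 1`: `lam * a ≤ sig * a ≤ 1`, `ε ≤ 1`; `r ≥ 1` from `y ≥ 1`.) -/
theorem rounds (c : Cst) (hc : CstHyp c) (m1 m2 R : ℕ) (r0 : ℝ) (hround : RoundFor c m1 m2 r0)
    (hR : R ≤ m2) (hx : (1 - c.ε * c.lam * c.a / 16) ^ R ≤ c.γ)
    (hC1 : (R : ℝ) * (4 * c.sig * c.a) ≤ c.C1m)
    (hC3 : (R : ℝ) * (4 * c.sig * c.a / c.ρ0) ≤ c.C3m) (V : Type) [Fintype V] (k D : ℕ) (r y : ℝ)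
    (G : SimpleGraph V) (F : Fam V k) (hr : r0 ≤ r) (hD : r ^ 3 = D) (hy : 1 ≤ y)
    (hyr : y ^ m1 = r) (hk : (k : ℝ) ≤ c.ε / 2 * r ^ 4) (hk' : 2 / 5 * c.ε * r ^ 4 ≤ k)
    (hdeg : ∀ v, (nb G v).card ≤ D) (hF : FamHyp r G F) :
    ∃ (φ : V → Option (Fin k)) (om : V × Fin k → ℝ),
      IsState c r G F φ om c.γ c.C1m c.C3m (y ^ R) := by
  have hI : 1 ≤ Iof c.j0 := by
    unfold Iof
    nlinarith [sq_nonneg (c.j0 : ℝ)]
  have hΛ := hc.Λ_one
  have hlam0 : 0 < c.lam := by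
    unfold Cst.lam
    positivity
  have hsig0 : 0 < c.sig := by
    unfold Cst.sig
    positivity
  have hls : c.lam ≤ c.sig := by
    unfold Cst.lam Cst.sig
    have h1 : 0 ≤ Iof c.j0 * c.Λ := by positivity
    linarith
  have ha := hc.a_pos
  have hε := hc.ε_pos
  have hρ := hc.ρ0_pos
  obtain ⟨κ, hκ⟩ : ∃ κ, κ = c.ε * c.lam * c.a / 16 := ⟨_, rfl⟩
  have hκ0 : 0 ≤ κ := by
    rw [hκ]
    positivity
  have hκ1 : κ ≤ 1 := by
    have h1 : c.lam * c.a ≤ 1 := (mul_le_mul_of_nonneg_right hls ha.le).trans hc.a_sig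
    have h2 : c.ε * (c.lam * c.a) ≤ 1 * 1 := mul_le_mul hc.ε_le h1 (by positivity) zero_le_one
    rw [hκ]
    linarith
  rw [← hκ] at hx
  obtain ⟨A, hA⟩ : ∃ A, A = 4 * c.sig * c.a := ⟨_, rfl⟩
  obtain ⟨B, hB⟩ : ∃ B, B = 4 * c.sig * c.a / c.ρ0 := ⟨_, rfl⟩
  have hA0 : 0 ≤ A := by
    rw [hA]
    positivity
  have hB0 : 0 ≤ B := by
    rw [hB]
    positivity
  rw [← hA] at hC1
  rw [← hB] at hC3
  have hs0 : 0 ≤ 1 - κ := by linarith
  have hs1 : 1 - κ ≤ 1 := by linarith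
  have key : ∀ j : ℕ, j ≤ R → ∃ (φ : V → Option (Fin k)) (om : V × Fin k → ℝ),
      IsState c r G F φ om (max c.γ ((1 - κ) ^ j)) (j * A) (j * B) (y ^ j) := by
    intro j
    induction j with
    | zero =>
      intro _
      refine ⟨fun _ => none, fun _ => 1 / r ^ 4, ?_⟩
      have h1 := start_state c r G F hF
      rw [pow_zero, pow_zero, max_eq_right hc.γ_le, Nat.cast_zero, zero_mul, zero_mul]
      exact h1
    | succ j ih =>
      intro hj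
      obtain ⟨φ, om, hst⟩ := ih (by omega)
      have hjR : (j : ℝ) ≤ R := by exact_mod_cast (by omega : j ≤ R)
      obtain ⟨φ', om', hst'⟩ := hround V k D r y G F φ om _ _ _ _ hr hD hy hyr (one_le_pow₀ hy)
        (pow_le_pow_right₀ hy (by omega)) hk hk' hdeg hF hst (le_max_left _ _)
        (max_le hc.γ_le (pow_le_one₀ hs0 hs1)) (mul_nonneg (Nat.cast_nonneg j) hA0) (mul_nonneg (Nat.cast_nonneg j) hB0)
        ((mul_le_mul_of_nonneg_right hjR hA0).trans hC1) ((mul_le_mul_of_nonneg_right hjR hB0).trans hC3)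
      refine ⟨φ', om', ?_⟩
      rw [← hκ, ← hB, ← hA] at hst'
      refine hst'.mono hF.β_pos ?_ (le_of_eq ?_) (le_of_eq ?_) (le_of_eq (pow_succ y j).symm)
      · rw [max_mul_of_nonneg _ _ hs0]
        refine max_le_max ?_ (le_of_eq (pow_succ _ _).symm)
        exact mul_le_of_le_one_right hc.γ_pos.le hs1
      · push_cast
        ring
      · push_cast
        ring
  obtain ⟨φ, om, hst⟩ := key R le_rfl
  exact ⟨φ, om, hst.mono hF.β_pos (max_le le_rfl hx) hC1 hC3 le_rfl⟩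

end Pool.Agent.Lib.H93B
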