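import Pool.Agent.Lib.H93B.DU

/-!
# H93B, DU2: few vertices are uncoloured

See `PROOF.md`.
-/

set_option autoImplicit false

open Finset
open scoped Classical

namespace Pool.Agent.Lib.H93B

theorem du2_le {T : Type} [Fintype T] (T₀ : Finset T) (g : T → ℝ) (h1 : ∀ t ∈ T₀, 1 ≤ g t)
    (h0 : ∀ t, 0 ≤ g t) : (T₀.card : ℝ) ≤ ∑ t, g t := by
  calc (T₀.card : ℝ) = ∑ _t ∈ T₀, (1 : ℝ) := by simp
    _ ≤ ∑ t ∈ T₀, g t := Finset.sum_le_sum h1
    _ ≤ ∑ t, g t := Finset.sum_le_sum_of_subset_of_nonneg (subset_univ _) fun t _ _ => h0 t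

theorem du2_prod {X : Type} (om : X → ℝ) (S : Finset X) (h : ∀ x ∈ S, 1 ≤ om x) :
    1 ≤ ∏ x ∈ S, om x :=
  Finset.prod_induction om (fun y => 1 ≤ y) (fun a b ha hb => one_le_mul_of_one_le_of_one_le ha hb)
    le_rfl h

/-- lower bound for a functional at the empty set -/
theorem du2_tf {X T : Type} [Fintype T] (w : T → ℝ) (ρ : T → Finset X) (om : X → ℝ)
    (h0 : ∀ z, 0 ≤ om z) (hw : ∀ t, 0 ≤ w t) (T₀ : Finset T)
    (h1 : ∀ t ∈ T₀, 1 ≤ w t ∧ ∀ x ∈ ρ t, 1 ≤ om x) : (T₀.card : ℝ) ≤ tf w ρ om ∅ := by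
  unfold tf
  refine du2_le T₀ _ ?_ ?_
  · intro t ht
    rw [if_pos (empty_subset _), sdiff_empty]
    exact one_le_mul_of_one_le_of_one_le (h1 t ht).1 (du2_prod om _ (h1 t ht).2)
  · intro t
    rw [if_pos (empty_subset _)]
    exact mul_nonneg (hw t) (Finset.prod_nonneg fun x _ => h0 x)

/-- Every `u ∈ co G p.1 p.2` with `PW G φ u` gives a P6 token `(v, (a, b))` with `v 0 = u`, weight 1 and
`∏ om ≥ 1` (all sites are coloured vertices with their colours). Different `u` give different tokens.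
All other terms of the functional are nonnegative. -/
theorem card_PW_le {V : Type} [Fintype V] (G : SimpleGraph V) {k : ℕ} (φ : V → Option (Fin k))
    (om : V × Fin k → ℝ) (h0 : ∀ z, 0 ≤ om z) (h1 : ∀ v col, φ v = some col → 1 ≤ om (v, col))
    (p : V × V) :
    (((co G p.1 p.2).filter fun u => PW G φ u).card : ℝ) ≤ tf (wP G p) ρP om ∅ := by
  refine le_trans ?_ (du2_tf (wP G p) ρP om h0 (fun t => ?_) (univ.filter fun t =>
    (t.1 0 ∈ co G p.1 p.2 ∧ IsWalk G t.1 ∧ Alt t.1 ∧ t.2.1 ≠ t.2.2) ∧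
      ∀ i : Fin 6, φ (t.1 i) = some (if (i : ℕ) % 2 = 0 then t.2.1 else t.2.2)) ?_)
  · have h : ((co G p.1 p.2).filter fun u => PW G φ u) ⊆ (univ.filter fun t : (Fin 6 → V) × (Fin k × Fin k) =>
      (t.1 0 ∈ co G p.1 p.2 ∧ IsWalk G t.1 ∧ Alt t.1 ∧ t.2.1 ≠ t.2.2) ∧
      ∀ i : Fin 6, φ (t.1 i) = some (if (i : ℕ) % 2 = 0 then t.2.1 else t.2.2)).image (fun t => t.1 0) := by
      intro u hu
      rw [mem_filter] at hu
      obtain ⟨hu1, v, a, b, hv0, hw, ha, hab, hcol⟩ := hu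
      rw [mem_image]
      refine ⟨(v, (a, b)), ?_, hv0⟩
      rw [mem_filter]
      refine ⟨mem_univ _, ⟨?_, hw, ha, hab⟩, hcol⟩
      show v 0 ∈ _
      rw [hv0]
      exact hu1
    exact_mod_cast (card_le_card h).trans card_image_le
  · unfold wP
    split_ifs <;> norm_num
  · intro t ht
    rw [mem_filter] at ht
    refine ⟨?_, ?_⟩
    · unfold wP
      rw [if_pos ht.2.1]
    · intro x hx
      unfold ρP at hx
      rw [mem_image] at hx
      obtain ⟨i, -, rfl⟩ := hx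
      exact h1 _ _ (ht.2.2 i)

/-- The number of walks `v` with 6 vertices from `u` whose odd entries are distinct and have the same
colour (in `φ`) and whose even entries are distinct is at most the functional E at `∅`. -/
theorem card_E_le {V : Type} [Fintype V] (G : SimpleGraph V) {k : ℕ} (φ : V → Option (Fin k))
    (om : V × Fin k → ℝ) (h0 : ∀ z, 0 ≤ om z) (h1 : ∀ v col, φ v = some col → 1 ≤ om (v, col))
    (u : V) :
    ((univ.filter fun v : Fin 6 → V => v 0 = u ∧ IsWalk G v ∧ Alt v ∧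
      ∃ col, ∀ i : Fin 6, (i : ℕ) % 2 = 1 → φ (v i) = some col).card : ℝ) ≤
      tf (wE G u) ρE om ∅ := by
  refine le_trans ?_ (du2_tf (wE G u) ρE om h0 (fun t => ?_) (univ.filter fun t =>
    (t.1 0 = u ∧ IsWalk G t.1 ∧ Alt t.1) ∧
      ∀ i : Fin 6, (i : ℕ) % 2 = 1 → φ (t.1 i) = some t.2) ?_)
  · have h : (univ.filter fun v : Fin 6 → V => v 0 = u ∧ IsWalk G v ∧ Alt v ∧
      ∃ col, ∀ i : Fin 6, (i : ℕ) % 2 = 1 → φ (v i) = some col) ⊆ (univ.filter fun t : (Fin 6 → V) × Fin k =>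
      (t.1 0 = u ∧ IsWalk G t.1 ∧ Alt t.1) ∧
      ∀ i : Fin 6, (i : ℕ) % 2 = 1 → φ (t.1 i) = some t.2).image (fun t => t.1) := by
      intro v hv
      rw [mem_filter] at hv
      obtain ⟨-, hv0, hw, ha, col, hcol⟩ := hv
      rw [mem_image]
      refine ⟨(v, col), ?_, rfl⟩
      rw [mem_filter]
      exact ⟨mem_univ _, ⟨hv0, hw, ha⟩, hcol⟩
    exact_mod_cast (card_le_card h).trans card_image_le
  · unfold wE
    split_ifs <;> norm_num
  · intro t ht
    rw [mem_filter] at ht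
    refine ⟨?_, ?_⟩
    · unfold wE
      rw [if_pos ht.2.1]
    · intro x hx
      unfold ρE at hx
      rw [mem_image] at hx
      obtain ⟨i, hi, rfl⟩ := hx
      rw [mem_filter] at hi
      exact h1 _ _ (ht.2.2 i hi.2)

/-- The same for walks with 5 vertices and the functional Q. -/
theorem card_Q_le {V : Type} [Fintype V] (G : SimpleGraph V) {k : ℕ} (φ : V → Option (Fin k))
    (om : V × Fin k → ℝ) (h0 : ∀ z, 0 ≤ om z) (h1 : ∀ v col, φ v = some col → 1 ≤ om (v, col))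
    (u : V) :
    ((univ.filter fun v : Fin 5 → V => v 1 = u ∧ IsWalk G v ∧ Alt v ∧
      ∃ col, ∀ i : Fin 5, (i : ℕ) % 2 = 0 → φ (v i) = some col).card : ℝ) ≤
      tf (wQ G u) ρQ om ∅ := by
  refine le_trans ?_ (du2_tf (wQ G u) ρQ om h0 (fun t => ?_) (univ.filter fun t =>
    (t.1 1 = u ∧ IsWalk G t.1 ∧ Alt t.1) ∧
      ∀ i : Fin 5, (i : ℕ) % 2 = 0 → φ (t.1 i) = some t.2) ?_)
  · have h : (univ.filter fun v : Fin 5 → V => v 1 = u ∧ IsWalk G v ∧ Alt v ∧
      ∃ col, ∀ i : Fin 5, (i : ℕ) % 2 = 0 → φ (v i) = some col) ⊆ (univ.filter fun t : (Fin 5 → V) × Fin k =>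
      (t.1 1 = u ∧ IsWalk G t.1 ∧ Alt t.1) ∧
      ∀ i : Fin 5, (i : ℕ) % 2 = 0 → φ (t.1 i) = some t.2).image (fun t => t.1) := by
      intro v hv
      rw [mem_filter] at hv
      obtain ⟨-, hv0, hw, ha, col, hcol⟩ := hv
      rw [mem_image]
      refine ⟨(v, col), ?_, rfl⟩
      rw [mem_filter]
      exact ⟨mem_univ _, ⟨hv0, hw, ha⟩, hcol⟩
    exact_mod_cast (card_le_card h).trans card_image_le
  · unfold wQ
    split_ifs <;> norm_num
  · intro t ht
    rw [mem_filter] at ht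
    refine ⟨?_, ?_⟩
    · unfold wQ
      rw [if_pos ht.2.1]
    · intro x hx
      unfold ρQ at hx
      rw [mem_image] at hx
      obtain ⟨i, hi, rfl⟩ := hx
      rw [mem_filter] at hi
      exact h1 _ _ (ht.2.2 i hi.2)

end Pool.Agent.Lib.H93B
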