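import Pool.Agent.Lib.H93B.DU

/-!
# H93B, DU3: the tuples C6 and P7

See `PROOF.md`.
-/

set_option autoImplicit false

open Finset
open scoped Classical

namespace Pool.Agent.Lib.H93B

theorem du3_walk6 {V : Type} (G : SimpleGraph V) {a b c d e f : V}
    (h1 : G.Adj a b) (h2 : G.Adj b c) (h3 : G.Adj c d) (h4 : G.Adj d e) (h5 : G.Adj e f) :
    IsWalk G ![a, b, c, d, e, f] := by
  intro i j hij
  fin_cases i <;> fin_cases j <;> simp at hij <;> assumption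

theorem du3_alt6 {V : Type} {a b c d e f : V}
    (h1 : a ≠ c) (h2 : a ≠ e) (h3 : c ≠ e) (h4 : b ≠ d) (h5 : b ≠ f) (h6 : d ≠ f) :
    Alt ![a, b, c, d, e, f] := by
  intro i j hij hm
  fin_cases i <;> fin_cases j <;> simp at hm hij <;>
    first
    | exact h1
    | exact h2
    | exact h3
    | exact h4
    | exact h5
    | exact h6
    | exact h1.symm
    | exact h2.symm
    | exact h3.symm
    | exact h4.symm
    | exact h5.symm
    | exact h6.symm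

theorem du3_walk5 {V : Type} (G : SimpleGraph V) {a b c d e : V}
    (h1 : G.Adj a b) (h2 : G.Adj b c) (h3 : G.Adj c d) (h4 : G.Adj d e) :
    IsWalk G ![a, b, c, d, e] := by
  intro i j hij
  fin_cases i <;> fin_cases j <;> simp at hij <;> assumption

theorem du3_alt5 {V : Type} {a b c d e : V}
    (h1 : a ≠ c) (h2 : a ≠ e) (h3 : c ≠ e) (h4 : b ≠ d) :
    Alt ![a, b, c, d, e] := by
  intro i j hij hm
  fin_cases i <;> fin_cases j <;> simp at hm hij <;>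
    first
    | exact h1
    | exact h2
    | exact h3
    | exact h4
    | exact h1.symm
    | exact h2.symm
    | exact h3.symm
    | exact h4.symm

/-- walks with six vertices from `u` -/
noncomputable def du3_W6 {V : Type} [Fintype V] (G : SimpleGraph V) {k : ℕ} (φ : V → Option (Fin k))
    (u : V) : Finset (Fin 6 → V) :=
  univ.filter fun v : Fin 6 → V => v 0 = u ∧ IsWalk G v ∧ Alt v ∧
      ∃ col, ∀ i : Fin 6, (i : ℕ) % 2 = 1 → φ (v i) = some col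

noncomputable def du3_W5 {V : Type} [Fintype V] (G : SimpleGraph V) {k : ℕ} (φ : V → Option (Fin k))
    (u : V) : Finset (Fin 5 → V) :=
  univ.filter fun v : Fin 5 → V => v 1 = u ∧ IsWalk G v ∧ Alt v ∧
      ∃ col, ∀ i : Fin 5, (i : ℕ) % 2 = 0 → φ (v i) = some col

theorem du3_mem6 {V : Type} [Fintype V] {G : SimpleGraph V} {k : ℕ} {φ : V → Option (Fin k)}
    {u1 w1 u2 w2 u3 w3 : V} {col : Fin k}
    (h1 : G.Adj u1 w1) (h2 : G.Adj w1 u2) (h3 : G.Adj u2 w2) (h4 : G.Adj w2 u3) (h5 : G.Adj u3 w3)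
    (g1 : u1 ≠ u2) (g2 : u1 ≠ u3) (g3 : u2 ≠ u3) (g4 : w1 ≠ w2) (g5 : w1 ≠ w3) (g6 : w2 ≠ w3)
    (c1 : φ w1 = some col) (c2 : φ w2 = some col) (c3 : φ w3 = some col) :
    ![u1, w1, u2, w2, u3, w3] ∈ du3_W6 G φ u1 := by
  unfold du3_W6
  rw [mem_filter]
  refine ⟨mem_univ _, rfl, du3_walk6 G h1 h2 h3 h4 h5, du3_alt6 g1 g2 g3 g4 g5 g6, col, ?_⟩
  intro i hi
  fin_cases i <;> simp at hi ⊢ <;> assumption

theorem du3_mem5 {V : Type} [Fintype V] {G : SimpleGraph V} {k : ℕ} {φ : V → Option (Fin k)}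
    {w1 u2 w2 u3 w3 : V} {col : Fin k}
    (h2 : G.Adj w1 u2) (h3 : G.Adj u2 w2) (h4 : G.Adj w2 u3) (h5 : G.Adj u3 w3)
    (g3 : u2 ≠ u3) (g4 : w1 ≠ w2) (g5 : w1 ≠ w3) (g6 : w2 ≠ w3)
    (c1 : φ w1 = some col) (c2 : φ w2 = some col) (c3 : φ w3 = some col) :
    ![w1, u2, w2, u3, w3] ∈ du3_W5 G φ u2 := by
  unfold du3_W5
  rw [mem_filter]
  refine ⟨mem_univ _, rfl, du3_walk5 G h2 h3 h4 h5, du3_alt5 g4 g5 g6 g3, col, ?_⟩
  intro i hi
  fin_cases i <;> simp at hi ⊢ <;> assumption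

/-- the colours of the `wᵢ` -/
theorem du3_col {V : Type} [Fintype V] {G : SimpleGraph V} {k : ℕ} {φ : V → Option (Fin k)}
    {w1 w2 w3 : V} (h1 : unW G φ w1 ≠ none) (h2 : unW G φ w2 = unW G φ w1)
    (h3 : unW G φ w3 = unW G φ w1) : ∃ col, φ w1 = some col ∧ φ w2 = some col ∧ φ w3 = some col := by
  obtain ⟨col, hcol⟩ := Option.ne_none_iff_exists'.1 h1
  exact ⟨col, (unW_some hcol).1, (unW_some (h2.trans hcol)).1, (unW_some (h3.trans hcol)).1⟩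

theorem du3_vec6 {V : Type} {a b c d e f a' b' c' d' e' f' : V}
    (h : ![a, b, c, d, e, f] = ![a', b', c', d', e', f']) :
    a = a' ∧ b = b' ∧ c = c' ∧ d = d' ∧ e = e' ∧ f = f' :=
  ⟨congrFun h 0, congrFun h 1, congrFun h 2, congrFun h 3, congrFun h 4, congrFun h 5⟩

theorem du3_vec5 {V : Type} {a b c d e a' b' c' d' e' : V}
    (h : ![a, b, c, d, e] = ![a', b', c', d', e']) :
    a = a' ∧ b = b' ∧ c = c' ∧ d = d' ∧ e = e' :=
  ⟨congrFun h 0, congrFun h 1, congrFun h 2, congrFun h 3, congrFun h 4⟩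

/-- A tuple `(u1, w1, u2, w2, u3, w3)` of `C6at` with `u = u1`, `u = u2` or `u = u3` gives the walk
`![u1, w1, u2, w2, u3, w3]`, `![u2, w2, u3, w3, u1, w1]`, `![u3, w3, u1, w1, u2, w2]` from `u`
(injective in each of the three cases; colours of `unW G φ` are colours of `φ`, `unW_some`). -/
theorem card_C6at {V : Type} [Fintype V] (G : SimpleGraph V) {k : ℕ} (φ : V → Option (Fin k))
    (u : V) (E : ℝ)
    (hE : ((univ.filter fun v : Fin 6 → V => v 0 = u ∧ IsWalk G v ∧ Alt v ∧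
      ∃ col, ∀ i : Fin 6, (i : ℕ) % 2 = 1 → φ (v i) = some col).card : ℝ) ≤ E) :
    ((H93C.C6at G (unW G φ) u).card : ℝ) ≤ 3 * E := by
  change ((du3_W6 G φ u).card : ℝ) ≤ E at hE
  set S := H93C.C6 G (unW G φ) with hS
  have hsub : H93C.C6at G (unW G φ) u ⊆ (S.filter fun t => u = t.1) ∪
      ((S.filter fun t => u = t.2.2.1) ∪ (S.filter fun t => u = t.2.2.2.2.1)) := by
    intro t ht
    unfold H93C.C6at at ht
    rw [mem_filter] at ht
    rw [mem_union, mem_union, mem_filter, mem_filter, mem_filter]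
    rcases ht.2 with h | h | h
    · exact Or.inl ⟨ht.1, h⟩
    · exact Or.inr (Or.inl ⟨ht.1, h⟩)
    · exact Or.inr (Or.inr ⟨ht.1, h⟩)
  have m1 : (S.filter fun t => u = t.1).card ≤ (du3_W6 G φ u).card := by
    refine card_le_card_of_injOn (fun t => ![t.1, t.2.1, t.2.2.1, t.2.2.2.1, t.2.2.2.2.1, t.2.2.2.2.2]) ?_ ?_
    · intro t ht
      rw [mem_coe, mem_filter, hS] at ht
      obtain ⟨ht, hu⟩ := ht
      unfold H93C.C6 at ht
      obtain ⟨-, -, ⟨g1, g2, g3⟩, ⟨p1, p2, p3⟩, ⟨q1, q2, q3⟩, e1, e2, e3, e4, e5, e6⟩ := mem_filter.1 ht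
      obtain ⟨col, c1, c2, c3⟩ := du3_col p1 p2 p3
      rw [mem_coe, hu]
      exact du3_mem6 e1 e2 e3 e4 e5 g1 g2 g3 q1 q2 q3 c1 c2 c3
    · rintro ⟨a, b, c, d, e, f⟩ _ ⟨a', b', c', d', e', f'⟩ _ h
      obtain ⟨rfl, rfl, rfl, rfl, rfl, rfl⟩ := du3_vec6 h
      rfl
  have m2 : (S.filter fun t => u = t.2.2.1).card ≤ (du3_W6 G φ u).card := by
    refine card_le_card_of_injOn (fun t => ![t.2.2.1, t.2.2.2.1, t.2.2.2.2.1, t.2.2.2.2.2, t.1, t.2.1]) ?_ ?_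
    · intro t ht
      rw [mem_coe, mem_filter, hS] at ht
      obtain ⟨ht, hu⟩ := ht
      unfold H93C.C6 at ht
      obtain ⟨-, -, ⟨g1, g2, g3⟩, ⟨p1, p2, p3⟩, ⟨q1, q2, q3⟩, e1, e2, e3, e4, e5, e6⟩ := mem_filter.1 ht
      obtain ⟨col, c1, c2, c3⟩ := du3_col p1 p2 p3
      rw [mem_coe, hu]
      exact du3_mem6 e3 e4 e5 e6 e1 g3 g1.symm g2.symm q3 q1.symm q2.symm c2 c3 c1
    · rintro ⟨a, b, c, d, e, f⟩ _ ⟨a', b', c', d', e', f'⟩ _ h
      obtain ⟨h1, h2, h3, h4, h5, h6⟩ := du3_vec6 h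
      simp only [] at h1 h2 h3 h4 h5 h6
      subst h1 h2 h3 h4 h5 h6
      rfl
  have m3 : (S.filter fun t => u = t.2.2.2.2.1).card ≤ (du3_W6 G φ u).card := by
    refine card_le_card_of_injOn (fun t => ![t.2.2.2.2.1, t.2.2.2.2.2, t.1, t.2.1, t.2.2.1, t.2.2.2.1]) ?_ ?_
    · intro t ht
      rw [mem_coe, mem_filter, hS] at ht
      obtain ⟨ht, hu⟩ := ht
      unfold H93C.C6 at ht
      obtain ⟨-, -, ⟨g1, g2, g3⟩, ⟨p1, p2, p3⟩, ⟨q1, q2, q3⟩, e1, e2, e3, e4, e5, e6⟩ := mem_filter.1 ht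
      obtain ⟨col, c1, c2, c3⟩ := du3_col p1 p2 p3
      rw [mem_coe, hu]
      exact du3_mem6 e5 e6 e1 e2 e3 g2.symm g3.symm g1 q2.symm q3.symm q1 c3 c1 c2
    · rintro ⟨a, b, c, d, e, f⟩ _ ⟨a', b', c', d', e', f'⟩ _ h
      obtain ⟨h1, h2, h3, h4, h5, h6⟩ := du3_vec6 h
      simp only [] at h1 h2 h3 h4 h5 h6
      subst h1 h2 h3 h4 h5 h6
      rfl
  have hle : (H93C.C6at G (unW G φ) u).card ≤ 3 * (du3_W6 G φ u).card := by
    have h1 := card_le_card hsub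
    have h2 := card_union_le (S.filter fun t => u = t.1)
      ((S.filter fun t => u = t.2.2.1) ∪ (S.filter fun t => u = t.2.2.2.2.1))
    have h3 := card_union_le (S.filter fun t => u = t.2.2.1) (S.filter fun t => u = t.2.2.2.2.1)
    omega
  have hle' : ((H93C.C6at G (unW G φ) u).card : ℝ) ≤ 3 * (du3_W6 G φ u).card := by exact_mod_cast hle
  linarith

/-- A tuple `(u1, w1, u2, w2, u3, w3, u4)` of `P7at` with `u = u1` is the walk
`![u1, w1, u2, w2, u3, w3]` and a neighbour `u4` of `w3`: at most `D * E`. `u = u4`: reversed. `u = u2`: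
the walk `![w1, u2, w2, u3, w3]`, a neighbour `u1` of `w1` and a neighbour `u4` of `w3`: at most
`D^2 * Q`. `u = u3`: reversed. -/
theorem card_P7at {V : Type} [Fintype V] (G : SimpleGraph V) {k : ℕ} (φ : V → Option (Fin k))
    (D : ℕ) (hdeg : ∀ v, (nb G v).card ≤ D) (u : V) (E Q : ℝ)
    (hE : ((univ.filter fun v : Fin 6 → V => v 0 = u ∧ IsWalk G v ∧ Alt v ∧
      ∃ col, ∀ i : Fin 6, (i : ℕ) % 2 = 1 → φ (v i) = some col).card : ℝ) ≤ E)
    (hQ : ((univ.filter fun v : Fin 5 → V => v 1 = u ∧ IsWalk G v ∧ Alt v ∧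
      ∃ col, ∀ i : Fin 5, (i : ℕ) % 2 = 0 → φ (v i) = some col).card : ℝ) ≤ Q) :
    ((H93C.P7at G (unW G φ) u).card : ℝ) ≤ 2 * D * E + 2 * D ^ 2 * Q := by
  change ((du3_W6 G φ u).card : ℝ) ≤ E at hE
  change ((du3_W5 G φ u).card : ℝ) ≤ Q at hQ
  set S := H93C.P7 G (unW G φ) with hS
  have hsub : H93C.P7at G (unW G φ) u ⊆ (S.filter fun t => u = t.1) ∪
      ((S.filter fun t => u = t.2.2.1) ∪ ((S.filter fun t => u = t.2.2.2.2.1) ∪
        (S.filter fun t => u = t.2.2.2.2.2.2))) := by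
    intro t ht
    unfold H93C.P7at at ht
    rw [mem_filter] at ht
    rw [mem_union, mem_union, mem_union, mem_filter, mem_filter, mem_filter, mem_filter]
    rcases ht.2 with h | h | h | h
    · exact Or.inl ⟨ht.1, h⟩
    · exact Or.inr (Or.inl ⟨ht.1, h⟩)
    · exact Or.inr (Or.inr (Or.inl ⟨ht.1, h⟩))
    · exact Or.inr (Or.inr (Or.inr ⟨ht.1, h⟩))
  have hmem : ∀ v w : V, G.Adj v w → w ∈ nb G v := fun v w h => by
    unfold nb
    exact mem_filter.2 ⟨mem_univ _, h⟩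
  have m1 : (S.filter fun t => u = t.1).card ≤ ((du3_W6 G φ u).sigma fun v => nb G (v 5)).card := by
    refine card_le_card_of_injOn (fun t =>
      ⟨![t.1, t.2.1, t.2.2.1, t.2.2.2.1, t.2.2.2.2.1, t.2.2.2.2.2.1], t.2.2.2.2.2.2⟩) ?_ ?_
    · intro t ht
      rw [mem_coe, mem_filter, hS] at ht
      obtain ⟨ht, hu⟩ := ht
      unfold H93C.P7 at ht
      obtain ⟨-, -, ⟨g1, g2, g3, g4, g5, g6⟩, ⟨p1, p2, p3⟩, ⟨q1, q2, q3⟩, e1, e2, e3, e4, e5, e6⟩ := mem_filter.1 ht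
      obtain ⟨col, c1, c2, c3⟩ := du3_col p1 p2 p3
      rw [mem_coe, mem_sigma, hu]
      exact ⟨du3_mem6 e1 e2 e3 e4 e5 g1 g2 g4 q1 q2 q3 c1 c2 c3, hmem _ _ e6⟩
    · rintro ⟨a, b, c, d, e, f, g⟩ _ ⟨a', b', c', d', e', f', g'⟩ _ h
      have h7 : g = g' := congrArg (fun q : (_ : Fin 6 → V) × V => q.2) h
      obtain ⟨h1, h2, h3, h4, h5, h6⟩ := du3_vec6 (congrArg (fun q : (_ : Fin 6 → V) × V => q.1) h)
      simp only [] at h1 h2 h3 h4 h5 h6
      subst h1 h2 h3 h4 h5 h6 h7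
      rfl
  have m4 : (S.filter fun t => u = t.2.2.2.2.2.2).card ≤ ((du3_W6 G φ u).sigma fun v => nb G (v 5)).card := by
    refine card_le_card_of_injOn (fun t =>
      ⟨![t.2.2.2.2.2.2, t.2.2.2.2.2.1, t.2.2.2.2.1, t.2.2.2.1, t.2.2.1, t.2.1], t.1⟩) ?_ ?_
    · intro t ht
      rw [mem_coe, mem_filter, hS] at ht
      obtain ⟨ht, hu⟩ := ht
      unfold H93C.P7 at ht
      obtain ⟨-, -, ⟨g1, g2, g3, g4, g5, g6⟩, ⟨p1, p2, p3⟩, ⟨q1, q2, q3⟩, e1, e2, e3, e4, e5, e6⟩ := mem_filter.1 ht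
      obtain ⟨col, c1, c2, c3⟩ := du3_col p1 p2 p3
      rw [mem_coe, mem_sigma, hu]
      exact ⟨du3_mem6 e6.symm e5.symm e4.symm e3.symm e2.symm g6.symm g5.symm g4.symm q3.symm q2.symm q1.symm
        c3 c2 c1, hmem _ _ e1.symm⟩
    · rintro ⟨a, b, c, d, e, f, g⟩ _ ⟨a', b', c', d', e', f', g'⟩ _ h
      have h7 : a = a' := congrArg (fun q : (_ : Fin 6 → V) × V => q.2) h
      obtain ⟨h1, h2, h3, h4, h5, h6⟩ := du3_vec6 (congrArg (fun q : (_ : Fin 6 → V) × V => q.1) h)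
      simp only [] at h1 h2 h3 h4 h5 h6
      subst h1 h2 h3 h4 h5 h6 h7
      rfl
  have m2 : (S.filter fun t => u = t.2.2.1).card ≤
      ((du3_W5 G φ u).sigma fun v => nb G (v 0) ×ˢ nb G (v 4)).card := by
    refine card_le_card_of_injOn (fun t =>
      ⟨![t.2.1, t.2.2.1, t.2.2.2.1, t.2.2.2.2.1, t.2.2.2.2.2.1], (t.1, t.2.2.2.2.2.2)⟩) ?_ ?_
    · intro t ht
      rw [mem_coe, mem_filter, hS] at ht
      obtain ⟨ht, hu⟩ := ht
      unfold H93C.P7 at ht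
      obtain ⟨-, -, ⟨g1, g2, g3, g4, g5, g6⟩, ⟨p1, p2, p3⟩, ⟨q1, q2, q3⟩, e1, e2, e3, e4, e5, e6⟩ := mem_filter.1 ht
      obtain ⟨col, c1, c2, c3⟩ := du3_col p1 p2 p3
      rw [mem_coe, mem_sigma, hu]
      exact ⟨du3_mem5 e2 e3 e4 e5 g4 q1 q2 q3 c1 c2 c3, mem_product.2 ⟨hmem _ _ e1.symm, hmem _ _ e6⟩⟩
    · rintro ⟨a, b, c, d, e, f, g⟩ _ ⟨a', b', c', d', e', f', g'⟩ _ h
      have h7 : (a, g) = (a', g') := congrArg (fun q : (_ : Fin 5 → V) × (V × V) => q.2) h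
      obtain ⟨h1, h2, h3, h4, h5⟩ := du3_vec5 (congrArg (fun q : (_ : Fin 5 → V) × (V × V) => q.1) h)
      simp only [Prod.mk.injEq] at h1 h2 h3 h4 h5 h7
      obtain ⟨h7, h8⟩ := h7
      subst h1 h2 h3 h4 h5 h7 h8
      rfl
  have m3 : (S.filter fun t => u = t.2.2.2.2.1).card ≤
      ((du3_W5 G φ u).sigma fun v => nb G (v 0) ×ˢ nb G (v 4)).card := by
    refine card_le_card_of_injOn (fun t =>
      ⟨![t.2.2.2.2.2.1, t.2.2.2.2.1, t.2.2.2.1, t.2.2.1, t.2.1], (t.2.2.2.2.2.2, t.1)⟩) ?_ ?_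
    · intro t ht
      rw [mem_coe, mem_filter, hS] at ht
      obtain ⟨ht, hu⟩ := ht
      unfold H93C.P7 at ht
      obtain ⟨-, -, ⟨g1, g2, g3, g4, g5, g6⟩, ⟨p1, p2, p3⟩, ⟨q1, q2, q3⟩, e1, e2, e3, e4, e5, e6⟩ := mem_filter.1 ht
      obtain ⟨col, c1, c2, c3⟩ := du3_col p1 p2 p3
      rw [mem_coe, mem_sigma, hu]
      exact ⟨du3_mem5 e5.symm e4.symm e3.symm e2.symm g4.symm q3.symm q2.symm q1.symm c3 c2 c1,
        mem_product.2 ⟨hmem _ _ e6, hmem _ _ e1.symm⟩⟩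
    · rintro ⟨a, b, c, d, e, f, g⟩ _ ⟨a', b', c', d', e', f', g'⟩ _ h
      have h7 : (g, a) = (g', a') := congrArg (fun q : (_ : Fin 5 → V) × (V × V) => q.2) h
      obtain ⟨h1, h2, h3, h4, h5⟩ := du3_vec5 (congrArg (fun q : (_ : Fin 5 → V) × (V × V) => q.1) h)
      simp only [Prod.mk.injEq] at h1 h2 h3 h4 h5 h7
      obtain ⟨h7, h8⟩ := h7
      subst h1 h2 h3 h4 h5 h7 h8
      rfl
  have k1 : ((du3_W6 G φ u).sigma fun v => nb G (v 5)).card ≤ (du3_W6 G φ u).card * D := by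
    rw [card_sigma]
    refine (sum_le_card_nsmul _ _ D fun v _ => hdeg _).trans ?_
    rw [smul_eq_mul]
  have k2 : ((du3_W5 G φ u).sigma fun v => nb G (v 0) ×ˢ nb G (v 4)).card ≤ (du3_W5 G φ u).card * (D * D) := by
    rw [card_sigma]
    refine (sum_le_card_nsmul _ _ (D * D) fun v _ => ?_).trans ?_
    · rw [card_product]
      exact Nat.mul_le_mul (hdeg _) (hdeg _)
    · rw [smul_eq_mul]
  have hle : (H93C.P7at G (unW G φ) u).card ≤ 2 * ((du3_W6 G φ u).card * D) + 2 * ((du3_W5 G φ u).card * (D * D)) := by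
    have h1 := card_le_card hsub
    have h2 := card_union_le (S.filter fun t => u = t.1) ((S.filter fun t => u = t.2.2.1) ∪
      ((S.filter fun t => u = t.2.2.2.2.1) ∪ (S.filter fun t => u = t.2.2.2.2.2.2)))
    have h3 := card_union_le (S.filter fun t => u = t.2.2.1)
      ((S.filter fun t => u = t.2.2.2.2.1) ∪ (S.filter fun t => u = t.2.2.2.2.2.2))
    have h4 := card_union_le (S.filter fun t => u = t.2.2.2.2.1) (S.filter fun t => u = t.2.2.2.2.2.2)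
    omega
  have hle' : ((H93C.P7at G (unW G φ) u).card : ℝ) ≤
      2 * ((du3_W6 G φ u).card * D) + 2 * ((du3_W5 G φ u).card * (D * D)) := by exact_mod_cast hle
  have hD0 : (0 : ℝ) ≤ D := Nat.cast_nonneg D
  have j1 := mul_le_mul_of_nonneg_right hE hD0
  have j2 := mul_le_mul_of_nonneg_right hQ (mul_nonneg hD0 hD0)
  nlinarith

end Pool.Agent.Lib.H93B
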