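import Pool.Agent.Lib.H93B.DU1
import Pool.Agent.Lib.H93B.DU2
import Pool.Agent.Lib.H93B.DU3

/-!
# H93B, DU4: the hypotheses of the last step

See `PROOF.md`.
-/

set_option autoImplicit false

open Finset
open scoped Classical

namespace Pool.Agent.Lib.H93B

theorem du4_cd {V : Type} [Fintype V] (G : SimpleGraph V) (u v : V) : ((H93A.codeg G u v : ℕ) : ℝ) = cd G u v := by
  unfold H93A.codeg cd co nb
  congr 2
  ext y
  simp only [mem_filter, mem_univ, true_and, mem_inter]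

theorem du4_pow (D : ℕ) (r : ℝ) (hr : 1 ≤ r) (hD : r ^ 3 = D) (c : ℝ) (n : ℕ) (h : 3 * c = n) :
    (D : ℝ) ^ c = r ^ n := by
  rw [← hD, ← Real.rpow_natCast, ← Real.rpow_mul (by linarith), ← Real.rpow_natCast]
  congr 1

theorem du4_pow' (D : ℕ) (r : ℝ) (hr : 1 ≤ r) (hD : r ^ 3 = D) (c : ℝ) (n : ℕ) (h : 3 * c = n + 1 / 2) :
    (D : ℝ) ^ c = r ^ n * Real.sqrt r := by
  have hr0 : 0 < r := by linarith
  rw [← hD, ← Real.rpow_natCast, ← Real.rpow_mul hr0.le, ← Real.rpow_natCast, Real.sqrt_eq_rpow,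
    ← Real.rpow_add hr0]
  congr 1

/-- powers of `D = r^3` -/
theorem rpow_facts (D : ℕ) (r : ℝ) (hr : 1 ≤ r) (hD : r ^ 3 = D) :
    (D : ℝ) ^ (2 / 3 : ℝ) = r ^ 2 ∧ (D : ℝ) ^ (4 / 3 : ℝ) = r ^ 4 ∧
      (D : ℝ) ^ (8 / 3 - 1 / 6 : ℝ) = r ^ 7 * Real.sqrt r ∧
      (D : ℝ) ^ (4 - 1 / 6 : ℝ) = r ^ 11 * Real.sqrt r := by
  refine ⟨du4_pow D r hr hD _ 2 (by norm_num), du4_pow D r hr hD _ 4 (by norm_num),
    du4_pow' D r hr hD _ 7 (by norm_num), du4_pow' D r hr hD _ 11 (by norm_num)⟩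

/-- THE HYPOTHESES OF THE LAST STEP. `codeg = cd` (same filter). `f1`: `v3`; `f2`: `i1` (mono pairs of
`unW G φ` are mono pairs of `φ`); `f3`: uncoloured common neighbours of `unW G φ` are uncoloured by `φ`
(`i2`: at most `γ cd`) or satisfy `PW` (`card_PW_le` and `o3` for the index `Sum.inl ⟨(y, z), _⟩`: at most
`L * 46656 * cd / (ρ0 r) ≤ γ cd`); `f4`: `card_C6at`, `card_E_le`, `o3`: `3 * (L * (27 r^7)) ≤ r^7 √r`;
`f5`: `card_P7at`: `2 r^3 * L * 27 r^7 + 2 r^6 * L * 27 r^4 = 108 L r^10 ≤ r^11 √r`; both from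
`10^5 * L^2 ≤ r`. `forest`: `forest_unW`. -/
theorem fhyp_of_state {V : Type} [Fintype V] (G : SimpleGraph V) (c : Cst) (hc : CstHyp c)
    (D k : ℕ) (r L : ℝ) (hr : 1 ≤ r) (hD : r ^ 3 = D) (hdeg : ∀ v, (nb G v).card ≤ D)
    (φ : V → Option (Fin k)) (om : V × Fin k → ℝ)
    (hs : IsState c r G (fam V G k c.ρ0 r) φ om c.γ c.C1m c.C3m L) (hL : 1 ≤ L)
    (hLr : 10 ^ 5 * L ^ 2 ≤ r) (hLr' : 46656 * L ≤ c.γ * c.ρ0 * r) :
    H93C.FHyp G (unW G φ) D c.K0 c.C1m (2 * c.γ) c.ρ0 (1 / 6) := by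
  obtain ⟨e23, e43, e83, e4⟩ := rpow_facts D r hr hD
  have hr0 : 0 < r := by linarith
  have h0 : ∀ z, 0 ≤ om z := fun z => le_trans (by positivity) (hs.o1 z)
  have h1 : ∀ v col, φ v = some col → 1 ≤ om (v, col) := hs.o2
  have hL0 : 0 < L := by linarith
  -- the functionals
  have hP : ∀ p : {p : V × V // p.1 ≠ p.2 ∧ c.ρ0 * r ^ 2 ≤ cd G p.1 p.2},
      tf (X := V × Fin k) (wP G p.1) ρP om ∅ ≤ L * (46656 * cd G p.1.1 p.1.2 / (c.ρ0 * r)) := by
    intro p
    have h := hs.o3 (Sum.inl p) ∅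
    exact h
  have hE : ∀ u : V, tf (wE G u) ρE om ∅ ≤ L * (27 * r ^ 7) := by
    intro u
    have h := hs.o3 (Sum.inr (Sum.inl u)) ∅
    exact h
  have hQ : ∀ u : V, tf (wQ G u) ρQ om ∅ ≤ L * (27 * r ^ 4) := by
    intro u
    have h := hs.o3 (Sum.inr (Sum.inr (Sum.inl u))) ∅
    exact h
  -- the square root
  have hsq : 300 * L ≤ Real.sqrt r := by
    apply Real.le_sqrt_of_sq_le
    nlinarith [sq_nonneg L]
  have hmono : ∀ y z, y ≠ z → unW G φ y = unW G φ z → unW G φ y ≠ none → Mono φ y z := by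
    intro y z hyz he hn
    obtain ⟨col, hcol⟩ := Option.ne_none_iff_exists'.1 hn
    exact ⟨hyz, col, (unW_some hcol).1, (unW_some (he.symm.trans hcol)).1⟩
  refine ⟨?_, ?_, ?_, ?_, ?_, ?_, ?_, ?_⟩
  · intro v
    exact hdeg v
  · intro u v col hu hv hadj
    exact hs.v1 u v hadj col (unW_some hu).1 (unW_some hv).1
  · intro a b hab
    exact forest_unW G φ hs.v1 hs.v2 a b hab
  · intro y z hyz he hn
    rw [e23, du4_cd]
    exact hs.v3 y z (hmono y z hyz he hn)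
  · intro v _
    rw [e23]
    refine le_trans ?_ (hs.i1 v)
    have hsub : H93C.monoPairs G (unW G φ) v ⊆ univ.filter fun f : V × V =>
        f.1 ∈ nb G v ∧ f.2 ∈ nb G v ∧ Mono φ f.1 f.2 := by
      intro q hq
      unfold H93C.monoPairs at hq
      rw [mem_filter] at hq ⊢
      obtain ⟨-, q1, q2, q3, q4, q5⟩ := hq
      refine ⟨mem_univ _, ?_, ?_, hmono _ _ q1 q4 q5⟩
      · unfold nb
        exact mem_filter.2 ⟨mem_univ _, q2⟩
      · unfold nb
        exact mem_filter.2 ⟨mem_univ _, q3⟩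
    exact_mod_cast card_le_card hsub
  · intro y z hyz hge
    rw [e23, du4_cd] at hge
    rw [du4_cd]
    have hsub : H93C.uncCom G (unW G φ) y z ⊆ (unc φ ∩ co G y z) ∪ ((co G (y, z).1 (y, z).2).filter fun u => PW G φ u) := by
      intro u hu
      unfold H93C.uncCom at hu
      rw [mem_filter] at hu
      obtain ⟨-, hn, hy, hz⟩ := hu
      have hco : u ∈ co G y z := by
        unfold co nb
        rw [mem_inter, mem_filter, mem_filter]
        exact ⟨⟨mem_univ _, hy⟩, ⟨mem_univ _, hz⟩⟩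
      rw [mem_union]
      by_cases hp : PW G φ u
      · right
        rw [mem_filter]
        exact ⟨hco, hp⟩
      · left
        rw [mem_inter]
        refine ⟨?_, hco⟩
        unfold unc
        rw [mem_filter]
        refine ⟨mem_univ _, ?_⟩
        unfold unW at hn
        rwa [if_neg hp] at hn
    have hcard := (card_le_card hsub).trans (card_union_le _ _)
    have hcard' : ((H93C.uncCom G (unW G φ) y z).card : ℝ) ≤ ((unc φ ∩ co G y z).card : ℝ) +
        (((co G (y, z).1 (y, z).2).filter fun u => PW G φ u).card : ℝ) := by exact_mod_cast hcard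
    have j1 := hs.i2 y z hyz hge
    have j2 := card_PW_le G φ om h0 h1 (y, z)
    have j3 := hP ⟨(y, z), hyz, hge⟩
    simp only [] at j3
    have hcd : 0 ≤ cd G y z := by unfold cd; positivity
    have hρ := hc.ρ0_pos
    have hρr : 0 < c.ρ0 * r := mul_pos hρ hr0
    have j4 : L * (46656 * cd G y z / (c.ρ0 * r)) ≤ c.γ * cd G y z := by
      rw [mul_div_assoc', div_le_iff₀ hρr]
      nlinarith
    linarith
  · intro u _
    rw [e83]
    have j1 := card_C6at G φ u _ (card_E_le G φ om h0 h1 u)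
    have j2 := hE u
    have hr7 : 0 < r ^ 7 := by positivity
    nlinarith
  · intro u _
    rw [e4]
    have j1 := card_P7at G φ D hdeg u _ _ (card_E_le G φ om h0 h1 u) (card_Q_le G φ om h0 h1 u)
    have j2 := hE u
    have j3 := hQ u
    rw [← hD] at j1
    have hr3 : 0 < r ^ 3 := by positivity
    have hr10 : 0 < r ^ 10 := by positivity
    have k1 : 2 * r ^ 3 * tf (wE G u) ρE om ∅ ≤ 2 * r ^ 3 * (L * (27 * r ^ 7)) :=
      mul_le_mul_of_nonneg_left j2 (by positivity)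
    have k2 : 2 * (r ^ 3) ^ 2 * tf (wQ G u) ρQ om ∅ ≤ 2 * (r ^ 3) ^ 2 * (L * (27 * r ^ 4)) :=
      mul_le_mul_of_nonneg_left j3 (by positivity)
    have k3 : 2 * r ^ 3 * (L * (27 * r ^ 7)) + 2 * (r ^ 3) ^ 2 * (L * (27 * r ^ 4)) = r ^ 10 * (108 * L) := by ring
    have k4 : r ^ 10 * (108 * L) ≤ r ^ 10 * (r * Real.sqrt r) := by
      apply mul_le_mul_of_nonneg_left _ hr10.le
      nlinarith [Real.sqrt_nonneg r]
    have k5 : r ^ 11 * Real.sqrt r = r ^ 10 * (r * Real.sqrt r) := by ring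
    linarith

end Pool.Agent.Lib.H93B
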