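import Pool.Agent.Lib.H93B.DC1
import Pool.Agent.Lib.H93B.DF1
import Pool.Agent.Lib.H93B.DM1
import Pool.Agent.Lib.H93B.DS2
import Pool.Agent.Lib.H93B.DU4
import Pool.Agent.Lib.H93C.F8

/-!
# H93B, DM2: the main theorem from the outputs of the modules

See `PROOF.md`.
-/

set_option autoImplicit false

open Finset
open scoped Classical

namespace Pool.Agent.Lib.H93B

/-- output of module B -/
def SelectionThm : Prop := ∀ (K Λ : ℝ) (j0 : ℕ), 1 ≤ K → 1 ≤ Λ → 1 ≤ j0 →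
  ∃ a0 : ℝ, 0 < a0 ∧ ∀ a, 0 < a → a ≤ a0 → ∃ (N1 Cw : ℝ) (nc d : ℕ), 0 ≤ Cw ∧
    SelFor K Λ j0 a N1 Cw nc d

/-- output of module A -/
def ConcThm : Prop := ∀ (K Cw : ℝ) (j0 nc d : ℕ), 1 ≤ K → 0 ≤ Cw → ∃ c0 : ℕ,
  ConcFor K Cw j0 nc d c0

/-- output of module C -/
def RoundThm : Prop := ∀ c : Cst, CstHyp c → ∀ (N1 Cw : ℝ) (nc d c0 : ℕ), 0 ≤ Cw →
  SelFor c.K c.Λ c.j0 c.a N1 Cw nc d → ConcFor c.K Cw c.j0 nc d c0 →
  ∀ m1 m2 : ℕ, 100 * (c0 + m2 + 1) ≤ m1 → ∃ r0, RoundFor c m1 m2 r0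

/-- THE MAIN THEOREM for `ε ≤ 1`. `consts`; `SelectionThm` for `K, Λ, j0` of the constants gives `a0`;
`a`, `R`; the constants `c' = {c with a := a}` (`c'.K = c.K` etc. by `rfl`); `N1, Cw, nc, d`; `c0` from
`ConcThm`; `m2 = R`, `m1 = 100 (c0 + R + 1)`; `r0` from `RoundThm`; `D0` = maximum of `numbers` (with
`B = 10^5 + 46656/(γ ρ0)`) and of `H93C.fresh` (`K0`, `C1m`, `2γ`, `ρ0`, `δ = 1/6`). For `D ≥ D0`:
`fam_hyp` (`k ≤ ε/2 r^4 ≤ r^4`), `rounds` (`F = fam V G k ρ0 r`), `fhyp_of_state` (`L = y^R`;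
`46656 L ≤ γ ρ0 B L^2 ≤ γ ρ0 r`), `fresh`: `χ_a ≤ 2 ⌊ε D^(4/3)/2⌋ ≤ ε D^(4/3)`. -/
theorem main_small (hsel : SelectionThm) (hconc : ConcThm) (hround : RoundThm) (ε : ℝ)
    (hε : 0 < ε) (hε1 : ε ≤ 1) :
    ∃ D0 : ℕ, ∀ D : ℕ, D0 ≤ D → ∀ (V : Type) [Fintype V] (G : SimpleGraph V),
      (∀ v, (nb G v).card ≤ D) → (H93A.acyclicChromatic G : ℝ) ≤ ε * (D : ℝ) ^ (4 / 3 : ℝ) := by
  obtain ⟨c, hcε, hK, hΛ, hj0, hγ, hρ0, hK0, hC1m, hA, hB, hc⟩ := consts ε hε hε1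
  obtain ⟨a0, ha0, hsel'⟩ := hsel c.K c.Λ c.j0 hK hΛ hj0
  obtain ⟨a, ha, haa0, hcst, R, hR1, hR2, hR3⟩ := hc a0 ha0
  obtain ⟨N1, Cw, nc, d, hCw, hS⟩ := hsel' a ha haa0
  obtain ⟨c0, hconc'⟩ := hconc c.K Cw c.j0 nc d hK hCw
  obtain ⟨r0, hround'⟩ := hround { c with a := a } hcst N1 Cw nc d c0 hCw hS hconc'
    (100 * (c0 + R + 1)) R le_rfl
  set B : ℝ := 10 ^ 5 + 46656 / (c.γ * c.ρ0) with hBdef
  have hγρ : 0 < c.γ * c.ρ0 := mul_pos hγ hρ0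
  obtain ⟨D1, hD1⟩ := numbers ε r0 B (100 * (c0 + R + 1)) R hε (by omega)
  obtain ⟨D2, hD2⟩ := H93C.fresh ε c.K0 c.C1m (2 * c.γ) c.ρ0 (1 / 6) hε hε1 hK0.le hC1m.le
    (by positivity) hρ0.le (by norm_num) (by norm_num) hA hB
  refine ⟨max D1 D2, fun D hD V _ G hdeg => ?_⟩
  obtain ⟨r, y, hr3, hym, hy1, hr2, hr0, hk1, hk2, hBy⟩ := hD1 D ((le_max_left _ _).trans hD)
  set k : ℕ := ⌊ε * (D : ℝ) ^ (4 / 3 : ℝ) / 2⌋₊ with hk
  have hr1 : 1 ≤ r := by linarith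
  have hr4 : 0 ≤ r ^ 4 := by positivity
  have hF : FamHyp r G (fam V G k c.ρ0 r) := by
    refine fam_hyp G D k r c.ρ0 hdeg hr2 hr3 ?_ hρ0 hcst.ρ0_le
    refine hk1.trans ?_
    nlinarith
  obtain ⟨φ, om, hst⟩ := rounds { c with a := a } hcst (100 * (c0 + R + 1)) R R r0 hround' le_rfl
    (by rw [← hcε] at hR1; exact hR1) hR2 hR3 V k D r y G (fam V G k c.ρ0 r) hr0 hr3 hy1 hym
    (by rw [← hcε] at hk1; exact hk1) (by rw [← hcε] at hk2; exact hk2) hdeg hF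
  have hL : 1 ≤ y ^ R := one_le_pow₀ hy1
  have hL2 : y ^ R ≤ (y ^ R) ^ 2 := by nlinarith
  have hB0 : 0 < 46656 / (c.γ * c.ρ0) := by positivity
  have hfh := fhyp_of_state G { c with a := a } hcst D k r (y ^ R) hr1 hr3 hdeg φ om hst hL ?_ ?_
  · have h1 := hD2 D ((le_max_right _ _).trans hD) V G k (unW G φ) hfh
    have h2 : (H93A.acyclicChromatic G : ℝ) ≤ (k : ℝ) + k := by exact_mod_cast h1
    have h3 : (k : ℝ) ≤ ε * (D : ℝ) ^ (4 / 3 : ℝ) / 2 := Nat.floor_le (by positivity)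
    linarith
  · refine le_trans ?_ hBy
    refine mul_le_mul_of_nonneg_right ?_ (by positivity)
    rw [hBdef]
    linarith
  · show 46656 * y ^ R ≤ c.γ * c.ρ0 * r
    have h1 : c.γ * c.ρ0 * (B * (y ^ R) ^ 2) ≤ c.γ * c.ρ0 * r := mul_le_mul_of_nonneg_left hBy hγρ.le
    refine le_trans ?_ h1
    have h2 : c.γ * c.ρ0 * (B * (y ^ R) ^ 2) =
        46656 * (y ^ R) ^ 2 + c.γ * c.ρ0 * 10 ^ 5 * (y ^ R) ^ 2 := by
      rw [hBdef]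
      field_simp
      ring
    rw [h2]
    have h3 : 0 ≤ c.γ * c.ρ0 * 10 ^ 5 * (y ^ R) ^ 2 := by positivity
    linarith

/-- THE MAIN THEOREM (for `ε > 1` use `ε = 1`; `nb G v` and `G.neighborSet v`). -/
theorem main_of (hsel : SelectionThm) (hconc : ConcThm) (hround : RoundThm) (ε : ℝ) (hε : 0 < ε) :
    ∃ D0 : ℕ, ∀ D : ℕ, D0 ≤ D → ∀ (V : Type) [Finite V] (G : SimpleGraph V),
      (∀ v, (G.neighborSet v).ncard ≤ D) →
      (H93A.acyclicChromatic G : ℝ) ≤ ε * (D : ℝ) ^ (4 / 3 : ℝ) := by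
  obtain ⟨D0, hD0⟩ := main_small hsel hconc hround (min ε 1) (lt_min hε one_pos) (min_le_right _ _)
  refine ⟨D0, fun D hD V _ G hdeg => ?_⟩
  have : Fintype V := Fintype.ofFinite V
  have h1 := hD0 D hD V G fun v => by
    have h2 := hdeg v
    have h3 : G.neighborSet v = ((nb G v : Finset V) : Set V) := by
      ext w
      simp [nb]
    rw [h3, Set.ncard_coe_finset] at h2
    exact h2
  refine h1.trans ?_
  exact mul_le_mul_of_nonneg_right (min_le_left _ _) (by positivity)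

end Pool.Agent.Lib.H93B
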