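import Pool.Agent.Lib.H93B.DW1

/-!
# H93B, DP1: counting P6 tokens with prescribed sites

See `PROOF.md`.
-/

set_option autoImplicit false

open Finset
open scoped Classical

namespace Pool.Agent.Lib.H93B

theorem dp1_parity (S : Finset (Fin 6)) (a : ℕ) (h : ∀ i ∈ S, (i : ℕ) % 2 = a) : S.card ≤ 3 := by
  have h1 : S ⊆ univ.filter fun i : Fin 6 => (i : ℕ) % 2 = a := fun i hi => mem_filter.2 ⟨mem_univ _, h i hi⟩
  refine (card_le_card h1).trans ?_
  by_cases h0 : a = 0
  · subst h0
    decide
  · by_cases h2 : a = 1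
    · subst h2
      decide
    · have : (univ.filter fun i : Fin 6 => (i : ℕ) % 2 = a) = ∅ := by
        refine filter_eq_empty_iff.2 fun i _ h3 => ?_
        have := Nat.mod_lt (i : ℕ) (by norm_num : 0 < 2)
        omega
      rw [this, card_empty]
      norm_num

/-- For a P6 token with `siteP t (g x) = x` for `x ∈ B`, the vertices at the `|B|` positions `g x`
are prescribed: `walk_count` with `P = B.image g` gives at most `D^(6 - |B|)` walks. The colour at the
parity of some `g x`, `x ∈ B`, is prescribed, so at most `k` pairs of colours for each walk; if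
`|B| ≥ 4`, both parities occur among the `g x` (only three positions have a given parity) and both
colours are prescribed. -/
theorem P_count {V : Type} [Fintype V] (G : SimpleGraph V) (D k : ℕ)
    (hdeg : ∀ v, (nb G v).card ≤ D) (p : V × V) (B : Finset (V × Fin k)) (hB : B.Nonempty)
    (g : V × Fin k → Fin 6) (hg : Set.InjOn g B) :
    (univ.filter fun t : (Fin 6 → V) × (Fin k × Fin k) =>
      wP G p t ≠ 0 ∧ ∀ x ∈ B, siteP t (g x) = x).card ≤
      (if B.card ≤ 3 then k else 1) * D ^ (6 - B.card) := by
  obtain ⟨x0, hx0⟩ := hB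
  let b : Fin 6 → V := fun i => if h : ∃ x ∈ B, g x = i then h.choose.1 else x0.1
  have hb : ∀ x ∈ B, b (g x) = x.1 := by
    intro x hx
    have h : ∃ y ∈ B, g y = g x := ⟨x, hx, rfl⟩
    have h2 := h.choose_spec
    have h3 : h.choose = x := hg (mem_coe.2 h2.1) (mem_coe.2 hx) h2.2
    simp only [b, dif_pos h]
    rw [h3]
  have hPne : (B.image g).Nonempty := ⟨g x0, mem_image_of_mem g hx0⟩
  have hPc : (B.image g).card = B.card := card_image_of_injOn hg
  have hW := walk_count G D hdeg 6 (B.image g) hPne b
  rw [hPc] at hW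
  have hcol : ∃ Cs : Finset (Fin k × Fin k), Cs.card ≤ (if B.card ≤ 3 then k else 1) ∧
      ∀ t : (Fin 6 → V) × (Fin k × Fin k), (∀ x ∈ B, siteP t (g x) = x) → t.2 ∈ Cs := by
    by_cases hc : B.card ≤ 3
    · rw [if_pos hc]
      by_cases h0 : ((g x0 : Fin 6) : ℕ) % 2 = 0
      · refine ⟨({x0.2} : Finset (Fin k)) ×ˢ univ, ?_, ?_⟩
        · rw [card_product, card_singleton, card_univ, Fintype.card_fin, one_mul]
        · intro t ht
          have h1 := congrArg Prod.snd (ht x0 hx0)
          simp only [siteP, if_pos h0] at h1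
          rw [mem_product]
          exact ⟨by rw [h1]; exact mem_singleton_self _, mem_univ _⟩
      · refine ⟨(univ : Finset (Fin k)) ×ˢ {x0.2}, ?_, ?_⟩
        · rw [card_product, card_singleton, card_univ, Fintype.card_fin, mul_one]
        · intro t ht
          have h1 := congrArg Prod.snd (ht x0 hx0)
          simp only [siteP, if_neg h0] at h1
          rw [mem_product]
          exact ⟨mem_univ _, by rw [h1]; exact mem_singleton_self _⟩
    · rw [if_neg hc]
      have he : ∃ x ∈ B, ((g x : Fin 6) : ℕ) % 2 = 0 := by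
        by_contra hno
        push Not at hno
        apply hc
        rw [← hPc]
        refine dp1_parity _ 1 fun i hi => ?_
        obtain ⟨x, hx, rfl⟩ := mem_image.1 hi
        have := hno x hx
        omega
      have ho : ∃ x ∈ B, ¬ ((g x : Fin 6) : ℕ) % 2 = 0 := by
        by_contra hno
        push Not at hno
        apply hc
        rw [← hPc]
        refine dp1_parity _ 0 fun i hi => ?_
        obtain ⟨x, hx, rfl⟩ := mem_image.1 hi
        exact hno x hx
      obtain ⟨x1, hx1, h1⟩ := he
      obtain ⟨x2, hx2, h2⟩ := ho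
      refine ⟨{(x1.2, x2.2)}, by rw [card_singleton], ?_⟩
      intro t ht
      have h3 := congrArg Prod.snd (ht x1 hx1)
      have h4 := congrArg Prod.snd (ht x2 hx2)
      simp only [siteP, if_pos h1] at h3
      simp only [siteP, if_neg h2] at h4
      rw [mem_singleton]
      exact Prod.ext h3 h4
  obtain ⟨Cs, hCs, hCs2⟩ := hcol
  have hsub : (univ.filter fun t : (Fin 6 → V) × (Fin k × Fin k) =>
      wP G p t ≠ 0 ∧ ∀ x ∈ B, siteP t (g x) = x) ⊆
      (univ.filter fun v : Fin 6 → V => IsWalk G v ∧ ∀ i ∈ B.image g, v i = b i) ×ˢ Cs := by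
    intro t ht
    obtain ⟨_, ht1, ht2⟩ := mem_filter.1 ht
    refine mem_product.2 ⟨mem_filter.2 ⟨mem_univ _, ?_, ?_⟩, hCs2 t ht2⟩
    · by_contra hno
      apply ht1
      unfold wP
      rw [if_neg fun h => hno h.2.1]
    · intro i hi
      obtain ⟨x, hx, rfl⟩ := mem_image.1 hi
      rw [hb x hx]
      exact congrArg Prod.fst (ht2 x hx)
  refine (card_le_card hsub).trans ?_
  rw [card_product, mul_comm]
  exact Nat.mul_le_mul hCs hW

end Pool.Agent.Lib.H93B
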