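import Pool.Agent.Lib.H93B.Ball

/-!
# H93B, DS1: states: start and monotonicity

See `PROOF.md`.
-/

set_option autoImplicit false

open Finset
open scoped Classical

namespace Pool.Agent.Lib.H93B

/-- THE START: nothing is coloured, `om = 1/r^4`, `x = 1`, `C1 = C3 = 0`, `L = 1`. There are no mono
pairs; `o3` is `FamHyp.start`. -/
theorem start_state {V : Type} [Fintype V] {k : ℕ} (c : Cst) (r : ℝ) (G : SimpleGraph V)
    (F : Fam V k) (hF : FamHyp r G F) :
    IsState c r G F (fun _ => none) (fun _ => 1 / r ^ 4) 1 0 0 1 := by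
  have hm : ∀ y z : V, ¬ Mono (fun _ : V => (none : Option (Fin k))) y z := by
    rintro y z ⟨-, col, h1, -⟩
    exact absurd h1 (by simp)
  refine ⟨?_, ?_, ?_, ?_, ?_, ?_, fun _ => le_rfl, ?_, ?_⟩
  · intro u v _ col h
    exact absurd h (by simp)
  · intro p q s t _ _ _ _ h
    exact absurd h (hm _ _)
  · intro y z h
    exact absurd h (hm _ _)
  · intro v
    rw [Finset.filter_false_of_mem (fun f _ h => hm _ _ h.2.2)]
    simp
  · intro w w' _ _
    rw [one_mul]
    unfold cd
    exact_mod_cast Finset.card_le_card Finset.inter_subset_right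
  · intro w w' _ _
    rw [Finset.filter_false_of_mem (fun f _ h => hm _ _ h.2.1)]
    simp
  · intro v col h
    exact absurd h (by simp)
  · intro f B
    rw [one_mul]
    exact hF.start f B

/-- monotonicity in the parameters -/
theorem IsState.mono {V : Type} [Fintype V] {k : ℕ} {c : Cst} {r : ℝ} {G : SimpleGraph V}
    {F : Fam V k} {φ : V → Option (Fin k)} {om : V × Fin k → ℝ} {x C1 C3 L x' C1' C3' L' : ℝ}
    (h : IsState c r G F φ om x C1 C3 L) (hβ : ∀ f, 0 < F.β f) (hx : x ≤ x') (h1 : C1 ≤ C1')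
    (h3 : C3 ≤ C3') (hL : L ≤ L') : IsState c r G F φ om x' C1' C3' L' := by
  refine ⟨h.v1, h.v2, h.v3, ?_, ?_, ?_, h.o1, h.o2, ?_⟩
  · intro v
    exact (h.i1 v).trans (mul_le_mul_of_nonneg_right h1 (sq_nonneg r))
  · intro w w' hw hc
    have h0 : 0 ≤ cd G w w' := by
      unfold cd
      exact Nat.cast_nonneg _
    exact (h.i2 w w' hw hc).trans (mul_le_mul_of_nonneg_right hx h0)
  · intro w w' hw hc
    have h0 : 0 ≤ cd G w w' := by
      unfold cd
      exact Nat.cast_nonneg _
    exact (h.i3 w w' hw hc).trans (mul_le_mul_of_nonneg_right h3 h0)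
  · intro f B
    exact (h.o3 f B).trans (mul_le_mul_of_nonneg_right hL (hβ f).le)

end Pool.Agent.Lib.H93B
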