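import Pool.Agent.Lib.H93B.DF1
import Pool.Agent.Lib.H93C.F8

/-!
# H93B, DU: uncolouring the vertices on long two-coloured paths (definitions)

See `PROOF.md`.
-/

set_option autoImplicit false

open Finset
open scoped Classical

namespace Pool.Agent.Lib.H93B

/-- a two-coloured path with 6 vertices starts in `u` -/
def PW {V : Type} [Fintype V] (G : SimpleGraph V) {k : ℕ} (φ : V → Option (Fin k)) (u : V) : Prop :=
  ∃ (v : Fin 6 → V) (a b : Fin k), v 0 = u ∧ IsWalk G v ∧ Alt v ∧ a ≠ b ∧
    ∀ i : Fin 6, φ (v i) = some (if (i : ℕ) % 2 = 0 then a else b)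

/-- uncolour these vertices -/
noncomputable def unW {V : Type} [Fintype V] (G : SimpleGraph V) {k : ℕ}
    (φ : V → Option (Fin k)) (u : V) : Option (Fin k) := if PW G φ u then none else φ u

theorem unW_some {V : Type} [Fintype V] {G : SimpleGraph V} {k : ℕ} {φ : V → Option (Fin k)}
    {u : V} {a : Fin k} (h : unW G φ u = some a) : φ u = some a ∧ ¬ PW G φ u := by
  unfold unW at h
  by_cases hp : PW G φ u
  · simp [hp] at h
  · exact ⟨by simpa [hp] using h, hp⟩

end Pool.Agent.Lib.H93B
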