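import Pool.Agent.Lib.H93B.DU

/-!
# H93B, DU1: no two-coloured cycles are left

See `PROOF.md`.
-/

set_option autoImplicit false

open Finset
open scoped Classical

namespace Pool.Agent.Lib.H93B

theorem du1_walk {V : Type} (G : SimpleGraph V) {a b c d e f : V}
    (h1 : G.Adj a b) (h2 : G.Adj b c) (h3 : G.Adj c d) (h4 : G.Adj d e) (h5 : G.Adj e f) :
    IsWalk G ![a, b, c, d, e, f] := by
  intro i j hij
  fin_cases i <;> fin_cases j <;> simp at hij <;> assumption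

theorem du1_alt {V : Type} {a b c d e f : V}
    (h1 : a ≠ c) (h2 : a ≠ e) (h3 : c ≠ e) (h4 : b ≠ d) (h5 : b ≠ f) (h6 : d ≠ f) :
    Alt ![a, b, c, d, e, f] := by
  intro i j hij hm
  fin_cases i <;> fin_cases j <;> simp at hm hij <;>
    first
    | exact h1
    | exact h2
    | exact h3
    | exact h4
    | exact h5
    | exact h6
    | exact h1.symm
    | exact h2.symm
    | exact h3.symm
    | exact h4.symm
    | exact h5.symm
    | exact h6.symm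

theorem du1_core {V : Type} [Fintype V] (G : SimpleGraph V) {k : ℕ} (φ : V → Option (Fin k))
    (v1 : ∀ u v, G.Adj u v → ∀ col, φ u = some col → φ v ≠ some col)
    (v2 : ∀ p q s t, G.Adj p q → G.Adj q s → G.Adj s t → G.Adj t p → Mono φ p s → ¬ Mono φ q t)
    (a b : Fin k) (hab : a ≠ b) (Z : Finset V)
    (hZ : ∀ z ∈ Z, (φ z = some a ∨ φ z = some b) ∧ ¬ PW G φ z)
    (h2 : ∀ z ∈ Z, 1 < (Z.filter fun w => G.Adj z w).card) (x0 : V) (hx0 : x0 ∈ Z)
    (hc0 : φ x0 = some a) : False := by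
  have hnext : ∀ z ∈ Z, ∀ w : V, ∃ y ∈ Z, G.Adj z y ∧ y ≠ w := by
    intro z hz w
    obtain ⟨y, hy, hyw⟩ := Finset.exists_mem_ne (h2 z hz) w
    rw [mem_filter] at hy
    exact ⟨y, hy.1, hy.2, hyw⟩
  have altA : ∀ z ∈ Z, ∀ y ∈ Z, G.Adj z y → φ z = some a → φ y = some b := by
    intro z _ y hy hzy hz
    rcases (hZ y hy).1 with h | h
    · exact absurd h (v1 z y hzy a hz)
    · exact h
  have altB : ∀ z ∈ Z, ∀ y ∈ Z, G.Adj z y → φ z = some b → φ y = some a := by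
    intro z _ y hy hzy hz
    rcases (hZ y hy).1 with h | h
    · exact h
    · exact absurd h (v1 z y hzy b hz)
  obtain ⟨x1, hx1, a01, -⟩ := hnext x0 hx0 x0
  obtain ⟨x2, hx2, a12, n20⟩ := hnext x1 hx1 x0
  obtain ⟨x3, hx3, a23, n31⟩ := hnext x2 hx2 x1
  obtain ⟨x4, hx4, a34, n42⟩ := hnext x3 hx3 x2
  obtain ⟨x5, hx5, a45, n53⟩ := hnext x4 hx4 x3
  have c1 := altA x0 hx0 x1 hx1 a01 hc0
  have c2 := altB x1 hx1 x2 hx2 a12 c1
  have c3 := altA x2 hx2 x3 hx3 a23 c2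
  have c4 := altB x3 hx3 x4 hx4 a34 c3
  have c5 := altA x4 hx4 x5 hx5 a45 c4
  have n04 : x0 ≠ x4 := by
    rintro rfl
    exact v2 x0 x1 x2 x3 a01 a12 a23 a34 ⟨n20.symm, a, hc0, c2⟩ ⟨n31.symm, b, c1, c3⟩
  have n15 : x1 ≠ x5 := by
    rintro rfl
    exact v2 x1 x2 x3 x4 a12 a23 a34 a45 ⟨n31.symm, b, c1, c3⟩ ⟨n42.symm, a, c2, c4⟩
  refine (hZ x0 hx0).2 ⟨![x0, x1, x2, x3, x4, x5], a, b, rfl, du1_walk G a01 a12 a23 a34 a45,
    du1_alt n20.symm n04 n42.symm n31.symm n15 n53.symm, hab, ?_⟩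
  intro i
  fin_cases i <;> simp [hc0, c1, c2, c3, c4, c5]

/-- NO CYCLE IS LEFT. Let `Z` be nonempty in the union of two classes `a ≠ b` of `unW G φ`, and suppose
that every `z ∈ Z` has at least two neighbours in `Z`. Choose `v0 ∈ Z`, `v1 ∈ Z` adjacent to `v0`, and
`v_(i+1) ∈ Z` adjacent to `v_i` with `v_(i+1) ≠ v_(i-1)`, `i = 1, .., 4`. The colouring is proper (`v1`),
so the colours alternate, and `v_i ≠ v_(i+2)` by choice, `v0 ≠ v4` (else `v0 v1 v2 v3` is a 4-cycle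
with `Mono φ v0 v2`, `Mono φ v1 v3`, against `v2`) and in the same way `v1 ≠ v5`. So `PW G φ v0`, but
`v0` is coloured by `unW G φ`. -/
theorem forest_unW {V : Type} [Fintype V] (G : SimpleGraph V) {k : ℕ} (φ : V → Option (Fin k))
    (v1 : ∀ u v, G.Adj u v → ∀ col, φ u = some col → φ v ≠ some col)
    (v2 : ∀ p q s t, G.Adj p q → G.Adj q s → G.Adj s t → G.Adj t p → Mono φ p s → ¬ Mono φ q t)
    (a b : Fin k) (hab : a ≠ b) :
    H93A.CoreFree G {v | unW G φ v = some a ∨ unW G φ v = some b} := by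
  intro Z hZn hZ
  by_contra hcon
  push Not at hcon
  have h2 : ∀ z ∈ Z, 1 < (Z.filter fun w => G.Adj z w).card := hcon
  have hZ1 : ∀ z ∈ Z, (φ z = some a ∨ φ z = some b) ∧ ¬ PW G φ z := by
    intro z hz
    rcases hZ z hz with h | h
    · exact ⟨Or.inl (unW_some h).1, (unW_some h).2⟩
    · exact ⟨Or.inr (unW_some h).1, (unW_some h).2⟩
  obtain ⟨x0, hx0⟩ := hZn
  rcases (hZ1 x0 hx0).1 with h | h
  · exact du1_core G φ v1 v2 a b hab Z hZ1 h2 x0 hx0 h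
  · exact du1_core G φ v1 v2 b a hab.symm Z (fun z hz => ⟨(hZ1 z hz).1.symm, (hZ1 z hz).2⟩) h2 x0 hx0 h

end Pool.Agent.Lib.H93B
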