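import Pool.Agent.Lib.H93B.DF
import Pool.Agent.Lib.H93B.Ball

/-!
# H93B, DW1: the number of walks with prescribed vertices

See `PROOF.md`.
-/

set_option autoImplicit false

open Finset
open scoped Classical

namespace Pool.Agent.Lib.H93B

theorem dw1_fib {V : Type} [Fintype V] (G : SimpleGraph V) (D : ℕ)
    (hdeg : ∀ v, (nb G v).card ≤ D) {m : ℕ} (W : Finset (Fin (m + 2) → V)) (e : Fin (m + 1) → Fin (m + 2))
    (z : Fin (m + 2)) (q : Fin (m + 1)) (hz : ∀ i, i = z ∨ ∃ j, e j = i)
    (hadj : ∀ v ∈ W, G.Adj (v (e q)) (v z)) (u : Fin (m + 1) → V) :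
    (W.filter fun v => (fun i => v (e i)) = u).card ≤ D := by
  refine (card_le_card_of_injOn (t := nb G (u q)) (fun v => v z) ?_ ?_).trans (hdeg (u q))
  · intro v hv
    have hv2 := mem_filter.1 (mem_coe.1 hv)
    have h3 := hadj v hv2.1
    have h4 : v (e q) = u q := congrFun hv2.2 q
    rw [h4] at h3
    exact mem_coe.2 (mem_nb.2 h3)
  · intro v hv w hw h
    have hv2 := mem_filter.1 (mem_coe.1 hv)
    have hw2 := mem_filter.1 (mem_coe.1 hw)
    funext i
    rcases hz i with rfl | ⟨j, rfl⟩
    · exact h
    · exact congrFun (hv2.2.trans hw2.2.symm) j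

theorem dw1_step {V : Type} [Fintype V] (G : SimpleGraph V) (D : ℕ)
    (hdeg : ∀ v, (nb G v).card ≤ D) {m : ℕ} (e : Fin (m + 1) → Fin (m + 2)) (he : Function.Injective e)
    (z : Fin (m + 2)) (q : Fin (m + 1)) (hz : ∀ i, i = z ∨ ∃ j, e j = i)
    (hw : ∀ v : Fin (m + 2) → V, IsWalk G v → IsWalk G (fun i => v (e i)) ∧ G.Adj (v (e q)) (v z))
    (P : Finset (Fin (m + 2))) (hP : P.Nonempty) (hPr : ∀ i ∈ P, ∃ j, e j = i) (b : Fin (m + 2) → V)
    (ih : ∀ P : Finset (Fin (m + 1)), P.Nonempty → ∀ b : Fin (m + 1) → V,
      (univ.filter fun v : Fin (m + 1) → V => IsWalk G v ∧ ∀ i ∈ P, v i = b i).card ≤ D ^ (m + 1 - P.card)) :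
    (univ.filter fun v : Fin (m + 2) → V => IsWalk G v ∧ ∀ i ∈ P, v i = b i).card ≤ D ^ (m + 2 - P.card) := by
  set P' : Finset (Fin (m + 1)) := univ.filter fun i => e i ∈ P with hP'
  have himg : P'.image e = P := by
    ext i
    rw [mem_image]
    constructor
    · rintro ⟨j, hj, rfl⟩
      exact (mem_filter.1 hj).2
    · intro hi
      obtain ⟨j, rfl⟩ := hPr i hi
      exact ⟨j, mem_filter.2 ⟨mem_univ _, hi⟩, rfl⟩
  have hcard : P'.card = P.card := by
    rw [← himg, card_image_of_injective _ he]
  have hne : P'.Nonempty := by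
    rw [← card_pos, hcard]
    exact card_pos.2 hP
  have hle : P'.card ≤ m + 1 := by
    have := card_le_univ P'
    rwa [Fintype.card_fin] at this
  set W := univ.filter fun v : Fin (m + 2) → V => IsWalk G v ∧ ∀ i ∈ P, v i = b i with hW
  have hadj : ∀ v ∈ W, G.Adj (v (e q)) (v z) := fun v hv => (hw v (mem_filter.1 hv).2.1).2
  have h1 := card_le_mul_card_image (f := fun (v : Fin (m + 2) → V) (i : Fin (m + 1)) => v (e i)) W D
    (fun u _ => dw1_fib G D hdeg W e z q hz hadj u)
  have h2 : (W.image fun (v : Fin (m + 2) → V) (i : Fin (m + 1)) => v (e i)).card ≤ D ^ (m + 1 - P'.card) := by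
    refine (card_le_card ?_).trans (ih P' hne fun i => b (e i))
    intro u hu
    obtain ⟨v, hv, rfl⟩ := mem_image.1 hu
    obtain ⟨_, hv1, hv2⟩ := mem_filter.1 hv
    refine mem_filter.2 ⟨mem_univ _, (hw v hv1).1, fun i hi => ?_⟩
    exact hv2 (e i) (mem_filter.1 hi).2
  calc W.card ≤ D * (W.image fun (v : Fin (m + 2) → V) (i : Fin (m + 1)) => v (e i)).card := h1
    _ ≤ D * D ^ (m + 1 - P'.card) := Nat.mul_le_mul_left _ h2
    _ = D ^ (m + 2 - P.card) := by
      rw [← pow_succ', ← hcard]
      congr 1
      omega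

/-- At most `D^(n - |P|)` walks with `n` vertices have prescribed vertices at the positions in the
nonempty set `P`. Proof: induction on `n`. `n = 0`: `P` is empty. `n = 1`: `P = {0}`, at most one
function. Let `n + 1 ≥ 2`, `ℓ = Fin.last n`.
Case `ℓ ∈ P ≠ {ℓ}`: `v ↦ v ∘ Fin.castSucc` is injective on the set (`v ℓ = b ℓ`) and maps into the
walks with `n` vertices and prescribed vertices at `P' = {i | i.castSucc ∈ P}`, `|P'| = |P| - 1`,
`D^(n - |P'|) = D^(n + 1 - |P|)`. Case `ℓ ∉ P`: the fibres of `v ↦ v ∘ Fin.castSucc` have at most `D`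
elements (`v ℓ ∈ nb G (v (ℓ - 1))`), `|P'| = |P|`: `D * D^(n - |P|)`. Case `P = {ℓ}`: use
`v ↦ v ∘ Fin.succ` (fibres at most `D`, `v 0 ∈ nb G (v 1)`), and `P' = {i | i.succ ∈ P} = {Fin.last}`:
`D * D^(n - 1) = D^n`. (`Finset.card_le_mul_card_image` for the fibres.) -/
theorem walk_count {V : Type} [Fintype V] (G : SimpleGraph V) (D : ℕ)
    (hdeg : ∀ v, (nb G v).card ≤ D) (n : ℕ) (P : Finset (Fin n)) (hP : P.Nonempty)
    (b : Fin n → V) :
    (univ.filter fun v : Fin n → V => IsWalk G v ∧ ∀ i ∈ P, v i = b i).card ≤ D ^ (n - P.card) := by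
  induction n with
  | zero =>
    obtain ⟨i, _⟩ := hP
    exact i.elim0
  | succ n ih =>
    rcases n with _ | m
    · have hc : P.card = 1 := by
        have h1 := card_le_univ P
        rw [Fintype.card_fin] at h1
        have h2 := card_pos.2 hP
        omega
      rw [hc]
      simp only [zero_add, Nat.sub_self, pow_zero]
      rw [card_le_one]
      intro v hv w hw
      obtain ⟨i0, hi0⟩ := hP
      funext i
      have hi : i = i0 := Fin.ext (by have h1 := i.2; have h2 := i0.2; omega)
      rw [hi, (mem_filter.1 hv).2.2 i0 hi0, (mem_filter.1 hw).2.2 i0 hi0]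
    · have hcast : ∀ v : Fin (m + 2) → V, IsWalk G v →
          IsWalk G (fun i : Fin (m + 1) => v i.castSucc) ∧ G.Adj (v (Fin.last m).castSucc) (v (Fin.last (m + 1))) := by
        intro v hv
        refine ⟨fun i j hij => hv _ _ ?_, hv _ _ ?_⟩
        · simpa using hij
        · simp
      have hsucc : ∀ v : Fin (m + 2) → V, IsWalk G v →
          IsWalk G (fun i : Fin (m + 1) => v i.succ) ∧ G.Adj (v (0 : Fin (m + 1)).succ) (v 0) := by
        intro v hv
        refine ⟨fun i j hij => hv _ _ ?_, (hv _ _ ?_).symm⟩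
        · simpa using hij
        · simp
      by_cases hl : Fin.last (m + 1) ∈ P
      · by_cases hP1 : P = {Fin.last (m + 1)}
        · refine dw1_step G D hdeg Fin.succ (Fin.succ_injective _) 0 0 ?_ hsucc P hP ?_ b ih
          · intro i
            rcases Fin.eq_zero_or_eq_succ i with h | ⟨j, h⟩
            · exact Or.inl h
            · exact Or.inr ⟨j, h.symm⟩
          · intro i hi
            rw [hP1, mem_singleton] at hi
            exact ⟨Fin.last m, by rw [hi, Fin.succ_last]⟩
        · set P' : Finset (Fin (m + 1)) := univ.filter fun i => i.castSucc ∈ P with hP'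
          have himg : P'.image Fin.castSucc = P.erase (Fin.last (m + 1)) := by
            ext i
            rw [mem_image, mem_erase]
            constructor
            · rintro ⟨j, hj, rfl⟩
              exact ⟨(Fin.castSucc_lt_last j).ne, (mem_filter.1 hj).2⟩
            · rintro ⟨h1, h2⟩
              refine ⟨i.castPred h1, mem_filter.2 ⟨mem_univ _, ?_⟩, Fin.castSucc_castPred i h1⟩
              rw [Fin.castSucc_castPred]
              exact h2
          have hcard : P'.card = P.card - 1 := by
            rw [← card_erase_of_mem hl, ← himg, card_image_of_injective _ (Fin.castSucc_injective _)]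
          have hc2 : 2 ≤ P.card := by
            by_contra h
            have h1 := card_pos.2 hP
            have h2 : P.card = 1 := by omega
            obtain ⟨x, hx⟩ := card_eq_one.1 h2
            apply hP1
            rw [hx] at hl ⊢
            rw [mem_singleton.1 hl]
          have hne : P'.Nonempty := by
            rw [← card_pos, hcard]
            omega
          have hle : P.card ≤ m + 2 := by
            have := card_le_univ P
            rwa [Fintype.card_fin] at this
          have h1 := ih P' hne fun i => b i.castSucc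
          have h2 : (univ.filter fun v : Fin (m + 2) → V => IsWalk G v ∧ ∀ i ∈ P, v i = b i).card
              ≤ (univ.filter fun v : Fin (m + 1) → V => IsWalk G v ∧ ∀ i ∈ P', v i = b i.castSucc).card := by
            refine card_le_card_of_injOn (fun v i => v i.castSucc) ?_ ?_
            · intro v hv
              obtain ⟨_, hv1, hv2⟩ := mem_filter.1 (mem_coe.1 hv)
              refine mem_coe.2 (mem_filter.2 ⟨mem_univ _, (hcast v hv1).1, fun i hi => ?_⟩)
              exact hv2 _ (mem_filter.1 hi).2
            · intro v hv w hw h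
              obtain ⟨_, hv1, hv2⟩ := mem_filter.1 (mem_coe.1 hv)
              obtain ⟨_, hw1, hw2⟩ := mem_filter.1 (mem_coe.1 hw)
              funext i
              refine Fin.lastCases ?_ (fun j => ?_) i
              · rw [hv2 _ hl, hw2 _ hl]
              · exact congrFun h j
          refine h2.trans (h1.trans ?_)
          have h3 : m + 1 - P'.card = m + 1 + 1 - P.card := by omega
          rw [h3]
      · refine dw1_step G D hdeg Fin.castSucc (Fin.castSucc_injective _) (Fin.last (m + 1)) (Fin.last m) ?_ hcast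
          P hP ?_ b ih
        · intro i
          by_cases h : i = Fin.last (m + 1)
          · exact Or.inl h
          · exact Or.inr ⟨i.castPred h, Fin.castSucc_castPred i h⟩
        · intro i hi
          have h : i ≠ Fin.last (m + 1) := fun h => hl (h ▸ hi)
          exact ⟨i.castPred h, Fin.castSucc_castPred i h⟩

end Pool.Agent.Lib.H93B
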