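import Pool.Agent.Lib.H93B.DF
import Pool.Agent.Lib.H93B.Ball

/-!
# H93B, DW3: walks stay in balls

See `PROOF.md`.
-/

set_option autoImplicit false

open Finset
open scoped Classical

namespace Pool.Agent.Lib.H93B

theorem dw3_up {V : Type} [Fintype V] {G : SimpleGraph V} {n : ℕ} (v : Fin n → V)
    (h : IsWalk G v) (d : ℕ) : ∀ i j : Fin n, (j : ℕ) = i + d → v j ∈ ball G d (v i) := by
  induction d with
  | zero =>
    intro i j hij
    have : j = i := Fin.ext (by simpa using hij)
    rw [this]
    exact self_mem_ball 0 _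
  | succ d ih =>
    intro i j hij
    have hlt : (i : ℕ) + d < n := by
      have := j.2
      omega
    have h1 := ih i ⟨i + d, hlt⟩ rfl
    refine mem_ball_succ.2 ⟨_, h1, Or.inr (h _ _ ?_)⟩
    simp only
    omega

/-- The vertices of a walk at positions of distance at most `m` have distance at most `m`.
Proof: by `mem_ball_comm` one may assume `i ≤ j`; induction on `j - i` with `mem_ball_one_of_adj`,
`ball_triangle`, `ball_mono`. -/
theorem walk_ball {V : Type} [Fintype V] {G : SimpleGraph V} {n : ℕ} (v : Fin n → V)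
    (h : IsWalk G v) (i j : Fin n) (m : ℕ) (h1 : (i : ℕ) ≤ j + m) (h2 : (j : ℕ) ≤ i + m) :
    v j ∈ ball G m (v i) := by
  rcases le_total (i : ℕ) (j : ℕ) with hij | hij
  · have h3 := dw3_up v h (j - i) i j (by omega)
    exact ball_mono (by omega) _ h3
  · have h3 := dw3_up v h (i - j) j i (by omega)
    exact mem_ball_comm.1 (ball_mono (by omega) _ h3)

end Pool.Agent.Lib.H93B
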