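import Pool.Agent.Lib.Prob48.LLL
import Pool.Agent.Lib.H93A.CDefs
import Pool.Agent.Lib.H93D.Reach

/-!
# H93B: common definitions

See `PROOF.md`. Everything the modules A (section 5), B (sections 3, 4), C (sections 1, 6) and
D (sections 7, 8, 9) have in common.
Mono pairs and labels are ORDERED pairs `(y, z)`, `y ≠ z`. `r = D^(1/3)`, so `N = r^4`.
Tuple functionals and statistics are set based: tokens `t : T` with weight `w t` and support
`ρ t : Finset X`.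
-/

set_option autoImplicit false

open Finset
open scoped Classical
open Pool.Agent.Lib.Prob48

namespace Pool.Agent.Lib.H93B

/-! ## 1. The selection theorem -/

/-- The data of the selection theorem (`PROOF.md`, section 2). -/
structure SelData (Q R M : Type) where
  /-- the candidates -/
  H : Finset (Q × R)
  /-- first coordinates of the candidates with the label `f` -/
  A : M → Finset Q
  /-- second coordinates of the candidates with the label `f` -/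
  B : M → Finset R
  /-- conflicts -/
  conf : Q × R → Q × R → Prop

namespace SelData

variable {Q R M : Type} [Fintype M] (D : SelData Q R M)

/-- the labels of `x` -/
noncomputable def J (x : Q × R) : Finset M := H93A.Jset D.A D.B x

/-- `x` and `y` have a common label -/
def Share (x y : Q × R) : Prop := ¬ Disjoint (D.J x) (D.J y)

/-- adjacency of candidates -/
def Adj (x y : Q × R) : Prop := x ∈ D.H ∧ y ∈ D.H ∧ (x = y ∨ D.conf x y ∨ D.Share x y)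

/-- the location `l` is at `x` or at a label of `x` -/
def near (l : (Q × R) ⊕ M) (x : Q × R) : Prop := l = Sum.inl x ∨ ∃ f ∈ D.J x, l = Sum.inr f

/-- `y` is within adjacency distance `n` of `x` -/
def Within : ℕ → Q × R → Q × R → Prop
  | 0, x, y => x = y
  | n + 1, x, y => x = y ∨ ∃ z, D.Adj x z ∧ Within n z y

end SelData

/-- The hypotheses of the selection theorem. -/
structure SelHyp {Q R M : Type} [Fintype M] (D : SelData Q R M) (K N : ℝ) (j0 : ℕ) : Prop where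
  hK : 1 ≤ K
  hN : 1 ≤ N
  cardA : ∀ f, ((D.A f).card : ℝ) ≤ K * Real.sqrt N
  cardB : ∀ f, ((D.B f).card : ℝ) ≤ K * Real.sqrt N
  cardJ : ∀ x ∈ D.H, (D.J x).card ≤ j0
  conf_symm : ∀ x y, D.conf x y → D.conf y x
  conf_irrefl : ∀ x, ¬ D.conf x x
  conf_card : ∀ x ∈ D.H, ((D.H.filter fun y => D.conf x y).card : ℝ) ≤ K * N
  conf_not : ∀ x ∈ D.H, ∀ y ∈ D.H, x.1 ≠ y.1 → x.2 ≠ y.2 → (x.1, y.2) ∈ D.H → ¬ D.conf x y

/-- A random selection: a finite product space with coordinates `i : ι`, each with values in `Val`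
and located at a candidate or at a label, and a map `S` into the sets of candidates. -/
structure Sel (Q R M : Type) where
  ι : Type
  Val : Type
  [fι : Fintype ι]
  [dι : DecidableEq ι]
  [fV : Fintype Val]
  /-- the weights of the coordinates -/
  μ : Weights (fun _ : ι => Val)
  loc : ι → (Q × R) ⊕ M
  /-- the value is one -/
  one : Val → Prop
  S : (ι → Val) → Finset (Q × R)

attribute [instance] Sel.fι Sel.dι Sel.fV

/-- the active elements: some coordinate located at `x` is one -/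
noncomputable def Sel.act {Q R M : Type} [Fintype Q] [Fintype R] (s : Sel Q R M)
    (w : s.ι → s.Val) : Finset (Q × R) :=
  univ.filter fun x => ∃ i, s.loc i = Sum.inl x ∧ s.one (w i)

/-- Structural properties of a selection ((T1) first half and (T5) of `PROOF.md`). -/
structure SelBase {Q R M : Type} [Fintype Q] [Fintype R] [Fintype M] (D : SelData Q R M)
    (s : Sel Q R M) (N Cw : ℝ) (nc d : ℕ) : Prop where
  locH : ∀ i x, s.loc i = Sum.inl x → x ∈ D.H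
  locCard : ∀ l, (univ.filter fun i => s.loc i = l).card ≤ nc
  /-- the rate of `x`: sum of the probabilities that a coordinate located at `x` is one -/
  rate : ∀ x, ∑ i ∈ univ.filter (fun i => s.loc i = Sum.inl x),
    ∑ b ∈ univ.filter (fun b => s.one b), s.μ.w i b ≤ Cw / N
  act : ∀ w, s.S w ⊆ s.act w
  path : ∀ i (w w' : s.ι → s.Val), (∀ j, j ≠ i → w j = w' j) → ∀ x, ¬ (x ∈ s.S w ↔ x ∈ s.S w') →
    H93D.Reach D.Adj (D.near (s.loc i)) (s.act w ∪ s.act w') d x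

/-- Quantitative properties of a selection ((T1) second half, (T2), (T3), (T4)). -/
structure SelProb {Q R M : Type} [Fintype M] (D : SelData Q R M)
    (s : Sel Q R M) (N a lam sig kill : ℝ) : Prop where
  noconf : ∀ w, ∀ x ∈ s.S w, ∀ y ∈ s.S w, ¬ D.conf x y
  lower : ∀ x ∈ D.H, lam * a / N ≤ s.μ.P (fun w => x ∈ s.S w)
  upper : ∀ x ∈ D.H, s.μ.P (fun w => x ∈ s.S w) ≤ sig * a / N
  joint : ∀ Z : Finset (Q × R), Z ⊆ D.H → Z.card ≤ 4 →
    (∀ x ∈ Z, ∀ y ∈ Z, x ≠ y → ¬ D.Share x y) →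
    s.μ.P (fun w => Z ⊆ s.S w) ≤ 2 * (sig * a / N) ^ Z.card
  kills : ∀ f, s.μ.P (fun w => ∃ x ∈ s.S w, f ∈ D.J x) ≤ kill * a

/-- `I = j0² + 1` -/
def Iof (j0 : ℕ) : ℝ := (j0 : ℝ) ^ 2 + 1

/-- Theorem 2.1 for given constants: the output of module B is
`theorem selection (K Λ : ℝ) (j0 : ℕ) (hK : 1 ≤ K) (hΛ : 1 ≤ Λ) (hj : 1 ≤ j0) :
  ∃ a0 : ℝ, 0 < a0 ∧ ∀ a, 0 < a → a ≤ a0 → ∃ (N1 Cw : ℝ) (nc d : ℕ), 0 ≤ Cw ∧
    SelFor K Λ j0 a N1 Cw nc d`. -/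
def SelFor (K Λ : ℝ) (j0 : ℕ) (a N1 Cw : ℝ) (nc d : ℕ) : Prop :=
  ∀ (Q R M : Type) [Fintype Q] [Fintype R] [Fintype M] [Nonempty M] (D : SelData Q R M) (N : ℝ),
    N1 ≤ N → SelHyp D K N j0 → ∃ s : Sel Q R M, SelBase D s N Cw nc d ∧
      SelProb D s N a (Iof j0 * Λ / 8) (4 * Iof j0 * Λ) (4 * Iof j0)

/-! ## 2. Functionals and statistics -/

section Tok

variable {X T : Type} [Fintype T] (w : T → ℝ) (ρ : T → Finset X)

/-- the functional `F_om(B)` -/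
noncomputable def tf (om : X → ℝ) (B : Finset X) : ℝ :=
  ∑ t, if B ⊆ ρ t then w t * ∏ x ∈ ρ t \ B, om x else 0

/-- the statistic: total weight of the tokens whose support is contained in `S` -/
noncomputable def st (S : Finset X) : ℝ := ∑ t, if ρ t ⊆ S then w t else 0

/-- `Z` changes at most as much as the statistic of `w` -/
def Lip (Z : Finset X → ℝ) : Prop :=
  ∀ S S' : Finset X, |Z S - Z S'| ≤
    ∑ t, if ρ t ⊆ S ∪ S' ∧ ∃ x ∈ ρ t, x ∈ symmDiff S S' then w t else 0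

end Tok

/-- Proposition 5.4 for given constants: an output of module A is
`theorem conc (K Cw : ℝ) (j0 nc d : ℕ) (hK : 1 ≤ K) (hCw : 0 ≤ Cw) :
  ∃ c0 : ℕ, ConcFor K Cw j0 nc d c0`. -/
def ConcFor (K Cw : ℝ) (j0 nc d c0 : ℕ) : Prop :=
  ∀ m r : ℕ, ∃ C : ℝ, 0 ≤ C ∧ ∀ (Q R M : Type) [Fintype Q] [Fintype R] [Fintype M]
    (D : SelData Q R M) (s : Sel Q R M) (N : ℝ), Cw ≤ N → SelHyp D K N j0 →
    SelBase D s N Cw nc d → ∀ (T : Type) [Fintype T] (w : T → ℝ) (ρ : T → Finset (Q × R))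
    (Z : Finset (Q × R) → ℝ) (L : Finset (Q × R)), (∀ t, 0 ≤ w t) → (∀ t, (ρ t).card ≤ 4) →
    (∀ t, w t ≠ 0 → ∀ x ∈ ρ t, x ∈ D.H ∧ ∀ y, D.Within (d + 1) x y → y ∈ L) → Lip w ρ Z →
    ∀ Y Q0 Q1 τ : ℝ, 1 ≤ Y → (L.card : ℝ) ≤ Y ^ m → 0 ≤ Q0 → 0 < Q1 → 0 < τ →
    tf w ρ (fun _ => Cw / N) ∅ ≤ Q0 →
    (∀ B : Finset (Q × R), B.Nonempty → tf w ρ (fun _ => Cw / N) B ≤ Q1) →
    Y ^ c0 * ((Q0 + Q1) * Q1) ≤ τ ^ 2 →
    s.μ.P (fun v => τ ≤ |Z (s.S v) - s.μ.E (fun v' => Z (s.S v'))|) ≤ C / Y ^ r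

/-- Lemma 5.3 (domination) for given constants: an output of module A is
`theorem dom (q r : ℕ) (C : ℝ) (hC : 1 ≤ C) : ∃ C' : ℝ, 1 ≤ C' ∧ DomFor q r C C'`. -/
def DomFor (q r : ℕ) (C C' : ℝ) : Prop :=
  ∀ (X ι Val : Type) [Fintype X] [Fintype ι] [DecidableEq ι] [Fintype Val]
    (μ : Weights (fun _ : ι => Val)) (act : (ι → Val) → Finset X) (om om0 : X → ℝ)
    (T : Type) [Fintype T] (w : T → ℝ) (ρ : T → Finset X),
    (∀ z, 0 ≤ om0 z) → (∀ z, om0 z ≤ om z) →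
    (∀ Mk : Finset X, μ.P (fun v => Mk ⊆ act v) ≤ ∏ z ∈ Mk, C * om0 z) →
    (∀ t, 0 ≤ w t) → (∀ t, (ρ t).card ≤ q) → ∀ (B : Finset X) (β : ℝ),
    (∀ B', B ⊆ B' → tf w ρ om B' ≤ β) →
    μ.E (fun v => tf w ρ (fun z => om z + if z ∈ act v then 1 else 0) B ^ r) ≤ (C' * β) ^ r

/-! ## 3. Graphs and partial colourings -/

section Graph

variable {V : Type} [Fintype V] (G : SimpleGraph V)

/-- neighbours -/
noncomputable def nb (v : V) : Finset V := univ.filter fun u => G.Adj v u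

/-- common neighbours -/
noncomputable def co (u w : V) : Finset V := nb G u ∩ nb G w

/-- codegree -/
noncomputable def cd (u w : V) : ℝ := ((co G u w).card : ℝ)

/-- balls -/
noncomputable def ball : ℕ → V → Finset V
  | 0, v => {v}
  | n + 1, v => (ball n v).biUnion fun u => insert u (nb G u)

variable {k : ℕ} (φ : V → Option (Fin k))

/-- a colour class -/
noncomputable def cl (c : Fin k) : Finset V := univ.filter fun v => φ v = some c

/-- the uncoloured vertices -/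
noncomputable def unc : Finset V := univ.filter fun v => φ v = none

/-- mono pairs -/
def Mono (y z : V) : Prop := y ≠ z ∧ ∃ c, φ y = some c ∧ φ z = some c

end Graph

/-! ## 4. Constants, families of functionals, states -/

/-- The constants of the rounds (`PROOF.md`, section 9). -/
structure Cst where
  ε : ℝ
  γ : ℝ
  K0 : ℝ
  K2 : ℝ
  ρ0 : ℝ
  j0 : ℕ
  /-- bound for the parameter `C1` in all rounds -/
  C1m : ℝ
  /-- bound for the parameter `C3` in all rounds -/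
  C3m : ℝ
  Λ : ℝ
  a : ℝ

namespace Cst

variable (c : Cst)

noncomputable def K : ℝ := 3 + 1 / c.K0 + c.C1m * c.K0 + c.K2 + c.K0
noncomputable def lam : ℝ := Iof c.j0 * c.Λ / 8
noncomputable def sig : ℝ := 4 * Iof c.j0 * c.Λ
noncomputable def kill : ℝ := 4 * Iof c.j0

end Cst

/-- The conditions on the constants. -/
structure CstHyp (c : Cst) : Prop where
  ε_pos : 0 < c.ε
  ε_le : c.ε ≤ 1
  γ_pos : 0 < c.γ
  γ_le : c.γ ≤ 1
  K0_eq : c.K0 = 64 / c.ε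
  K2_eq : c.K2 = 64 * c.K0 / c.ε
  ρ0_pos : 0 < c.ρ0
  ρ0_le : c.ρ0 ≤ 1
  C1_one : 1 ≤ c.C1m
  C3_one : 1 ≤ c.C3m
  ρ0_C1 : c.ρ0 * c.C1m ≤ c.ε / 64
  j0_ge : 64 * c.C1m * c.K0 / c.ε ≤ c.j0
  Λ_one : 1 ≤ c.Λ
  Λ_ge : 640 * c.C3m ≤ c.γ * c.ε * c.Λ
  a_pos : 0 < c.a
  a_sig : c.sig * c.a ≤ 1
  a_cube : 2000 * c.sig ^ 3 * c.a ^ 2 ≤ c.ε * c.lam

/-- A family of functionals on `V × [k]`. -/
structure Fam (V : Type) (k : ℕ) where
  Φ : Type
  T : Φ → Type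
  [fΦ : Fintype Φ]
  [fT : ∀ f, Fintype (T f)]
  w : (f : Φ) → T f → ℝ
  ρ : (f : Φ) → T f → Finset (V × Fin k)
  β : Φ → ℝ
  anc : Φ → V

attribute [instance] Fam.fΦ Fam.fT

/-- Admissible families (`N = r^4`). -/
structure FamHyp {V : Type} [Fintype V] {k : ℕ} (r : ℝ) (G : SimpleGraph V) (F : Fam V k) :
    Prop where
  nonneg : ∀ f t, 0 ≤ F.w f t
  card_le : ∀ f t, (F.ρ f t).card ≤ 6
  near : ∀ f t, F.w f t ≠ 0 → ∀ x ∈ F.ρ f t, x.1 ∈ ball G 10 (F.anc f)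
  β_pos : ∀ f, 0 < F.β f
  anc_card : ∀ v, ((univ.filter fun f => F.anc f = v).card : ℝ) ≤ r ^ 20
  start : ∀ f B, tf (F.w f) (F.ρ f) (fun _ => 1 / r ^ 4) B ≤ F.β f
  ctrl : ∀ (om : V × Fin k → ℝ) (L : ℝ), (∀ z, 0 ≤ om z) →
    (∀ f B, tf (F.w f) (F.ρ f) om B ≤ L * F.β f) → ∀ v col, ∑ u ∈ nb G v, om (u, col) ≤ L

/-- States (`PROOF.md`, 1.1). -/
structure IsState {V : Type} [Fintype V] {k : ℕ} (c : Cst) (r : ℝ) (G : SimpleGraph V)
    (F : Fam V k) (φ : V → Option (Fin k)) (om : V × Fin k → ℝ) (x C1 C3 L : ℝ) : Prop where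
  v1 : ∀ u v, G.Adj u v → ∀ col, φ u = some col → φ v ≠ some col
  v2 : ∀ p q s t, G.Adj p q → G.Adj q s → G.Adj s t → G.Adj t p → Mono φ p s → ¬ Mono φ q t
  v3 : ∀ y z, Mono φ y z → cd G y z ≤ c.K0 * r ^ 2
  i1 : ∀ v, ((univ.filter fun f : V × V =>
    f.1 ∈ nb G v ∧ f.2 ∈ nb G v ∧ Mono φ f.1 f.2).card : ℝ) ≤ C1 * r ^ 2
  i2 : ∀ w w', w ≠ w' → c.ρ0 * r ^ 2 ≤ cd G w w' →
    ((unc φ ∩ co G w w').card : ℝ) ≤ x * cd G w w'
  i3 : ∀ w w', w ≠ w' → c.ρ0 * r ^ 2 ≤ cd G w w' →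
    ((univ.filter fun f : V × V =>
      f.1 ∈ co G w w' ∧ Mono φ f.1 f.2 ∧ c.ρ0 * r ^ 2 ≤ cd G f.1 f.2).card : ℝ) ≤
      C3 * cd G w w'
  o1 : ∀ z, 1 / r ^ 4 ≤ om z
  o2 : ∀ v col, φ v = some col → 1 ≤ om (v, col)
  o3 : ∀ f B, tf (F.w f) (F.ρ f) om B ≤ L * F.β f

/-! ## 5. The data of a round -/

section Round

variable {V : Type} [Fintype V] {k : ℕ} (c : Cst) (r : ℝ) (G : SimpleGraph V)
  (φ : V → Option (Fin k))

/-- heavy mono pairs = labels -/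
def HM (y z : V) : Prop := Mono φ y z ∧ c.ρ0 * r ^ 2 ≤ cd G y z

/-- `A_f` -/
noncomputable def labA (f : V × V) : Finset V :=
  if HM c r G φ f.1 f.2 then unc φ ∩ co G f.1 f.2 else ∅

/-- `B_f` -/
noncomputable def labB (f : V × V) : Finset (Fin k) :=
  if HM c r G φ f.1 f.2 then univ.filter fun col => ∃ w ∈ co G f.1 f.2, φ w = some col else ∅

/-- candidates (E1)-(E5) -/
structure IsCand (x : V × Fin k) : Prop where
  e0 : φ x.1 = none
  e1 : ∀ w ∈ nb G x.1, φ w ≠ some x.2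
  e2 : ∀ w ∈ cl φ x.2, cd G x.1 w ≤ c.K0 * r ^ 2
  e3 : ∑ w ∈ cl φ x.2, cd G x.1 w ^ 2 ≤ c.K2 * r ^ 4
  e4 : ∀ y ∈ nb G x.1, ∀ z ∈ nb G x.1, Mono φ y z → cd G y z < c.ρ0 * r ^ 2 →
    ∀ w ∈ co G y z, φ w ≠ some x.2
  e5 : (H93A.Jset (labA c r G φ) (labB c r G φ) x).card ≤ c.j0

/-- conflicts (a), (b), (c) -/
def Conf (x y : V × Fin k) : Prop :=
  x ≠ y ∧ (x.1 = y.1 ∨
    (x.2 = y.2 ∧ (G.Adj x.1 y.1 ∨ c.K0 * r ^ 2 < cd G x.1 y.1 ∨
      ∃ p ∈ co G x.1 y.1, ∃ q ∈ co G x.1 y.1, Mono φ p q)) ∨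
    ∃ w w', φ w = some x.2 ∧ φ w' = some y.2 ∧
      G.Adj x.1 y.1 ∧ G.Adj y.1 w ∧ G.Adj w w' ∧ G.Adj w' x.1)

/-- the data of the selection theorem -/
noncomputable def dat : SelData V (Fin k) (V × V) where
  H := univ.filter fun x => IsCand c r G φ x
  A := labA c r G φ
  B := labB c r G φ
  conf := Conf c r G φ

/-- the 4-cycles `v1 v2 v3 v4` with opposite codegrees at most `K0 r²` -/
def C4 (v1 v2 v3 v4 : V) : Prop :=
  G.Adj v1 v2 ∧ G.Adj v2 v3 ∧ G.Adj v3 v4 ∧ G.Adj v4 v1 ∧ v1 ≠ v3 ∧ v2 ≠ v4 ∧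
    cd G v1 v3 ≤ c.K0 * r ^ 2 ∧ cd G v2 v4 ≤ c.K0 * r ^ 2

/-- `x1` is the designated site of a structure with the sites `x1, x2, x3` and an old `v4` -/
def Des3 (x1 x2 x3 : V × Fin k) : Prop :=
  (¬ (dat c r G φ).Share x1 x2 ∧ ¬ (dat c r G φ).Share x1 x3 ∧ ¬ (dat c r G φ).Share x2 x3) ∨
    (dat c r G φ).Share x1 x3 ∨ (dat c r G φ).Share x1 x2

/-- `x1` is the designated site of a structure with the sites `x1, x2, x3, x4` -/
def Des4 (x1 x2 x3 x4 : V × Fin k) : Prop :=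
  (¬ (dat c r G φ).Share x1 x2 ∧ ¬ (dat c r G φ).Share x1 x3 ∧ ¬ (dat c r G φ).Share x1 x4 ∧
    ¬ (dat c r G φ).Share x2 x3 ∧ ¬ (dat c r G φ).Share x2 x4 ∧ ¬ (dat c r G φ).Share x3 x4) ∨
    (dat c r G φ).Share x1 x3 ∨ (dat c r G φ).Share x1 x2

/-- structures with three new sites `x1 = (v1, a)`, `x2 = (v2, b)`, `x3 = (v3, a)` and `v4` of the
old colour `b` -/
def Str3 (v1 v2 v3 v4 : V) (a b : Fin k) : Prop :=
  C4 c r G v1 v2 v3 v4 ∧ a ≠ b ∧ φ v4 = some b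

/-- structures with four new sites `(v1, a), (v2, b), (v3, a), (v4, b)` -/
def Str4 (v1 v2 v3 v4 : V) (a b : Fin k) : Prop := C4 c r G v1 v2 v3 v4 ∧ a ≠ b

/-- the spoiled elements of `S` -/
noncomputable def Sp (S : Finset (V × Fin k)) : Finset (V × Fin k) :=
  S.filter fun x => ∃ v2 v3 v4 b, (v2, b) ∈ S ∧ (v3, x.2) ∈ S ∧
    ((Des3 c r G φ x (v2, b) (v3, x.2) ∧ Str3 c r G φ x.1 v2 v3 v4 x.2 b) ∨
      ((v4, b) ∈ S ∧ Des4 c r G φ x (v2, b) (v3, x.2) (v4, b) ∧ Str4 c r G x.1 v2 v3 v4 x.2 b))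

/-- the elements which are used -/
noncomputable def Sm (S : Finset (V × Fin k)) : Finset (V × Fin k) := S \ Sp c r G φ S

/-- the vertices which are uncoloured -/
def Killed (S : Finset (V × Fin k)) (y : V) : Prop :=
  ∃ z, ∃ x ∈ S, (y, z) ∈ (dat c r G φ).J x

/-- the new colouring -/
noncomputable def newφ (S : Finset (V × Fin k)) (v : V) : Option (Fin k) :=
  if h : ∃ col, (v, col) ∈ Sm c r G φ S then some h.choose
  else if Killed c r G φ (Sm c r G φ S) v then none else φ v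

/-- the new weight function -/
noncomputable def newom (om : V × Fin k → ℝ) (act : Finset (V × Fin k)) (z : V × Fin k) : ℝ :=
  om z + if z ∈ act then 1 else 0

end Round

/-- Everything that is given in a round (`Y` is a small power of `r`). -/
structure RS {V : Type} [Fintype V] {k : ℕ} (c : Cst) (Cw : ℝ) (nc d m1 m2 : ℕ) (r Y : ℝ) (D : ℕ)
    (G : SimpleGraph V) (F : Fam V k) (φ : V → Option (Fin k)) (om : V × Fin k → ℝ)
    (x C1 C3 L : ℝ) (s : Sel V (Fin k) (V × V)) : Prop where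
  hc : CstHyp c
  r_one : 1 ≤ r
  r_cube : r ^ 3 = D
  Y_one : 1 ≤ Y
  Y_pow : Y ^ m1 = r
  L_one : 1 ≤ L
  L_le : L ≤ Y ^ m2
  k_le : (k : ℝ) ≤ c.ε / 2 * r ^ 4
  k_ge : 2 / 5 * c.ε * r ^ 4 ≤ k
  deg : ∀ v, (nb G v).card ≤ D
  fam : FamHyp r G F
  state : IsState c r G F φ om x C1 C3 L
  x_ge : c.γ ≤ x
  x_le : x ≤ 1
  C1_nonneg : 0 ≤ C1
  C3_nonneg : 0 ≤ C3
  C1_le : C1 ≤ c.C1m
  C3_le : C3 ≤ c.C3m
  base : SelBase (dat c r G φ) s (r ^ 4) Cw nc d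
  prob : SelProb (dat c r G φ) s (r ^ 4) c.a c.lam c.sig c.kill

/-- The round lemma for given constants: the output of module C. -/
def RoundFor (c : Cst) (m1 m2 : ℕ) (r0 : ℝ) : Prop :=
  ∀ (V : Type) [Fintype V] (k D : ℕ) (r Y : ℝ) (G : SimpleGraph V) (F : Fam V k)
    (φ : V → Option (Fin k)) (om : V × Fin k → ℝ) (x C1 C3 L : ℝ),
    r0 ≤ r → r ^ 3 = D → 1 ≤ Y → Y ^ m1 = r → 1 ≤ L → L ≤ Y ^ m2 →
    (k : ℝ) ≤ c.ε / 2 * r ^ 4 → 2 / 5 * c.ε * r ^ 4 ≤ k → (∀ v, (nb G v).card ≤ D) →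
    FamHyp r G F → IsState c r G F φ om x C1 C3 L → c.γ ≤ x → x ≤ 1 → 0 ≤ C1 → 0 ≤ C3 →
    C1 ≤ c.C1m → C3 ≤ c.C3m →
    ∃ (φ' : V → Option (Fin k)) (om' : V × Fin k → ℝ),
      IsState c r G F φ' om' (x * (1 - c.ε * c.lam * c.a / 16)) (C1 + 4 * c.sig * c.a)
        (C3 + 4 * c.sig * c.a / c.ρ0) (L * Y)

end Pool.Agent.Lib.H93B
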