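import Pool.Agent.Lib.H93B.DM2
import Pool.Agent.Lib.H93D.S9
import Pool.Agent.Lib.H93E.A31
import Pool.Agent.Lib.H23D.L8

/-!
# H93B, Main: the theorem for all graphs

See `PROOF.md`.
-/

set_option autoImplicit false

open Finset
open scoped Classical

namespace Pool.Agent.Lib.H93B

theorem selectionThm : SelectionThm := fun K Λ j0 hK hΛ hj => H93D.selFor K Λ j0 hK hΛ hj

theorem concThm : ConcThm := fun K Cw j0 nc d hK hCw => H93E.conc K Cw j0 nc d hK hCw

theorem roundThm : RoundThm := fun c hc N1 Cw nc d c0 hCw hsel hconc m1 m2 hm =>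
  H23D.roundC (fun q r C hC => H93E.dom q r C hC) c hc N1 Cw nc d c0 hCw hsel hconc m1 m2 hm

/-- The main theorem: every finite graph of maximum degree at most `D` has acyclic chromatic number
`o(D^(4/3))`. -/
theorem main (ε : ℝ) (hε : 0 < ε) :
    ∃ D0 : ℕ, ∀ D : ℕ, D0 ≤ D → ∀ (V : Type) [Finite V] (G : SimpleGraph V),
      (∀ v, (G.neighborSet v).ncard ≤ D) →
      (H93A.acyclicChromatic G : ℝ) ≤ ε * (D : ℝ) ^ (4 / 3 : ℝ) :=
  main_of selectionThm concThm roundThm ε hε

end Pool.Agent.Lib.H93B
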